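import Pool.Agent.H90.DC.Defs
import Pool.Agent.H51.DG.KJ
import Pool.Agent.H51.DG.KF
import Pool.Agent.H51.DG.ND

/-!
# DC job 2: the two regular kernels and the function `ps1`

`c = cc τ = 2 cosh(τ/2)`, `c' = sinh(τ/2)`, `sinh(τ/2)² = (c² - 4)/4`, `c'' = c/4`.
* `kerR_q3`: `q3 = pp + (1/2) c^{-3}`; `hasDerivAt_pp`, `hasDerivAt_ppd` (KJ.lean: `ppd' = 9/4 pp - ell`),
  `(c^{-3})'' = (9/4) c^{-3} - 12 c^{-5}`; bounds: `pp_bdd`, `c ≥ 2`, `|sinh(τ/2)| ≤ c/2`, `abs_ell_le_exp`.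
* `kerR_q1`: with `h = e^{-τ/2} log(1+e^τ) + e^{τ/2} log(1+e^{-τ})`:
  `h' = -(1/2) e^{-τ/2} log(1+e^τ) + (1/2) e^{τ/2} log(1+e^{-τ})` (the two other terms are
  `e^{τ/2}/(1+e^τ) = 1/c` and `-e^{-τ/2}/(1+e^{-τ}) = -1/c`), `h'' = h/4 - 1/c`
  (`(1/2)(1/c·…)`: `-(1/2) e^{-τ/2} e^τ/(1+e^τ) - (1/2) e^{τ/2} e^{-τ}/(1+e^{-τ}) = -1/c`),
  `(1/c)'' = (1/4)/c - 2/c³`, `(1/c³)'' = (9/4)/c³ - 12/c⁵`, so
  `q1'' = q1/4 - (1/c - 38/c³ + 162/c⁵)`.  Bounds: `0 ≤ e^{-τ/2} log(1+e^τ) ≤ 4` etc.: for `τ ≥ 0`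
  `log(1+e^τ) ≤ τ + 1 ≤ 4 e^{τ/2}`, for `τ ≤ 0` `log(1+e^τ) ≤ e^τ`.
* `ps1`: even, `ps1 ≤ m1` (`61/64 ≤ 1`), `m3 ≤ ps` (`6/c⁵ ≤ (3/8)/c` as `c⁴ ≥ 16`, `ell = ps - (3/8)/c`),
  `ps1 ≤ 2 Lpp = c/(c²-4)` for `τ ≠ 0` (`KE_two_Lpp`; with `v = c² > 4`:
  `v³/(v-4) - (61/64) v² + 38 v - 162 > 0`, as `v³/(v-4) ≥ v² + 4 v + 16`, so it is
  `≥ (3/64) v² + 42 v - 146 > 0`), `|ps1| ≤ 60 e^{-|τ|/2}`-type bound (`KE_exp_le`) for integrability,
  `∫_0^∞ ps1 = 0`: antiderivative `(81/32) sinh(τ/2)/cosh(τ/2)⁴ - (61/64) sinh(τ/2)/cosh(τ/2)²`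
  (zero at `0`, tends to `0`; as in KF.lean).
All formulas were checked numerically.
-/

set_option autoImplicit false
open Real Set MeasureTheory Filter Topology

namespace Pool.Agent.H90.DC
open Pool.Agent.H45.FL Pool.Agent.H51.DG Pool.Agent.H45.DY

theorem cc_ge (τ : ℝ) : 2 ≤ cc τ := KE_c_ge τ

theorem cc_pos (τ : ℝ) : 0 < cc τ := by linarith [cc_ge τ]

theorem cc_neg (τ : ℝ) : cc (-τ) = cc τ := by
  unfold cc
  rw [neg_div, Real.cosh_neg]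

theorem cc_exp (τ : ℝ) : Real.exp (|τ| / 2) ≤ cc τ := KE_exp_le τ

theorem cc_eq (τ : ℝ) : cc τ = Real.exp (τ / 2) + Real.exp (-(τ / 2)) := by
  unfold cc
  rw [Real.cosh_eq]
  ring

theorem cc_sinh_sq (τ : ℝ) : 4 * Real.sinh (τ / 2) ^ 2 = cc τ ^ 2 - 4 := KE_sinh_sq τ

theorem hd_cc (τ : ℝ) : HasDerivAt cc (Real.sinh (τ / 2)) τ := by
  have h := (((hasDerivAt_id τ).div_const 2).cosh).const_mul 2
  unfold cc
  refine h.congr_deriv ?_
  simp only [id]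
  ring

theorem hd_sh (τ : ℝ) : HasDerivAt (fun τ : ℝ => Real.sinh (τ / 2)) (cc τ / 4) τ := by
  have h := (((hasDerivAt_id τ).div_const 2).sinh)
  unfold cc
  refine h.congr_deriv ?_
  simp only [id]
  ring

theorem cont_cc : Continuous cc :=
  continuous_iff_continuousAt.2 fun τ => (hd_cc τ).continuousAt

theorem cont_inv (n : ℕ) : Continuous fun τ : ℝ => 1 / cc τ ^ n :=
  continuous_const.div (cont_cc.pow n) fun τ => pow_ne_zero n (cc_pos τ).ne'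

theorem inv_le_exp {n : ℕ} (hn : 1 ≤ n) (τ : ℝ) :
    |1 / cc τ ^ n| ≤ 1 * Real.exp (-(1 / 2 * |τ|)) := by
  have h1 := cc_pos τ
  rw [abs_of_pos (by positivity), one_mul, div_le_iff₀ (by positivity)]
  have h2 : cc τ ≤ cc τ ^ n := by
    calc cc τ = cc τ ^ 1 := (pow_one _).symm
      _ ≤ cc τ ^ n := pow_le_pow_right₀ (by linarith [cc_ge τ]) hn
  have h3 := cc_exp τ
  have h4 : Real.exp (-(1 / 2 * |τ|)) * Real.exp (|τ| / 2) = 1 := by
    rw [← Real.exp_add]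
    simp only [Real.exp_eq_one_iff]
    ring
  calc (1:ℝ) = Real.exp (-(1 / 2 * |τ|)) * Real.exp (|τ| / 2) := h4.symm
    _ ≤ Real.exp (-(1 / 2 * |τ|)) * cc τ ^ n :=
      mul_le_mul_of_nonneg_left (h3.trans h2) (Real.exp_pos _).le

theorem int_inv {n : ℕ} (hn : 1 ≤ n) : Integrable fun τ : ℝ => 1 / cc τ ^ n :=
  ND_integrable_of_bd (cont_inv n) (by norm_num) (inv_le_exp hn)

theorem inv_bdd (n : ℕ) (τ : ℝ) : |1 / cc τ ^ n| ≤ 1 := by
  have h1 := cc_pos τ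
  rw [abs_of_pos (by positivity), div_le_one (by positivity)]
  exact one_le_pow₀ (by linarith [cc_ge τ])

theorem tendsto_exp_half (s : ℝ → ℝ) (hs : ∀ τ, |s τ| ≤ 1 * Real.exp (-(1 / 2 * |τ|))) :
    Tendsto s atTop (𝓝 0) := by
  have e : Tendsto (fun x : ℝ => Real.exp (-x)) atTop (𝓝 0) := Real.tendsto_exp_neg_atTop_nhds_zero
  refine squeeze_zero_norm (fun τ => ?_) (e.comp ((tendsto_abs_atTop_atTop).const_mul_atTop
    (show (0:ℝ) < 1 / 2 by norm_num)))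
  rw [Real.norm_eq_abs]
  simpa using hs τ

theorem sh_le (τ : ℝ) : |Real.sinh (τ / 2)| ≤ cc τ / 2 := by
  unfold cc
  rw [Real.abs_sinh, ← Real.cosh_abs]
  linarith [Real.sinh_lt_cosh |τ / 2|]

theorem sh_inv {n : ℕ} (τ : ℝ) :
    |Real.sinh (τ / 2) / cc τ ^ (n + 2)| ≤ 1 * Real.exp (-(1 / 2 * |τ|)) := by
  have h1 := cc_pos τ
  have h2 := inv_le_exp (n := n + 1) (by omega) τ
  rw [abs_of_pos (by positivity)] at h2
  refine le_trans ?_ h2
  rw [abs_div, abs_of_pos (show 0 < cc τ ^ (n + 2) by positivity), div_le_div_iff₀ (by positivity)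
    (by positivity)]
  have h3 := sh_le τ
  have h4 : cc τ ^ (n + 2) = cc τ * cc τ ^ (n + 1) := by ring
  rw [h4, one_mul]
  refine mul_le_mul_of_nonneg_right (h3.trans (by linarith)) (by positivity)

theorem sh_inv_one {n : ℕ} (τ : ℝ) : |Real.sinh (τ / 2) / cc τ ^ (n + 2)| ≤ 1 := by
  have h1 := sh_inv (n := n) τ
  have h2 : Real.exp (-(1 / 2 * |τ|)) ≤ 1 := Real.exp_le_one_iff.2 (by
    have := abs_nonneg τ; linarith)
  linarith

/-- `(c^{-3})' = -3 sinh/c⁴` -/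
theorem hd_c3 (τ : ℝ) : HasDerivAt (fun τ => 1 / cc τ ^ 3)
    (-3 * (Real.sinh (τ / 2) / cc τ ^ (2 + 2))) τ := by
  have h := ((hd_cc τ).pow 3).inv (pow_ne_zero 3 (cc_pos τ).ne')
  have e : (fun τ => 1 / cc τ ^ 3) = (cc ^ 3)⁻¹ := by
    funext τ
    simp
  rw [e]
  refine h.congr_deriv ?_
  have h2 := cc_pos τ
  simp only [Pi.pow_apply]
  field_simp
  norm_num
  ring

/-- derivative of `sinh/c⁴` -/
theorem hd_s4 (τ : ℝ) : HasDerivAt (fun τ => Real.sinh (τ / 2) / cc τ ^ (2 + 2))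
    (-(3 / 4 * (1 / cc τ ^ 3)) + 4 * (1 / cc τ ^ 5)) τ := by
  have h := ((hd_sh τ).div ((hd_cc τ).pow 4) (pow_ne_zero 4 (cc_pos τ).ne'))
  refine h.congr_deriv ?_
  have h1 := cc_sinh_sq τ
  have h2 := cc_pos τ
  simp only [Pi.pow_apply]
  generalize cc τ = C at h1 h2
  generalize Real.sinh (τ / 2) = S at h1
  have hS2 : S ^ 2 = (C ^ 2 - 4) / 4 := by linarith
  field_simp
  ring_nf
  rw [hS2]
  ring

/-- `(c^{-1})' = -sinh/c²` -/
theorem hd_c1 (τ : ℝ) : HasDerivAt (fun τ => 1 / cc τ ^ 1)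
    (-(Real.sinh (τ / 2) / cc τ ^ (0 + 2))) τ := by
  have h := (hd_cc τ).inv (cc_pos τ).ne'
  have e : (fun τ => 1 / cc τ ^ 1) = cc⁻¹ := by
    funext τ
    simp
  rw [e]
  refine h.congr_deriv ?_
  simp only [zero_add]
  ring

/-- derivative of `sinh/c²` -/
theorem hd_s2 (τ : ℝ) : HasDerivAt (fun τ => Real.sinh (τ / 2) / cc τ ^ (0 + 2))
    (-(1 / 4 * (1 / cc τ ^ 1)) + 2 * (1 / cc τ ^ 3)) τ := by
  have h := ((hd_sh τ).div ((hd_cc τ).pow 2) (pow_ne_zero 2 (cc_pos τ).ne'))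
  refine h.congr_deriv ?_
  have h1 := cc_sinh_sq τ
  have h2 := cc_pos τ
  simp only [Pi.pow_apply]
  generalize cc τ = C at h1 h2
  generalize Real.sinh (τ / 2) = S at h1
  have hS2 : S ^ 2 = (C ^ 2 - 4) / 4 := by linarith
  field_simp
  ring_nf
  rw [hS2]
  ring

theorem q3_eq (τ : ℝ) : q3 τ = pp τ + 1 / 2 * (1 / cc τ ^ 3) := by
  unfold q3
  ring

theorem q3d_eq (τ : ℝ) : q3d τ = ppd τ + 1 / 2 * (-3 * (Real.sinh (τ / 2) / cc τ ^ (2 + 2))) := by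
  unfold q3d
  ring

theorem m3_eq (τ : ℝ) : m3 τ = ell τ + 6 * (1 / cc τ ^ 5) := by
  unfold m3
  ring

theorem kerR_q3 : KerR (3 / 2) q3 q3d m3 where
  d1 τ := by
    have e : q3 = fun τ => pp τ + 1 / 2 * (1 / cc τ ^ 3) := funext q3_eq
    rw [e, q3d_eq]
    exact (hasDerivAt_pp τ).add ((hd_c3 τ).const_mul (1 / 2))
  d2 τ := by
    have e : q3d = fun τ => ppd τ + 1 / 2 * (-3 * (Real.sinh (τ / 2) / cc τ ^ (2 + 2))) :=
      funext q3d_eq
    rw [e]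
    refine ((hasDerivAt_ppd τ).add (((hd_s4 τ).const_mul (-3)).const_mul (1 / 2))).congr_deriv ?_
    rw [q3_eq, m3_eq]
    ring
  bd := by
    obtain ⟨K, hK⟩ := pp_bdd
    refine ⟨K + 70, fun τ => ?_⟩
    have h1 := hK τ
    have h2 := inv_bdd 3 τ
    have h3 := sh_inv_one (n := 2) τ
    have h4 := inv_bdd 5 τ
    have h5 := abs_ell_le_exp τ
    have h6 : Real.exp (-|τ| / 2) ≤ 1 := Real.exp_le_one_iff.2 (by
      have := abs_nonneg τ; linarith)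
    have h7 := (abs_nonneg _).trans h1.1
    rw [q3_eq, q3d_eq, m3_eq]
    rw [abs_le] at h2 h3 h4
    refine ⟨?_, ?_, ?_⟩
    · have h8 := abs_le.1 h1.1
      rw [abs_le]
      constructor <;> linarith [h2.1, h2.2, h8.1, h8.2]
    · have h8 := abs_le.1 h1.2
      rw [abs_le]
      constructor <;> linarith [h3.1, h3.2, h8.1, h8.2]
    · have h8 := abs_le.1 h5
      rw [abs_le]
      constructor <;> linarith [h4.1, h4.2, h8.1, h8.2]
  cl := by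
    have e : m3 = fun τ => ell τ + 6 * (1 / cc τ ^ 5) := funext m3_eq
    rw [e]
    exact continuous_ell.add (continuous_const.mul (cont_inv 5))
  ev τ := by rw [m3_eq, m3_eq, ell_neg, cc_neg]

theorem log_part (τ : ℝ) : 0 ≤ Real.exp (τ / 2) * Real.log (1 + Real.exp (-τ)) ∧
    Real.exp (τ / 2) * Real.log (1 + Real.exp (-τ)) ≤ 2 := by
  have h0 := Real.exp_pos (τ / 2)
  have h1 := Real.exp_pos (-τ)
  have h2 := Real.exp_pos (-(τ / 2))
  constructor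
  · exact mul_nonneg h0.le (Real.log_nonneg (by linarith))
  · have h3 : Real.log (1 + Real.exp (-τ)) ≤ 2 * Real.exp (-(τ / 2)) := by
      have h4 : 1 + Real.exp (-τ) ≤ (1 + Real.exp (-(τ / 2))) ^ 2 := by
        have h5 : Real.exp (-τ) = Real.exp (-(τ / 2)) ^ 2 := by
          rw [← Real.exp_nat_mul]
          congr 1
          push_cast
          ring
        rw [h5]
        nlinarith
      calc Real.log (1 + Real.exp (-τ)) ≤ Real.log ((1 + Real.exp (-(τ / 2))) ^ 2) :=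
            Real.log_le_log (by linarith) h4
        _ = 2 * Real.log (1 + Real.exp (-(τ / 2))) := by
            rw [Real.log_pow]
            norm_num
        _ ≤ 2 * Real.exp (-(τ / 2)) := by
            have := Real.log_le_sub_one_of_pos (show 0 < 1 + Real.exp (-(τ / 2)) by linarith)
            linarith
    have h6 : Real.exp (τ / 2) * Real.exp (-(τ / 2)) = 1 := by
      rw [← Real.exp_add, add_neg_cancel, Real.exp_zero]
    calc Real.exp (τ / 2) * Real.log (1 + Real.exp (-τ))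
        ≤ Real.exp (τ / 2) * (2 * Real.exp (-(τ / 2))) := mul_le_mul_of_nonneg_left h3 h0.le
      _ = 2 * (Real.exp (τ / 2) * Real.exp (-(τ / 2))) := by ring
      _ = 2 := by rw [h6]; norm_num

theorem hd_log_part (τ : ℝ) :
    HasDerivAt (fun τ : ℝ => Real.exp (τ / 2) * Real.log (1 + Real.exp (-τ)))
      (1 / 2 * (Real.exp (τ / 2) * Real.log (1 + Real.exp (-τ))) - 1 / cc τ ^ 1) τ := by
  have h0 : HasDerivAt (fun τ : ℝ => Real.exp (τ / 2)) (Real.exp (τ / 2) * (1 / 2)) τ :=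
    ((hasDerivAt_id τ).div_const 2).exp
  have h1 : HasDerivAt (fun τ : ℝ => Real.exp (-τ)) (Real.exp (-τ) * (-1)) τ :=
    ((hasDerivAt_id τ).neg).exp
  have h2 := Real.exp_pos (-τ)
  have h3 : HasDerivAt (fun τ : ℝ => Real.log (1 + Real.exp (-τ)))
      (Real.exp (-τ) * (-1) / (1 + Real.exp (-τ))) τ := (h1.const_add 1).log (by positivity)
  refine (h0.mul h3).congr_deriv ?_
  have h4 : Real.exp (-τ) = Real.exp (-(τ / 2)) ^ 2 := by
    rw [← Real.exp_nat_mul]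
    congr 1
    push_cast
    ring
  have h5 : Real.exp (τ / 2) = (Real.exp (-(τ / 2)))⁻¹ := by
    rw [Real.exp_neg, inv_inv]
  have h6 := Real.exp_pos (-(τ / 2))
  rw [cc_eq, pow_one]
  generalize Real.log (1 + Real.exp (-τ)) = L
  rw [h4, h5]
  generalize Real.exp (-(τ / 2)) = E at h6
  field_simp
  ring

theorem hd_log_part' (τ : ℝ) :
    HasDerivAt (fun τ : ℝ => Real.exp (-τ / 2) * Real.log (1 + Real.exp τ))
      (-(1 / 2 * (Real.exp (-τ / 2) * Real.log (1 + Real.exp τ))) + 1 / cc τ ^ 1) τ := by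
  have h := (hd_log_part (-τ)).comp τ ((hasDerivAt_id τ).neg)
  have e : (fun τ : ℝ => Real.exp (τ / 2) * Real.log (1 + Real.exp (-τ))) ∘ Neg.neg =
      fun τ : ℝ => Real.exp (-τ / 2) * Real.log (1 + Real.exp τ) := by
    funext s
    simp only [Function.comp, neg_neg]
  rw [e] at h
  refine h.congr_deriv ?_
  rw [cc_neg, neg_neg]
  ring

theorem q1_eq (τ : ℝ) : q1 τ = Real.exp (-τ / 2) * Real.log (1 + Real.exp τ) +
    Real.exp (τ / 2) * Real.log (1 + Real.exp (-τ)) - 11 / 2 * (1 / cc τ ^ 1) +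
      27 / 2 * (1 / cc τ ^ 3) := by
  unfold q1
  ring

theorem q1d_eq (τ : ℝ) : q1d τ =
    -(1 / 2) * (Real.exp (-τ / 2) * Real.log (1 + Real.exp τ))
    + 1 / 2 * (Real.exp (τ / 2) * Real.log (1 + Real.exp (-τ)))
    + 11 / 2 * (Real.sinh (τ / 2) / cc τ ^ (0 + 2))
    - 81 / 2 * (Real.sinh (τ / 2) / cc τ ^ (2 + 2)) := by
  unfold q1d
  ring

theorem m1_eq (τ : ℝ) : m1 τ = 1 / cc τ ^ 1 - 38 * (1 / cc τ ^ 3) + 162 * (1 / cc τ ^ 5) := by
  unfold m1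
  ring

theorem ps1_eq (τ : ℝ) : ps1 τ =
    61 / 64 * (1 / cc τ ^ 1) - 38 * (1 / cc τ ^ 3) + 162 * (1 / cc τ ^ 5) := by
  unfold ps1
  ring

theorem kerR_q1 : KerR (1 / 2) q1 q1d m1 where
  d1 τ := by
    have e := funext q1_eq
    rw [e, q1d_eq]
    refine ((((hd_log_part' τ).add (hd_log_part τ)).sub ((hd_c1 τ).const_mul (11 / 2))).add
      ((hd_c3 τ).const_mul (27 / 2))).congr_deriv ?_
    ring
  d2 τ := by
    have e := funext q1d_eq
    rw [e]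
    refine (((((hd_log_part' τ).const_mul (-(1 / 2))).add
      ((hd_log_part τ).const_mul (1 / 2))).add ((hd_s2 τ).const_mul (11 / 2))).sub
      ((hd_s4 τ).const_mul (81 / 2))).congr_deriv ?_
    rw [q1_eq, m1_eq]
    ring
  bd := by
    refine ⟨250, fun τ => ?_⟩
    have h1 := log_part τ
    have h1' := log_part (-τ)
    rw [neg_neg] at h1'
    have h2 := inv_bdd 3 τ
    have h3 := sh_inv_one (n := 2) τ
    have h3' := sh_inv_one (n := 0) τ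
    have h4 := inv_bdd 5 τ
    have h5 := inv_bdd 1 τ
    rw [q1_eq, q1d_eq, m1_eq]
    rw [abs_le] at h2 h3 h3' h4 h5
    refine ⟨?_, ?_, ?_⟩
    · rw [abs_le]
      constructor <;> linarith [h1.1, h1.2, h1'.1, h1'.2, h2.1, h2.2, h5.1, h5.2]
    · rw [abs_le]
      constructor <;> linarith [h1.1, h1.2, h1'.1, h1'.2, h3.1, h3.2, h3'.1, h3'.2]
    · rw [abs_le]
      constructor <;> linarith [h2.1, h2.2, h4.1, h4.2, h5.1, h5.2]
  cl := by
    rw [funext m1_eq]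
    exact ((cont_inv 1).sub (continuous_const.mul (cont_inv 3))).add
      (continuous_const.mul (cont_inv 5))
  ev τ := by rw [m1_eq, m1_eq, cc_neg]

theorem m3_le_ps (τ : ℝ) : m3 τ ≤ ps τ := by
  have h1 : ps τ = 48 / cc τ ^ 5 - 4 / cc τ ^ 3 - 5 / 8 / cc τ := by
    unfold ps cc
    ring
  have h2 : m3 τ = 48 / cc τ ^ 5 - 4 / cc τ ^ 3 - 1 / cc τ + 6 / cc τ ^ 5 := by
    unfold m3 ell cc
    ring
  have h3 := cc_ge τ
  have h4 := cc_pos τ
  rw [h1, h2]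
  generalize cc τ = c at h3 h4
  have h5 : 6 / c ^ 5 ≤ 3 / 8 / c := by
    rw [div_le_div_iff₀ (by positivity) h4]
    have h6 : (16:ℝ) ≤ c ^ 4 := by
      have : (2:ℝ) ^ 4 ≤ c ^ 4 := pow_le_pow_left₀ (by norm_num) h3 4
      linarith
    have h7 : c ^ 5 = c ^ 4 * c := by ring
    rw [h7]
    nlinarith
  have h8 : (1:ℝ) / c = 5 / 8 / c + 3 / 8 / c := by ring
  linarith

theorem ps1_le_m1 (τ : ℝ) : ps1 τ ≤ m1 τ := by
  rw [ps1_eq, m1_eq]
  have h := cc_pos τ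
  have : 0 ≤ 1 / cc τ ^ 1 := by positivity
  linarith

theorem ps1_neg (τ : ℝ) : ps1 (-τ) = ps1 τ := by
  rw [ps1_eq, ps1_eq, cc_neg]

theorem ps1_le_Lpp {τ : ℝ} (h : τ ≠ 0) : ps1 τ ≤ 2 * Lpp τ := by
  have h1 := KE_sinh_pos h
  have h2 := cc_sinh_sq τ
  have h3 := cc_ge τ
  have h4 := cc_pos τ
  have h5 : 2 * Lpp τ = cc τ / (cc τ ^ 2 - 4) := KE_two_Lpp h
  rw [h5, ps1_eq]
  generalize cc τ = c at h2 h3 h4
  have hw : 0 < c ^ 2 - 4 := by rw [← h2]; positivity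
  have e1 : 61 / 64 * (1 / c ^ 1) - 38 * (1 / c ^ 3) + 162 * (1 / c ^ 5) =
      (61 / 64 * c ^ 4 - 38 * c ^ 2 + 162) / c ^ 5 := by
    field_simp
  rw [e1, div_le_div_iff₀ (by positivity) hw]
  obtain ⟨v, hv⟩ : ∃ v, v = c ^ 2 - 4 := ⟨_, rfl⟩
  have e2 : (61 / 64 * c ^ 4 - 38 * c ^ 2 + 162) * (c ^ 2 - 4) =
      (61 / 64 * (v + 4) ^ 2 - 38 * (v + 4) + 162) * v := by
    rw [hv]; ring
  have e3 : c * c ^ 5 = (v + 4) ^ 3 := by
    rw [hv]; ring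
  rw [e2, e3]
  have hv0 : 0 < v := by rw [hv]; exact hw
  nlinarith [mul_pos hv0 hv0, mul_pos (mul_pos hv0 hv0) hv0, sq_nonneg (v - 4)]

theorem integrable_m3 : Integrable m3 := by
  rw [funext m3_eq]
  exact integrable_ell.add ((int_inv (by norm_num)).const_mul 6)

theorem integrable_m1 : Integrable m1 := by
  rw [funext m1_eq]
  exact ((int_inv (by norm_num)).sub ((int_inv (by norm_num)).const_mul 38)).add
    ((int_inv (by norm_num)).const_mul 162)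

theorem integrable_ps1 : Integrable ps1 := by
  rw [funext ps1_eq]
  exact (((int_inv (by norm_num)).const_mul (61 / 64)).sub
    ((int_inv (by norm_num)).const_mul 38)).add ((int_inv (by norm_num)).const_mul 162)

theorem integral_Ioi_ps1 : ∫ τ in Ioi (0:ℝ), ps1 τ = 0 := by
  have hd : ∀ τ : ℝ, HasDerivAt (fun τ : ℝ => 81 / 2 * (Real.sinh (τ / 2) / cc τ ^ (2 + 2)) -
      61 / 16 * (Real.sinh (τ / 2) / cc τ ^ (0 + 2))) (ps1 τ) τ := by
    intro τ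
    refine (((hd_s4 τ).const_mul (81 / 2)).sub ((hd_s2 τ).const_mul (61 / 16))).congr_deriv ?_
    rw [ps1_eq]
    ring
  have ht : Tendsto (fun τ : ℝ => 81 / 2 * (Real.sinh (τ / 2) / cc τ ^ (2 + 2)) -
      61 / 16 * (Real.sinh (τ / 2) / cc τ ^ (0 + 2))) atTop (𝓝 (81 / 2 * 0 - 61 / 16 * 0)) :=
    ((tendsto_exp_half _ (sh_inv (n := 2))).const_mul _).sub
      ((tendsto_exp_half _ (sh_inv (n := 0))).const_mul _)
  have h := integral_Ioi_of_hasDerivAt_of_tendsto' (a := 0) (fun τ _ => hd τ)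
    integrable_ps1.integrableOn ht
  rw [h, zero_div, Real.sinh_zero]
  ring

end Pool.Agent.H90.DC
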