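import Pool.Agent.H90.DC.KReg
import Pool.Agent.H90.DC.KBase
import Pool.Agent.H51.DG.NG
import Pool.Agent.H51.DG.NE

/-!
# DC job 3: the two forms (uses the stubs of `KReg.lean`, `KBase.lean`)

Read `Pool/Agent/H51/DG/NG.lean` and `NE.lean` (`key_lemma`) first.
* `r3k_exp`, `r1k_exp`: `r3k (e^{-r}) (e^{-s}) = e^{-(3/2)(r+s)} q3 (r-s)` (`rl0_exp` in KG.lean), and
  `r1k (e^{-r}) (e^{-s}) = e^{-(1/2)(r+s)} q1 (r-s)`: with `c = cc (r-s)`,
  `e^{-r} + e^{-s} = e^{-(r+s)/2} c`, `(e^{-r})² + (e^{-s})² - e^{-r}e^{-s} = e^{-(r+s)} (c² - 3)`,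
  `Z/Y = e^{r-s}`.  (checked numerically)
* `form_r3`: `form b b k3 = -N3 b = -2 ∫ Lpp DD(A)`, `A = Am (3/2) b ≥ 0` (`form_k3`, `Am_nonneg`, `adm_Am`),
  `form b b r3k = ∫ m3 corr A A` (`NG_conv`, `KerR.formula kerR_q3`) `≤ ∫ ps corr A A` (`m3_le_ps`,
  `corr A A ≥ 0`) `= ∫_0^∞ ps (corr τ + corr (-τ) - 2 corr 0) = -∫_0^∞ ps DD` (`∫_0^∞ ps = 0`,
  `integral_Ioi_ps`, `DD_eq`, `corr_swap`) `≤ 2 ∫ Lpp DD` (`abs_ps_le`).
* `form_r1`: `form b b l1k = -2 ∫ Lpp DD(A₁)`, `A₁ = Am (1/2) b` (see the proof of `form_l1k`),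
  `form b b r1k = ∫ m1 corr A₁ A₁ ≥ ∫ ps1 corr A₁ A₁ = -∫_0^∞ ps1 DD ≥ -2 ∫_0^∞ Lpp DD`.
-/

set_option autoImplicit false
open Real Set MeasureTheory Filter Topology

namespace Pool.Agent.H90.DC
open Pool.Agent.H45.FL Pool.Agent.H51.DG Pool.Agent.H45.DY

theorem PP_cc_sub (r s : ℝ) : cc (r - s) =
    (Real.exp (-r) + Real.exp (-s)) * Real.exp ((r + s) / 2) := by
  rw [cc_eq, add_mul, ← Real.exp_add, ← Real.exp_add, add_comm]
  congr 2 <;> ring

theorem PP_exp_sq (r s : ℝ) :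
    Real.exp (-r) * Real.exp (-s) * Real.exp ((r + s) / 2) ^ 2 = 1 := by
  rw [← Real.exp_nat_mul, ← Real.exp_add, ← Real.exp_add, Real.exp_eq_one_iff]
  push_cast
  ring

theorem r3k_exp (r s : ℝ) : r3k (Real.exp (-r)) (Real.exp (-s)) =
    Real.exp (-(3 / 2 * (r + s))) * q3 (r - s) := by
  have h1 := PP_exp_sq r s
  have h2 : Real.exp (-(3 / 2 * (r + s))) = (Real.exp ((r + s) / 2) ^ 3)⁻¹ := by
    rw [← Real.exp_nat_mul, ← Real.exp_neg]
    congr 1
    push_cast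
    ring
  have h0 := rl0_exp r s
  have p1 := Real.exp_pos (-r)
  have p2 := Real.exp_pos (-s)
  have p3 := Real.exp_pos ((r + s) / 2)
  have h5 : 1 / 2 * (Real.exp (-r) ^ 3 * Real.exp (-s) ^ 3) / (Real.exp (-r) + Real.exp (-s)) ^ 3 =
      Real.exp (-(3 / 2 * (r + s))) * (1 / 2 / cc (r - s) ^ 3) := by
    rw [PP_cc_sub, h2]
    generalize Real.exp (-r) = a at *
    generalize Real.exp (-s) = b at *
    generalize Real.exp ((r + s) / 2) = e at *
    rw [div_eq_iff (by positivity)]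
    field_simp
    have h3 : a ^ 3 * b ^ 3 * e ^ 6 = (a * b * e ^ 2) ^ 3 := by ring
    rw [h3, h1]
    norm_num
  unfold r3k q3
  rw [mul_add, ← h5, h0]

theorem r1k_exp (r s : ℝ) : r1k (Real.exp (-r)) (Real.exp (-s)) =
    Real.exp (-(1 / 2 * (r + s))) * q1 (r - s) := by
  have h1 := PP_exp_sq r s
  have h2 : Real.exp (-(1 / 2 * (r + s))) = (Real.exp ((r + s) / 2))⁻¹ := by
    rw [← Real.exp_neg]
    congr 1
    ring
  have p1 := Real.exp_pos (-r)
  have p2 := Real.exp_pos (-s)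
  have p3 := Real.exp_pos ((r + s) / 2)
  have g1 : Real.exp (-s) / Real.exp (-r) = Real.exp (r - s) := by
    rw [← Real.exp_sub]
    congr 1
    ring
  have g2 : Real.exp (-r) / Real.exp (-s) = Real.exp (-(r - s)) := by
    rw [← Real.exp_sub]
    congr 1
    ring
  have g3 : Real.exp (-(1 / 2 * (r + s))) * Real.exp (-(r - s) / 2) = Real.exp (-r) := by
    rw [← Real.exp_add]
    congr 1
    ring
  have g4 : Real.exp (-(1 / 2 * (r + s))) * Real.exp ((r - s) / 2) = Real.exp (-s) := by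
    rw [← Real.exp_add]
    congr 1
    ring
  have h5 : -(Real.exp (-r) * Real.exp (-s) / (Real.exp (-r) + Real.exp (-s)))
      - 9 / 2 * (Real.exp (-r) * Real.exp (-s) * (Real.exp (-r) ^ 2 + Real.exp (-s) ^ 2 -
        Real.exp (-r) * Real.exp (-s))) / (Real.exp (-r) + Real.exp (-s)) ^ 3 =
      Real.exp (-(1 / 2 * (r + s))) * (-(11 / 2 / cc (r - s)) + 27 / 2 / cc (r - s) ^ 3) := by
    rw [PP_cc_sub, h2]
    generalize Real.exp (-r) = a at *
    generalize Real.exp (-s) = b at *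
    generalize Real.exp ((r + s) / 2) = e at *
    have hE : e ^ 2 = 1 / (a * b) := by
      rw [eq_div_iff (by positivity)]
      linarith
    have k1 : 11 / 2 / ((a + b) * e) = 11 / 2 * (a * b) / (a + b) * e := by
      field_simp
      rw [hE]
      field_simp
    have k3 : 27 / 2 / ((a + b) * e) ^ 3 = 27 / 2 * (a * b) ^ 2 / (a + b) ^ 3 * e := by
      have e4 : e ^ 4 = 1 / (a * b) ^ 2 := by
        have : e ^ 4 = (e ^ 2) ^ 2 := by ring
        rw [this, hE]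
        field_simp
      field_simp
      rw [e4]
      field_simp
    rw [k1, k3]
    field_simp
    ring
  have h6 : r1k (Real.exp (-r)) (Real.exp (-s)) =
      (Real.exp (-r) * Real.log (1 + Real.exp (r - s)) +
        Real.exp (-s) * Real.log (1 + Real.exp (-(r - s)))) +
      (-(Real.exp (-r) * Real.exp (-s) / (Real.exp (-r) + Real.exp (-s)))
      - 9 / 2 * (Real.exp (-r) * Real.exp (-s) * (Real.exp (-r) ^ 2 + Real.exp (-s) ^ 2 -
        Real.exp (-r) * Real.exp (-s))) / (Real.exp (-r) + Real.exp (-s)) ^ 3) := by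
    unfold r1k
    rw [g1, g2]
    ring
  have h7 : q1 (r - s) = (Real.exp (-(r - s) / 2) * Real.log (1 + Real.exp (r - s)) +
      Real.exp ((r - s) / 2) * Real.log (1 + Real.exp (-(r - s)))) +
      (-(11 / 2 / cc (r - s)) + 27 / 2 / cc (r - s) ^ 3) := by
    unfold q1
    ring
  rw [h6, h5, h7]
  linear_combination (-(Real.log (1 + Real.exp (r - s)))) * g3 -
    Real.log (1 + Real.exp (-(r - s))) * g4

/-- form of a regular kernel -/
theorem PP_form {m : ℝ} {q q' ℓ : ℝ → ℝ} (h : KerR m q q' ℓ) (hm : 0 < m) {K : ℝ → ℝ → ℝ}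
    (hK : ∀ r s, K (Real.exp (-r)) (Real.exp (-s)) = Real.exp (-(m * (r + s))) * q (r - s))
    {b : ℝ → ℝ} (hb : Bd b) : FInt b b K ∧
    form b b K = ∫ τ, ℓ τ * corr (Am m b) (Am m b) τ := by
  have hA : Adm (Am m b) (Amd m b) := adm_Am hb hm
  have hc := NG_conv (m := m) (p := b) (q := b) (K := K) (k := fun r s => q (r - s))
    (fun r s _ => hK r s)
  constructor
  · unfold FInt
    rw [integrableOn_th_iff, integrable_congr hc]
    exact h.integrable_prod hA hA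
  · unfold form
    rw [integral_th, integral_congr_ae hc, h.formula hA hA]

/-- `∫ f C = - ∫_0^∞ f DD` for even `f` with integral zero -/
theorem PP_even {A A' : ℝ → ℝ} (hA : Adm A A') {f : ℝ → ℝ} (hf : Integrable f)
    (he : ∀ τ, f (-τ) = f τ) (h0 : ∫ τ in Ioi (0:ℝ), f τ = 0) :
    IntegrableOn (fun τ => f τ * DD A τ) (Ioi 0) ∧ Integrable (fun τ => f τ * corr A A τ) ∧
    ∫ τ, f τ * corr A A τ = - ∫ τ in Ioi (0:ℝ), f τ * DD A τ := by
  have hCc := NE_corr_continuous hA hA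
  obtain ⟨K, hK⟩ := NE_corr_bdd hA hA
  have i1 : Integrable (fun τ => f τ * corr A A τ) := NE_integrable_mul hf hCc hK
  have i2 : Integrable (fun τ => f τ * DD A τ) := by
    have e : (fun τ => f τ * DD A τ) = fun τ => 2 * corr A A 0 * f τ - 2 * (f τ * corr A A τ) := by
      funext τ
      rw [DD_eq hA]
      ring
    rw [e]
    exact (hf.const_mul _).sub (i1.const_mul 2)
  refine ⟨i2.integrableOn, i1, ?_⟩
  have h00 : ∫ τ, f τ = 0 := by
    rw [← intervalIntegral.integral_Iic_add_Ioi (b := (0:ℝ)) hf.integrableOn hf.integrableOn, h0]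
    have h := integral_comp_neg_Ioi (0:ℝ) f
    rw [neg_zero] at h
    rw [← h]
    simp only [he]
    rw [h0]
    ring
  have ed : ∀ τ, DD A (-τ) = DD A τ := by
    intro τ
    rw [DD_eq hA, DD_eq hA, corr_swap]
  have e1 : ∫ τ, f τ * DD A τ = 2 * ∫ τ in Ioi (0:ℝ), f τ * DD A τ := by
    rw [← intervalIntegral.integral_Iic_add_Ioi (b := (0:ℝ)) i2.integrableOn i2.integrableOn]
    have h := integral_comp_neg_Ioi (0:ℝ) (fun τ => f τ * DD A τ)
    rw [neg_zero] at h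
    rw [← h]
    simp only [he, ed]
    ring
  have e2 : ∫ τ, f τ * DD A τ = 2 * corr A A 0 * (∫ τ, f τ) - 2 * ∫ τ, f τ * corr A A τ := by
    rw [← integral_const_mul, ← integral_const_mul, ← integral_sub (hf.const_mul _)
      (i1.const_mul 2)]
    refine integral_congr_ae (Eventually.of_forall fun τ => ?_)
    simp only
    rw [DD_eq hA]
    ring
  rw [h00] at e2
  linarith

theorem PP_Lpp2 {A A' : ℝ → ℝ} (hA : Adm A A') :
    IntegrableOn (fun τ => 2 * Lpp τ * DD A τ) (Ioi 0) ∧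
    ∫ τ in Ioi (0:ℝ), 2 * Lpp τ * DD A τ = 2 * ∫ τ in Ioi (0:ℝ), Lpp τ * DD A τ := by
  have h7 : IntegrableOn (fun τ => 2 * (Lpp τ * DD A τ)) (Ioi 0) :=
    (integrableOn_Lpp_DD hA).const_mul 2
  refine ⟨h7.congr_fun (fun τ _ => by ring) measurableSet_Ioi, ?_⟩
  rw [← integral_const_mul]
  refine setIntegral_congr_fun measurableSet_Ioi fun τ _ => ?_
  ring

theorem form_r3 {b : ℝ → ℝ} (hb : Bd b) : FInt b b r3k ∧ form b b k3 + form b b r3k ≤ 0 := by
  have hA : Adm (Am (3 / 2) b) (Amd (3 / 2) b) := adm_Am hb (by norm_num)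
  obtain ⟨f1, f2⟩ := PP_form kerR_q3 (by norm_num) r3k_exp hb
  refine ⟨f1, ?_⟩
  rw [(form_k3 hb).2, f2]
  unfold N3
  obtain ⟨j1, i1, e1⟩ := PP_even hA integrable_ps ps_neg integral_Ioi_ps
  obtain ⟨j2, e2⟩ := PP_Lpp2 hA
  obtain ⟨K, hK⟩ := NE_corr_bdd hA hA
  have i0 : Integrable (fun τ => m3 τ * corr (Am (3 / 2) b) (Am (3 / 2) b) τ) :=
    NE_integrable_mul integrable_m3 (NE_corr_continuous hA hA) hK
  have h1 : ∫ τ, m3 τ * corr (Am (3 / 2) b) (Am (3 / 2) b) τ ≤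
      ∫ τ, ps τ * corr (Am (3 / 2) b) (Am (3 / 2) b) τ :=
    integral_mono i0 i1 fun τ => mul_le_mul_of_nonneg_right (m3_le_ps τ)
      (NE_corr_nonneg (Am_nonneg hb _) (Am_nonneg hb _) τ)
  have h2 : - ∫ τ in Ioi (0:ℝ), ps τ * DD (Am (3 / 2) b) τ ≤
      ∫ τ in Ioi (0:ℝ), 2 * Lpp τ * DD (Am (3 / 2) b) τ := by
    rw [← integral_neg]
    refine setIntegral_mono_on j1.neg j2 measurableSet_Ioi fun τ hτ => ?_
    have h3 := (abs_le.1 (abs_ps_le (ne_of_gt hτ))).1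
    have h4 := DD_nonneg (Am (3 / 2) b) τ
    nlinarith
  linarith

theorem form_r1 {b : ℝ → ℝ} (hb : Bd b) : FInt b b r1k ∧ form b b l1k ≤ form b b r1k := by
  have hA : Adm (Am (1 / 2) b) (Amd (1 / 2) b) := adm_Am hb (by norm_num)
  obtain ⟨f1, f2⟩ := PP_form kerR_q1 (by norm_num) r1k_exp hb
  refine ⟨f1, ?_⟩
  have hl : form b b l1k = -2 * ∫ τ in Ioi (0:ℝ), Lpp τ * DD (Am (1 / 2) b) τ := by
    have hc := NG_conv (m := 1 / 2) (p := b) (q := b) (K := l1k) (k := fun r s => n1 |r - s|)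
      (fun r s hrs => l1k_exp hrs)
    unfold form
    rw [integral_th, integral_congr_ae hc, n1_kerN.diff_formula hA]
  rw [hl, f2]
  obtain ⟨j1, i1, e1⟩ := PP_even hA integrable_ps1 ps1_neg integral_Ioi_ps1
  obtain ⟨j2, e2⟩ := PP_Lpp2 hA
  obtain ⟨K, hK⟩ := NE_corr_bdd hA hA
  have i0 : Integrable (fun τ => m1 τ * corr (Am (1 / 2) b) (Am (1 / 2) b) τ) :=
    NE_integrable_mul integrable_m1 (NE_corr_continuous hA hA) hK
  have h1 : ∫ τ, ps1 τ * corr (Am (1 / 2) b) (Am (1 / 2) b) τ ≤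
      ∫ τ, m1 τ * corr (Am (1 / 2) b) (Am (1 / 2) b) τ :=
    integral_mono i1 i0 fun τ => mul_le_mul_of_nonneg_right (ps1_le_m1 τ)
      (NE_corr_nonneg (Am_nonneg hb _) (Am_nonneg hb _) τ)
  have h2 : ∫ τ in Ioi (0:ℝ), ps1 τ * DD (Am (1 / 2) b) τ ≤
      ∫ τ in Ioi (0:ℝ), 2 * Lpp τ * DD (Am (1 / 2) b) τ := by
    refine setIntegral_mono_on j1 j2 measurableSet_Ioi fun τ hτ => ?_
    exact mul_le_mul_of_nonneg_right (ps1_le_Lpp (ne_of_gt hτ)) (DD_nonneg _ _)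
  linarith

end Pool.Agent.H90.DC
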