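import Pool.Agent.H90.DC.Defs
import Pool.Agent.H51.DG.SEv

/-!
# DC job 4: evaluation of the kernels

`0 < x, y < π`, `Y = ct x > 0`, `Z = ct y > 0` (`ct_pos`, `ct_lt`).
`ct (x-y) = (1+YZ)/(Z-Y)`, `ct (x+y) = (YZ-1)/(Y+Z)`, `Lg x y = log|Z-Y| - log(Y+Z)`
(`sin((x-y)/2) = sin(x/2) sin(y/2) (Z-Y)`, `sin((x+y)/2) = sin(x/2) sin(y/2) (Y+Z)`; for `x = y`
both sides of the inequality `kb_ge` are not needed: `x ≠ y`), `csk z = ct z (1 + ct z²)`.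
`Ph = Y²/4 - 1/8`, `dPh = -Y(1+Y²)/4`.
* `kb_ge`: IDENTITY (checked numerically)
  `8π (kJb - 9/8 kEb) = -k3 - r3k - l1k + r1k + R0`,
  `R0 = -1/(Y+Z) + (9/2)(Y² + Z² - YZ + 1)/(Y+Z)³ ≥ 0` as `(9/2)(Y²+Z²-YZ) ≥ (9/8)(Y+Z)²`.
  Expand the logarithms: `log(1+Z/Y) = log(Y+Z) - log Y`, `log(1 - Z/Y) = log|Y-Z| - log Y`
  (`Real.log (-t) = Real.log t`), then it is a rational identity:
  `8π kJb = (Y³+Z³+Y+Z) L - 2YZ(Y²+YZ+Z²)/(Y+Z) - 2YZ/(Y+Z) + (YZ-1)/(Y+Z)`, `L = -Lg`, and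
  `8π (9/8) kEb = (9/2)(YZ-1)(1+Y²)(1+Z²)/(Y+Z)³`.
* `kn_ge` (`x < y`, so `Z < Y`): with `c1 = ct (y-x) = (1+YZ)/(Y-Z)`, `c2 = ct (x+y)`:
  `8π kJn = (1+Y²)[(4Y²-2) Z/(Y²-Z²) - 2 Y L]`, `L = log((Y+Z)/(Y-Z)) ≤ 2YZ/(Y²-Z²)`
  (`L = log(1+2Z/(Y-Z))`; `2 artanh r ≤ 2r/(1-r²)` for `r = Z/Y`: the difference vanishes at `0` and has
  derivative `4r²/(1-r²)² ≥ 0`), so `8π kJn ≥ -2Z(1+Y²)/(Y²-Z²)`;
  `-8π (9/8) kEn = (9/2)(c1(1+c1²) + c2(1+c2²)) = (9/2)(c1+c2)(1 + c1² - c1c2 + c2²) ≥ (9/2)(c1+c2)`,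
  `c1 + c2 = 2Z(1+Y²)/(Y²-Z²)`.
-/

set_option autoImplicit false
open Real Set MeasureTheory Filter Topology

namespace Pool.Agent.H90.DC
open Pool.Agent.H45.FL Pool.Agent.H51.DG Pool.Agent.H45.DY

theorem KEv_sin_add {x y : ℝ} (hx : Real.sin (x / 2) ≠ 0) (hy : Real.sin (y / 2) ≠ 0) :
    Real.sin ((x + y) / 2) = Real.sin (x / 2) * Real.sin (y / 2) * (ct x + ct y) := by
  rw [add_div, Real.sin_add]
  unfold ct
  field_simp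
  ring

theorem KEv_ct_add {x y : ℝ} (hx : Real.sin (x / 2) ≠ 0) (hy : Real.sin (y / 2) ≠ 0) :
    ct (x + y) = (ct x * ct y - 1) / (ct x + ct y) := by
  have h1 : Real.cos ((x + y) / 2) =
      Real.sin (x / 2) * Real.sin (y / 2) * (ct x * ct y - 1) := by
    rw [add_div, Real.cos_add]
    unfold ct
    field_simp
  have h2 : ct (x + y) = Real.cos ((x + y) / 2) / Real.sin ((x + y) / 2) := rfl
  rw [h2, h1, KEv_sin_add hx hy, mul_div_mul_left _ _ (mul_ne_zero hx hy)]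

theorem KEv_csk {z : ℝ} (hz : Real.sin (z / 2) ≠ 0) : csk z = ct z * (1 + ct z ^ 2) := by
  rw [← SEv_sq hz]
  unfold csk ct
  field_simp

theorem KEv_Lg {x y : ℝ} (hx : x ∈ Ioo (0:ℝ) π) (hy : y ∈ Ioo (0:ℝ) π) (hxy : x ≠ y) :
    Lg x y = Real.log (ct y - ct x) - Real.log (ct x + ct y) := by
  have hsx := SEv_sin hx.1 (by linarith [hx.2, Real.pi_pos])
  have hsy := SEv_sin hy.1 (by linarith [hy.2, Real.pi_pos])
  have hcx := ct_pos hx.1 hx.2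
  have hcy := ct_pos hy.1 hy.2
  have hne := SEv_ct_ne hx.1 hy.1 (by linarith [hx.2, Real.pi_pos])
    (by linarith [hy.2, Real.pi_pos]) hxy
  have h1 : ct y - ct x ≠ 0 := fun h => hne (by linarith)
  unfold Lg
  rw [SEv_sin_sub hsx.ne' hsy.ne', KEv_sin_add hsx.ne' hsy.ne',
    Real.log_mul (mul_ne_zero hsx.ne' hsy.ne') h1,
    Real.log_mul (mul_ne_zero hsx.ne' hsy.ne') (by positivity)]
  ring

theorem KEv_log {t : ℝ} (ht : 1 ≤ t) : Real.log t ≤ (t - t⁻¹) / 2 := by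
  have h0 : 0 < t := by linarith
  have h := Real.self_le_sinh_iff.2 (Real.log_nonneg ht)
  rwa [Real.sinh_log h0] at h

/-- the rational identity behind `kb_ge` -/
theorem KEv_id1 {Y Z : ℝ} (hY : 0 < Y) (hZ : 0 < Z) (hne : Y ≠ Z) (A B LY LZ : ℝ) :
    4 * (((Y ^ 2 / 4 - 1 / 8) - (Z ^ 2 / 4 - 1 / 8)) * ((1 + Y * Z) / (Z - Y))
      - ((Y ^ 2 / 4 - 1 / 8) + (Z ^ 2 / 4 - 1 / 8)) * ((Y * Z - 1) / (Y + Z))
      + (-(Y * (1 + Y ^ 2) / 4) + -(Z * (1 + Z ^ 2) / 4)) * (A - B))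
      - 9 / 2 * (((Y * Z - 1) / (Y + Z)) * (1 + ((Y * Z - 1) / (Y + Z)) ^ 2)) =
    -(Y * Z * (Y + Z) + Y ^ 3 * (A - LY) + Z ^ 3 * (A - LZ))
      - ((Y ^ 2 + Z ^ 2) * (Y * Z) / (Y + Z) - Y ^ 3 * (B - LY)
          - Z ^ 3 * (B - LZ) + 4 * (Y ^ 3 * Z ^ 3) / (Y + Z) ^ 3
          + 1 / 2 * (Y ^ 3 * Z ^ 3) / (Y + Z) ^ 3)
      - (Y * (A - LY) + Z * (A - LZ))
      + (Y * (B - LY) + Z * (B - LZ) - Y * Z / (Y + Z)
          - 9 / 2 * (Y * Z * (Y ^ 2 + Z ^ 2 - Y * Z)) / (Y + Z) ^ 3)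
      + (-1 / (Y + Z) + 9 / 2 * (Y ^ 2 + Z ^ 2 - Y * Z + 1) / (Y + Z) ^ 3) := by
  have h1 : Y + Z ≠ 0 := by positivity
  have h2 : Z - Y ≠ 0 := fun h => hne (by linarith)
  have h3 : ((Y ^ 2 / 4 - 1 / 8) - (Z ^ 2 / 4 - 1 / 8)) * ((1 + Y * Z) / (Z - Y)) =
      -((Y + Z) * (1 + Y * Z) / 4) := by
    field_simp
    ring
  rw [h3]
  field_simp
  ring

theorem KEv_R0 {Y Z : ℝ} (hY : 0 < Y) (hZ : 0 < Z) :
    0 ≤ -1 / (Y + Z) + 9 / 2 * (Y ^ 2 + Z ^ 2 - Y * Z + 1) / (Y + Z) ^ 3 := by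
  have h1 : 0 < Y + Z := by positivity
  have h2 : -1 / (Y + Z) + 9 / 2 * (Y ^ 2 + Z ^ 2 - Y * Z + 1) / (Y + Z) ^ 3 =
      (9 / 2 * (Y ^ 2 + Z ^ 2 - Y * Z + 1) - (Y + Z) ^ 2) / (Y + Z) ^ 3 := by
    field_simp
    ring
  rw [h2]
  apply div_nonneg _ (by positivity)
  nlinarith [sq_nonneg (Y - Z), sq_nonneg (Y + Z)]

theorem kb_ge {x y : ℝ} (hx : x ∈ Ioo (0:ℝ) π) (hy : y ∈ Ioo (0:ℝ) π) (hxy : x ≠ y) :
    -k3 (ct x) (ct y) - r3k (ct x) (ct y) - l1k (ct x) (ct y) + r1k (ct x) (ct y) ≤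
      8 * π * (kJb x y - 9 / 8 * kEb x y) := by
  have hpi := Real.pi_pos
  have hsx := SEv_sin hx.1 (by linarith [hx.2])
  have hsy := SEv_sin hy.1 (by linarith [hy.2])
  have hY := ct_pos hx.1 hx.2
  have hZ := ct_pos hy.1 hy.2
  have hne := SEv_ct_ne hx.1 hy.1 (by linarith [hx.2]) (by linarith [hy.2]) hxy
  have hs : Real.sin ((x + y) / 2) ≠ 0 := by
    rw [KEv_sin_add hsx.ne' hsy.ne']
    positivity
  have e1 : 8 * π * (kJb x y - 9 / 8 * kEb x y) =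
      4 * ((Ph x - Ph y) * ct (x - y) - (Ph x + Ph y) * ct (x + y)
        + (dPh x + dPh y) * Lg x y) - 9 / 2 * csk (x + y) := by
    unfold kJb kEb
    field_simp
    ring
  have l1 : Real.log (1 - ct y / ct x) = Real.log (ct y - ct x) - Real.log (ct x) := by
    rw [SEv_logsub hY hne]
    ring
  have l2 : Real.log (1 - ct x / ct y) = Real.log (ct y - ct x) - Real.log (ct y) := by
    have h := SEv_logsub hZ (Ne.symm hne)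
    have h' : Real.log (ct x - ct y) = Real.log (ct y - ct x) := by
      rw [show ct x - ct y = -(ct y - ct x) by ring, Real.log_neg_eq_log]
    rw [h'] at h
    rw [h]
    ring
  have l3 : Real.log (1 + ct y / ct x) = Real.log (ct x + ct y) - Real.log (ct x) := by
    have h := SEv_logadd hY hZ
    rw [add_comm (ct y)] at h
    rw [h]
    ring
  have l4 : Real.log (1 + ct x / ct y) = Real.log (ct x + ct y) - Real.log (ct y) := by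
    have h := SEv_logadd hZ hY
    rw [h]
    ring
  rw [e1, KEv_csk hs, KEv_Lg hx hy hxy, SEv_ct_sub hsx.ne' hsy.ne', KEv_ct_add hsx.ne' hsy.ne']
  have h := KEv_id1 hY hZ hne (Real.log (ct y - ct x)) (Real.log (ct x + ct y))
    (Real.log (ct x)) (Real.log (ct y))
  have hR := KEv_R0 hY hZ
  unfold Ph dPh k3 r3k rl0 l1k r1k
  rw [l1, l2, l3, l4]
  rw [h]
  linarith

/-- the rational part of `kn_ge` -/
theorem KEv_cc {Y Z : ℝ} (hZ : 0 < Z) (hZY : Z < Y) :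
    (Y * Z - 1) / (Y + Z) + (1 + Y * Z) / (Y - Z) = 2 * Z * (1 + Y ^ 2) / (Y ^ 2 - Z ^ 2) := by
  have h1 : Y + Z ≠ 0 := by linarith
  have h2 : Y - Z ≠ 0 := by linarith
  have h3 : Y ^ 2 - Z ^ 2 = (Y + Z) * (Y - Z) := by ring
  rw [h3]
  field_simp
  ring

theorem KEv_L {Y Z : ℝ} (hZ : 0 < Z) (hZY : Z < Y) :
    Real.log (Y + Z) - Real.log (Y - Z) ≤ 2 * Y * Z / (Y ^ 2 - Z ^ 2) := by
  have h1 : 0 < Y + Z := by linarith
  have h2 : 0 < Y - Z := by linarith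
  have h3 : Y ^ 2 - Z ^ 2 = (Y + Z) * (Y - Z) := by ring
  rw [← Real.log_div h1.ne' h2.ne']
  have h4 : 1 ≤ (Y + Z) / (Y - Z) := by
    rw [le_div_iff₀ h2]
    linarith
  refine (KEv_log h4).trans (le_of_eq ?_)
  rw [h3, inv_div]
  field_simp
  ring

theorem KEv_neg {Y Z L : ℝ} (hZ : 0 < Z) (hZY : Z < Y) (hL : L ≤ 2 * Y * Z / (Y ^ 2 - Z ^ 2)) :
    0 ≤ 8 * ((Y ^ 2 / 4 - 1 / 8) * (2 * Z * (1 + Y ^ 2) / (Y ^ 2 - Z ^ 2))
        + (Y * (1 + Y ^ 2) / 4) * (-L))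
      + 9 / 2 * (((Y * Z - 1) / (Y + Z)) * (1 + ((Y * Z - 1) / (Y + Z)) ^ 2)
        + ((1 + Y * Z) / (Y - Z)) * (1 + ((1 + Y * Z) / (Y - Z)) ^ 2)) := by
  have hY : 0 < Y := by linarith
  have h2 : 0 < Y - Z := by linarith
  have h1 : 0 < Y + Z := by linarith
  have hD : 0 < Y ^ 2 - Z ^ 2 := by nlinarith
  have hcc := KEv_cc hZ hZY
  generalize (Y * Z - 1) / (Y + Z) = c2 at *
  generalize (1 + Y * Z) / (Y - Z) = c1 at *
  have hS : 0 ≤ 2 * Z * (1 + Y ^ 2) / (Y ^ 2 - Z ^ 2) := by positivity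
  have e1 : c2 * (1 + c2 ^ 2) + c1 * (1 + c1 ^ 2) =
      (c2 + c1) * (1 + (c2 ^ 2 - c2 * c1 + c1 ^ 2)) := by ring
  have e2 : (Y ^ 2 / 4 - 1 / 8) * (2 * Z * (1 + Y ^ 2) / (Y ^ 2 - Z ^ 2)) * 8 =
      -(2 * Z * (1 + Y ^ 2) / (Y ^ 2 - Z ^ 2))
        + 2 * Y * (1 + Y ^ 2) * (2 * Y * Z / (Y ^ 2 - Z ^ 2)) := by
    field_simp
    ring
  have h3 : 2 * Y * (1 + Y ^ 2) * L ≤ 2 * Y * (1 + Y ^ 2) * (2 * Y * Z / (Y ^ 2 - Z ^ 2)) :=
    mul_le_mul_of_nonneg_left hL (by positivity)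
  have h4 : 0 ≤ c2 ^ 2 - c2 * c1 + c1 ^ 2 := by
    nlinarith [sq_nonneg (c2 - c1), sq_nonneg c2, sq_nonneg c1]
  rw [e1, hcc]
  generalize 2 * Z * (1 + Y ^ 2) / (Y ^ 2 - Z ^ 2) = S at *
  have h5 := mul_nonneg hS h4
  nlinarith

theorem kn_ge {x y : ℝ} (hx : 0 < x) (hxy : x < y) (hy : y < π) :
    0 ≤ kJn x y - 9 / 8 * kEn x y := by
  have hpi := Real.pi_pos
  have hsx := SEv_sin hx (by linarith)
  have hsy := SEv_sin (x := y) (by linarith) (by linarith)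
  have hY := ct_pos hx (by linarith)
  have hZ := ct_pos (x := y) (by linarith) hy
  have hZY := ct_lt hx hxy (by linarith)
  have hs : Real.sin ((x + y) / 2) ≠ 0 := by
    rw [KEv_sin_add hsx.ne' hsy.ne']
    positivity
  have hs' : Real.sin ((y - x) / 2) ≠ 0 := (SEv_sin (by linarith) (by linarith)).ne'
  have e1 : 8 * π * (kJn x y - 9 / 8 * kEn x y) =
      8 * (Ph x * (ct (x + y) - ct (x - y)) - dPh x * Lg x y)
        + 9 / 2 * (csk (x + y) + csk (y - x)) := by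
    unfold kJn kEn
    field_simp
    ring
  have hct : ct (x - y) = -ct (y - x) := by
    rw [← SEv_ct_neg, neg_sub]
  have hL : Lg x y = -(Real.log (ct x + ct y) - Real.log (ct x - ct y)) := by
    rw [KEv_Lg ⟨hx, by linarith⟩ ⟨by linarith, hy⟩ hxy.ne,
      show ct y - ct x = -(ct x - ct y) by ring, Real.log_neg_eq_log]
    ring
  have h := KEv_neg hZ hZY (KEv_L hZ hZY)
  have hc : ct (y - x) = (1 + ct x * ct y) / (ct x - ct y) := by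
    rw [SEv_ct_sub hsy.ne' hsx.ne', mul_comm (ct y)]
  have hcc := KEv_cc hZ hZY
  have h0 : 0 ≤ 8 * π * (kJn x y - 9 / 8 * kEn x y) := by
    rw [e1, KEv_csk hs, KEv_csk hs', hct, hL, sub_neg_eq_add, hc, KEv_ct_add hsx.ne' hsy.ne', hcc]
    unfold Ph dPh
    refine h.trans (le_of_eq ?_)
    ring
  have h8 : 0 < 8 * π := by positivity
  exact nonneg_of_mul_nonneg_right h0 h8

end Pool.Agent.H90.DC
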