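import Pool.Agent.H90.DC.EKer
import Pool.Agent.H51.DG.SP
import Pool.Agent.H51.DG.SN
import Pool.Agent.H51.DG.SO

/-!
# DC job 7: cut-off near `0` and passage to the limit (uses the stub `EFk_int`)

Adapt `SN.lean`, `SO.lean`, `SP.lean` of `Pool/Agent/H51/DG` (read them first): `Wn W n x = cut n x * W x`,
`cut n x = max 0 (min 1 (n |2 sin(x/2)| - 1))` is even, `2π`-periodic, in `[0,1]`, zero for `|x| ≤ 1/n`.
* `Wn_odd`, `WnC_lip` (the proof of `Wn_lip` only uses that `W` vanishes on `2πℤ`), `WnC_van`, `WnC_tendsto`.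
* `JF_bound`: for Lipschitz `W` with `W 0 = 0` and `0 < x ≤ π`:
  `|W x (2 HT W x Ph x + UU W x dPh x)| ≤ C K² (1 + |log x|)`; `Ph = ph - 3/8`, `dPh = dph` on `(0,π]`
  (`ph x = (1+ct x²)/4`), `|2 HT ph + UU dph| = ph |2 HT W x - UU W x ct x| ≤ C K (1+|log x|)/x` for `x ≤ 1`
  (`UU_near`, see `SO.lean`), bounded for `x ≥ 1`; `|HT| ≤ 2K` (`abs_HT_le`), `|W x| ≤ K x`.
* `JF_tendsto`: dominated convergence on `(0,l)`, `HT_tendsto`, `UU_tendsto`, `WnC_tendsto`, the bound
  `JF_bound` with the common Lipschitz constant `(1+π) K`.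
* `EFk_tendsto`: dominated convergence with the integrands of `W` (`EFk_int`):
  `bF (Wn W n) = cut n * bF W`, `bR (Wn W n) = cut n * bR W` (`cut ≥ 0`).
-/

set_option autoImplicit false
open Real Set MeasureTheory Filter Topology

namespace Pool.Agent.H90.DC
open Pool.Agent.H45.FL Pool.Agent.H51.DG Pool.Agent.H45.DY

theorem Lim_cut_per (n : ℕ) (x : ℝ) : cut n (x + 2 * π) = cut n x := by
  unfold cut
  have : Real.sin ((x + 2 * π) / 2) = -Real.sin (x / 2) := by
    rw [show (x + 2 * π) / 2 = x / 2 + π by ring, Real.sin_add_pi]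
  rw [this, mul_neg, abs_neg]

theorem Lim_cut_even (n : ℕ) (x : ℝ) : cut n (-x) = cut n x := by
  unfold cut
  rw [neg_div, Real.sin_neg, mul_neg, abs_neg]

theorem Lim_W0 {W : ℝ → ℝ} {l : ℝ} (h : OddC W l) : W 0 = 0 := by
  have h1 := h.odd 0
  rw [neg_zero] at h1
  linarith

theorem Lim_Wn_odd {W : ℝ → ℝ} {l : ℝ} (h : OddC W l) (n : ℕ) : OddC (Wn W n) l := by
  refine ⟨?_, ?_, h.l0, h.l1, ?_, ?_⟩
  · intro x
    unfold Wn
    rw [Lim_cut_per, h.per x]
  · intro x
    unfold Wn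
    rw [Lim_cut_even, h.odd x]
    ring
  · intro x hx
    exact mul_nonneg (cut_mem n x).1 (h.pos x hx)
  · intro x hx
    exact mul_nonpos_of_nonneg_of_nonpos (cut_mem n x).1 (h.neg x hx)

theorem Lim_shift {W : ℝ → ℝ} {l : ℝ} (h : OddC W l) (k : ℤ) (x : ℝ) :
    W (x - k * (2 * π)) = W x :=
  (h.per.int_mul k).sub_eq x

theorem Lim_bound {W : ℝ → ℝ} {l K : ℝ} (h : OddC W l) (hK : Lip K W) (hK0 : 0 ≤ K)
    (x : ℝ) : |W x| ≤ K * (π / 2) * |2 * Real.sin (x / 2)| := by
  have hpi := Real.pi_pos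
  set k : ℤ := round (x / (2 * π)) with hk
  have h1 : |x - k * (2 * π)| ≤ π := by
    have h2 := abs_sub_round (x / (2 * π))
    have h3 : x - k * (2 * π) = (x / (2 * π) - k) * (2 * π) := by
      field_simp
    rw [h3, abs_mul, abs_of_pos (by positivity : (0:ℝ) < 2 * π)]
    calc |x / (2 * π) - k| * (2 * π) ≤ 1 / 2 * (2 * π) :=
          mul_le_mul_of_nonneg_right h2 (by positivity)
      _ = π := by ring
  set y := x - k * (2 * π) with hy
  have h2 : |W x| ≤ K * |y| := by
    have h3 := hK y 0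
    rw [Lim_W0 h, sub_zero, sub_zero, Lim_shift h] at h3
    exact h3
  have h3 : |2 * Real.sin (x / 2)| = 2 * Real.sin (|y| / 2) := by
    have h4 : Real.sin (y / 2) = (-1) ^ k * Real.sin (x / 2) := by
      rw [hy, show (x - k * (2 * π)) / 2 = x / 2 - k * π by ring, Real.sin_sub_int_mul_pi]
    have h5 : |Real.sin (y / 2)| = |Real.sin (x / 2)| := by
      rw [h4, abs_mul, abs_zpow, abs_neg, abs_one, one_zpow, one_mul]
    have h6 : Real.sin (|y| / 2) = |Real.sin (y / 2)| := by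
      rcases le_total 0 y with hy0 | hy0
      · rw [abs_of_nonneg hy0, abs_of_nonneg]
        apply Real.sin_nonneg_of_nonneg_of_le_pi (by linarith)
        rw [abs_of_nonneg hy0] at h1
        linarith
      · rw [abs_of_nonpos hy0, neg_div, Real.sin_neg, abs_of_nonpos]
        apply Real.sin_nonpos_of_nonpos_of_neg_pi_le (by linarith)
        rw [abs_of_nonpos hy0] at h1
        linarith
    rw [h6, h5, abs_mul, abs_of_pos (by norm_num : (0:ℝ) < 2)]
  have h4 := Real.mul_le_sin (x := |y| / 2) (by positivity) (by linarith)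
  have h5 : |y| ≤ π / 2 * (2 * Real.sin (|y| / 2)) := by
    have h6 : π * (2 / π * (|y| / 2)) ≤ π * Real.sin (|y| / 2) :=
      mul_le_mul_of_nonneg_left h4 hpi.le
    have h7 : π * (2 / π * (|y| / 2)) = |y| := by field_simp
    linarith
  rw [h3]
  calc |W x| ≤ K * |y| := h2
    _ ≤ K * (π / 2 * (2 * Real.sin (|y| / 2))) := mul_le_mul_of_nonneg_left h5 hK0
    _ = K * (π / 2) * (2 * Real.sin (|y| / 2)) := by ring

theorem Lim_sin_lip (x y : ℝ) :
    |(|2 * Real.sin (x / 2)| - |2 * Real.sin (y / 2)|)| ≤ |x - y| := by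
  have h1 := abs_abs_sub_abs_le_abs_sub (2 * Real.sin (x / 2)) (2 * Real.sin (y / 2))
  have h2 : |Real.sin (x / 2) - Real.sin (y / 2)| ≤ |x / 2 - y / 2| := by
    have := Real.lipschitzWith_sin.dist_le_mul (x / 2) (y / 2)
    rw [Real.dist_eq, Real.dist_eq] at this
    simpa using this
  have h3 : |2 * Real.sin (x / 2) - 2 * Real.sin (y / 2)| =
      2 * |Real.sin (x / 2) - Real.sin (y / 2)| := by
    rw [← mul_sub, abs_mul, abs_of_pos (by norm_num : (0:ℝ) < 2)]
  have h4 : |x / 2 - y / 2| = |x - y| / 2 := by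
    rw [← sub_div, abs_div, abs_of_pos (by norm_num : (0:ℝ) < 2)]
  linarith

theorem Lim_cut_lip (n : ℕ) (x y : ℝ) : |cut n x - cut n y| ≤ n * |x - y| := by
  unfold cut
  have h1 := abs_max_sub_max_le_max 0 (min 1 (n * |2 * Real.sin (x / 2)| - 1)) 0
    (min 1 (n * |2 * Real.sin (y / 2)| - 1))
  have h2 := abs_min_sub_min_le_max 1 (n * |2 * Real.sin (x / 2)| - 1) 1
    (n * |2 * Real.sin (y / 2)| - 1)
  rw [sub_self, abs_zero] at h1 h2
  refine h1.trans (max_le (by positivity) (h2.trans (max_le (by positivity) ?_)))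
  have h3 : (n : ℝ) * |2 * Real.sin (x / 2)| - 1 - (n * |2 * Real.sin (y / 2)| - 1) =
      n * (|2 * Real.sin (x / 2)| - |2 * Real.sin (y / 2)|) := by ring
  rw [h3, abs_mul, abs_of_nonneg (Nat.cast_nonneg n)]
  exact mul_le_mul_of_nonneg_left (Lim_sin_lip x y) (Nat.cast_nonneg n)

theorem Lim_cut_one {n : ℕ} {x : ℝ} (h : 2 ≤ n * |2 * Real.sin (x / 2)|) :
    cut n x = 1 := by
  unfold cut
  rw [min_eq_left (by linarith), max_eq_right zero_le_one]

theorem Lim_main {W : ℝ → ℝ} {l K : ℝ} (h : OddC W l) (hK : Lip K W) (hK0 : 0 ≤ K) (n : ℕ)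
    {x y : ℝ} (hxy : |2 * Real.sin (x / 2)| ≤ |2 * Real.sin (y / 2)|) :
    |Wn W n x - Wn W n y| ≤ (1 + π) * K * |x - y| := by
  have hpi := Real.pi_pos
  have h1 : Wn W n x - Wn W n y = (cut n x - cut n y) * W x + cut n y * (W x - W y) := by
    unfold Wn; ring
  have h2 : |cut n y * (W x - W y)| ≤ K * |x - y| := by
    rw [abs_mul, abs_of_nonneg (cut_mem n y).1]
    calc cut n y * |W x - W y| ≤ 1 * |W x - W y| :=
          mul_le_mul_of_nonneg_right (cut_mem n y).2 (abs_nonneg _)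
      _ ≤ K * |x - y| := by rw [one_mul]; exact hK x y
  have h3 : |(cut n x - cut n y) * W x| ≤ π * K * |x - y| := by
    by_cases hc : 2 ≤ n * |2 * Real.sin (x / 2)|
    · have hc' : 2 ≤ n * |2 * Real.sin (y / 2)| :=
        hc.trans (mul_le_mul_of_nonneg_left hxy (Nat.cast_nonneg n))
      rw [Lim_cut_one hc, Lim_cut_one hc', sub_self, zero_mul, abs_zero]
      positivity
    · push Not at hc
      rw [abs_mul]
      have h4 := Lim_bound h hK hK0 x
      calc |cut n x - cut n y| * |W x| ≤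
            (n * |x - y|) * (K * (π / 2) * |2 * Real.sin (x / 2)|) :=
            mul_le_mul (Lim_cut_lip n x y) h4 (abs_nonneg _) (by positivity)
        _ = (K * (π / 2) * |x - y|) * (n * |2 * Real.sin (x / 2)|) := by ring
        _ ≤ (K * (π / 2) * |x - y|) * 2 := mul_le_mul_of_nonneg_left hc.le (by positivity)
        _ = π * K * |x - y| := by ring
  rw [h1]
  calc |(cut n x - cut n y) * W x + cut n y * (W x - W y)| ≤ π * K * |x - y| + K * |x - y| :=
        (abs_add_le _ _).trans (add_le_add h3 h2)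
    _ = (1 + π) * K * |x - y| := by ring

theorem WnC_lip {W : ℝ → ℝ} {l K : ℝ} (h : OddC W l) (hK : Lip K W) (n : ℕ) :
    Lip ((1 + π) * K) (Wn W n) := by
  have hK0 : 0 ≤ K := hK.nonneg
  intro x y
  rcases le_total |2 * Real.sin (x / 2)| |2 * Real.sin (y / 2)| with hxy | hxy
  · exact Lim_main h hK hK0 n hxy
  · rw [abs_sub_comm, abs_sub_comm x y]
    exact Lim_main h hK hK0 n hxy

theorem WnC_van {W : ℝ → ℝ} {l K : ℝ} (h : OddC W l) (hK : Lip K W) {n : ℕ} (hn : 1 ≤ n) :
    VanC (Wn W n) l := by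
  have hn' : (0:ℝ) < n := by exact_mod_cast hn
  refine { toOddC := Lim_Wn_odd h n, lip := ⟨_, WnC_lip h hK n⟩, van := ⟨1 / n, by positivity, ?_⟩ }
  intro x hx
  have h1 := Lim_sin_lip x 0
  rw [zero_div, Real.sin_zero, mul_zero, abs_zero, sub_zero, sub_zero, abs_abs] at h1
  have h2 : (n:ℝ) * |2 * Real.sin (x / 2)| ≤ 1 := by
    calc (n:ℝ) * |2 * Real.sin (x / 2)| ≤ n * (1 / n) :=
          mul_le_mul_of_nonneg_left (h1.trans hx) hn'.le
      _ = 1 := by field_simp
  have h3 : cut n x = 0 := by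
    unfold cut
    rw [max_eq_left]
    exact (min_le_right _ _).trans (by linarith)
  unfold Wn
  rw [h3, zero_mul]

theorem WnC_tendsto {W : ℝ → ℝ} {l : ℝ} (h : OddC W l) (x : ℝ) :
    Tendsto (fun n : ℕ => Wn W n x) atTop (𝓝 (W x)) := by
  by_cases hs : Real.sin (x / 2) = 0
  · obtain ⟨k, hk⟩ := Real.sin_eq_zero_iff.1 hs
    have h1 : W x = 0 := by
      rw [← Lim_shift h k x, show x - k * (2 * π) = 0 by linarith, Lim_W0 h]
    have h2 : (fun n : ℕ => Wn W n x) = fun _ => W x := by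
      funext n
      unfold Wn
      rw [h1, mul_zero]
    rw [h2]
    exact tendsto_const_nhds
  · have hp : 0 < |2 * Real.sin (x / 2)| := abs_pos.2 (mul_ne_zero two_ne_zero hs)
    refine tendsto_const_nhds.congr' ?_
    filter_upwards [eventually_ge_atTop ⌈2 / |2 * Real.sin (x / 2)|⌉₊] with n hn
    have h1 : 2 / |2 * Real.sin (x / 2)| ≤ n := (Nat.le_ceil _).trans (by exact_mod_cast hn)
    unfold Wn
    rw [Lim_cut_one ((div_le_iff₀ hp).1 h1), one_mul]

theorem Lim_UU {K : ℝ} {W : ℝ → ℝ} (h : Lip K W) {x : ℝ} (h0 : 0 ≤ x) :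
    |UU W x| ≤ 2 * K * x := by
  unfold UU
  have := intervalIntegral.norm_integral_le_of_norm_le_const (a := (0:ℝ)) (b := x) (C := 2 * K)
    (f := fun y => HT W y) ?_
  · rwa [Real.norm_eq_abs, sub_zero, abs_of_nonneg h0] at this
  · intro y _
    rw [Real.norm_eq_abs]
    exact abs_HT_le h y

theorem Lim_cot {x : ℝ} (h0 : 0 < x) (h1 : x ≤ 1) :
    |2 / x - Real.cos (x / 2) / Real.sin (x / 2)| ≤ x := by
  have hpi := Real.pi_gt_three
  have hs : 0 < Real.sin (x / 2) :=
    Real.sin_pos_of_pos_of_lt_pi (by linarith) (by linarith)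
  have hs1 : Real.sin (x / 2) ≤ x / 2 := Real.sin_le (by linarith)
  have hc1 : 1 - (x / 2) ^ 2 / 2 ≤ Real.cos (x / 2) := Real.one_sub_sq_div_two_le_cos
  obtain ⟨hc0, hc2⟩ := cot_le h0 (by linarith)
  rw [abs_of_nonneg (by linarith)]
  have h3 : 2 / x - x ≤ Real.cos (x / 2) / Real.sin (x / 2) := by
    rw [le_div_iff₀ hs]
    have h4 : 2 / x - x = (2 - x ^ 2) / x := by field_simp
    rw [h4, div_mul_eq_mul_div, div_le_iff₀ h0]
    have h5 : 0 ≤ 2 - x ^ 2 := by nlinarith
    have h6 : (2 - x ^ 2) * Real.sin (x / 2) ≤ (2 - x ^ 2) * (x / 2) :=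
      mul_le_mul_of_nonneg_left hs1 h5
    have h7 : (1 - (x / 2) ^ 2 / 2) * x ≤ Real.cos (x / 2) * x :=
      mul_le_mul_of_nonneg_right hc1 h0.le
    have h8 : (2 - x ^ 2) * (x / 2) ≤ (1 - (x / 2) ^ 2 / 2) * x := by
      nlinarith [pow_pos h0 3]
    linarith
  linarith

theorem Lim_sin {x : ℝ} (h0 : 0 < x) (h1 : x ≤ π) : x / π ≤ Real.sin (x / 2) := by
  have := Real.mul_le_sin (x := x / 2) (by linarith) (by linarith)
  calc x / π = 2 / π * (x / 2) := by ring
    _ ≤ _ := this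

theorem Lim_core {K : ℝ} {W : ℝ → ℝ} (h : Lip K W) (hW : W 0 = 0) {x : ℝ} (h0 : 0 < x)
    (hxp : x ≤ π) :
    |W x| * |2 * HT W x * (1 / (4 * Real.sin (x / 2) ^ 2)) +
      UU W x * (-(Real.cos (x / 2) / (4 * Real.sin (x / 2) ^ 3)))| ≤
      200 * K ^ 2 * (1 + |Real.log x|) := by
  have hK := h.nonneg
  have hpi3 := Real.pi_gt_three
  have hpi4 := Real.pi_lt_d2
  have hlog : 0 ≤ |Real.log x| := abs_nonneg _
  have hWx : |W x| ≤ K * x := by
    have := h x 0
    rwa [hW, sub_zero, sub_zero, abs_of_pos h0] at this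
  have hHT := abs_HT_le h x
  have hUU := Lim_UU h h0.le
  have hsx := Lim_sin h0 hxp
  have hxpi : 0 < x / π := div_pos h0 Real.pi_pos
  have hs : 0 < Real.sin (x / 2) := lt_of_lt_of_le hxpi hsx
  set s := Real.sin (x / 2) with hsdef
  set c := Real.cos (x / 2) with hcdef
  have hph1 : 1 / (4 * s ^ 2) ≤ π ^ 2 / (4 * x ^ 2) := by
    rw [div_le_div_iff₀ (by positivity) (by positivity)]
    have : x ≤ s * π := by rwa [div_le_iff₀ Real.pi_pos] at hsx
    have h2 : x ^ 2 ≤ (s * π) ^ 2 := by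
      apply pow_le_pow_left₀ h0.le this
    nlinarith
  have hT : 2 * HT W x * (1 / (4 * s ^ 2)) + UU W x * (-(c / (4 * s ^ 3))) =
      1 / (4 * s ^ 2) * (2 * HT W x - UU W x * (c / s)) := by
    field_simp
    ring
  rw [hT, abs_mul, abs_of_pos (by positivity : (0:ℝ) < 1 / (4 * s ^ 2))]
  by_cases hx1 : x ≤ 1
  · have hn := UU_near h (x := x) (by rwa [abs_of_pos h0]) (by rwa [abs_of_pos h0])
    rw [abs_of_pos h0] at hn
    have hcot := Lim_cot h0 hx1
    have e1 : 2 * HT W x - UU W x * (c / s) =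
        -(2 / x * (UU W x - x * HT W x)) + UU W x * (2 / x - c / s) := by
      field_simp
      ring
    have b1 : |2 * HT W x - UU W x * (c / s)| ≤ 18 * K * x * (1 + |Real.log x|) := by
      rw [e1]
      refine (abs_add_le _ _).trans ?_
      rw [abs_neg, abs_mul, abs_mul, abs_of_pos (by positivity : (0:ℝ) < 2 / x)]
      have c1 : 2 / x * |UU W x - x * HT W x| ≤ 16 * K * x * (1 + |Real.log x|) := by
        calc 2 / x * |UU W x - x * HT W x| ≤ 2 / x * (8 * K * x ^ 2 * (1 + |Real.log x|)) :=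
              mul_le_mul_of_nonneg_left hn (by positivity)
          _ = _ := by field_simp; ring
      have c2 : |UU W x| * |2 / x - c / s| ≤ (2 * K * x) * x :=
        mul_le_mul hUU hcot (abs_nonneg _) (by positivity)
      have c3 : (2 * K * x) * x ≤ 2 * K * x * (1 + |Real.log x|) := by
        apply mul_le_mul_of_nonneg_left _ (by positivity)
        linarith
      linarith
    have hpi2 : π ^ 2 ≤ 10 := by nlinarith
    calc |W x| * (1 / (4 * s ^ 2) * |2 * HT W x - UU W x * (c / s)|)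
        ≤ (K * x) * (π ^ 2 / (4 * x ^ 2) * (18 * K * x * (1 + |Real.log x|))) := by
          apply mul_le_mul hWx _ (by positivity) (by positivity)
          apply mul_le_mul hph1 b1 (by positivity) (by positivity)
      _ = π ^ 2 * (18 / 4 * K ^ 2 * (1 + |Real.log x|)) := by
          field_simp
      _ ≤ 10 * (18 / 4 * K ^ 2 * (1 + |Real.log x|)) := by
          apply mul_le_mul_of_nonneg_right hpi2 (by positivity)
      _ ≤ _ := by
          have : 0 ≤ K ^ 2 * (1 + |Real.log x|) := by positivity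
          linarith
  · push Not at hx1
    have hps : 1 / π ≤ s := by
      refine le_trans ?_ hsx
      apply div_le_div_of_nonneg_right hx1.le Real.pi_pos.le
    have hinv : 1 / s ≤ π := by
      rw [div_le_iff₀ hs]
      rw [div_le_iff₀ Real.pi_pos] at hps
      linarith
    have hc : |c| ≤ 1 := Real.abs_cos_le_one _
    have hcs : |c / s| ≤ π := by
      rw [abs_div, abs_of_pos hs]
      calc |c| / s ≤ 1 / s := div_le_div_of_nonneg_right hc hs.le
        _ ≤ π := hinv
    have b1 : |2 * HT W x - UU W x * (c / s)| ≤ 4 * K + 2 * K * π * π := by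
      refine (abs_sub _ _).trans ?_
      rw [abs_mul, abs_mul, abs_of_pos (by norm_num : (0:ℝ) < 2)]
      have c2 : |UU W x| * |c / s| ≤ (2 * K * π) * π := by
        apply mul_le_mul _ hcs (abs_nonneg _) (by positivity)
        refine hUU.trans ?_
        apply mul_le_mul_of_nonneg_left hxp (by positivity)
      linarith
    have b2 : 1 / (4 * s ^ 2) ≤ π ^ 2 / 4 := by
      have : 1 / (4 * s ^ 2) = (1 / s) ^ 2 / 4 := by field_simp
      rw [this]
      have h5 : (1 / s) ^ 2 ≤ π ^ 2 := pow_le_pow_left₀ (by positivity) hinv 2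
      linarith
    have hpi2 : π ^ 2 ≤ 10 := by nlinarith
    have b3 : 4 * K + 2 * K * π * π ≤ 24 * K := by nlinarith
    have b4 : |W x| ≤ K * 3.15 := by
      refine hWx.trans (mul_le_mul_of_nonneg_left (by linarith) hK)
    calc |W x| * (1 / (4 * s ^ 2) * |2 * HT W x - UU W x * (c / s)|)
        ≤ (K * 3.15) * ((10 / 4) * (24 * K)) := by
          apply mul_le_mul b4 _ (by positivity) (by positivity)
          apply mul_le_mul (b2.trans (by linarith)) (b1.trans b3) (by positivity) (by positivity)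
      _ ≤ 200 * K ^ 2 * 1 := by nlinarith [sq_nonneg K]
      _ ≤ _ := by
          apply mul_le_mul_of_nonneg_left _ (by positivity)
          linarith

theorem Lim_ph {x : ℝ} (h0 : 0 < x) (h1 : x ≤ π) :
    Ph x = 1 / (4 * Real.sin (x / 2) ^ 2) - 3 / 8 ∧
      dPh x = -(Real.cos (x / 2) / (4 * Real.sin (x / 2) ^ 3)) := by
  have hs : 0 < Real.sin (x / 2) :=
    Real.sin_pos_of_pos_of_lt_pi (by linarith) (by linarith [Real.pi_pos])
  have e := Real.sin_sq_add_cos_sq (x / 2)
  have e2 : Real.cos (x / 2) ^ 2 = 1 - Real.sin (x / 2) ^ 2 := by linarith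
  unfold Ph dPh ct
  constructor
  · rw [div_pow, e2]
    field_simp
    ring
  · rw [div_pow, e2]
    field_simp
    ring

theorem Lim_JF_bound {K : ℝ} {W : ℝ → ℝ} (h : Lip K W) (hW : W 0 = 0) {x : ℝ} (h0 : 0 < x)
    (hxp : x ≤ π) :
    |W x * (2 * HT W x * Ph x + UU W x * dPh x)| ≤ 210 * K ^ 2 * (1 + |Real.log x|) := by
  have hK := h.nonneg
  have hpi4 := Real.pi_lt_d2
  have hlog : 0 ≤ |Real.log x| := abs_nonneg _
  obtain ⟨e1, e2⟩ := Lim_ph h0 hxp
  have h1 := Lim_core h hW h0 hxp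
  have hWx : |W x| ≤ K * x := by
    have := h x 0
    rwa [hW, sub_zero, sub_zero, abs_of_pos h0] at this
  have hHT := abs_HT_le h x
  have e3 : W x * (2 * HT W x * Ph x + UU W x * dPh x) =
      W x * (2 * HT W x * (1 / (4 * Real.sin (x / 2) ^ 2)) +
        UU W x * (-(Real.cos (x / 2) / (4 * Real.sin (x / 2) ^ 3)))) - 3 / 4 * (W x * HT W x) := by
    rw [e1, e2]
    ring
  rw [e3]
  refine (abs_sub _ _).trans ?_
  rw [abs_mul, abs_mul (3 / 4 : ℝ), abs_mul (W x) (HT W x),
    abs_of_pos (by norm_num : (0:ℝ) < 3 / 4)]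
  have h2 : |W x| * |HT W x| ≤ (K * 3.15) * (2 * K) :=
    mul_le_mul (hWx.trans (mul_le_mul_of_nonneg_left (by linarith) hK)) hHT (abs_nonneg _)
      (by positivity)
  have h3 : 0 ≤ K ^ 2 * |Real.log x| := by positivity
  nlinarith [sq_nonneg K]

theorem Lim_meas {K : ℝ} {W : ℝ → ℝ} (h : Lip K W) :
    Measurable (fun x => W x * (2 * HT W x * Ph x + UU W x * dPh x)) := by
  have hWm : Measurable W := h.continuous.measurable
  have hHm : Measurable (HT W) := (continuous_HT h).measurable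
  have hUm : Measurable (UU W) :=
    (continuous_iff_continuousAt.2 fun x => (hasDerivAt_UU h x).continuousAt).measurable
  have hct : Measurable ct := by
    unfold ct
    exact Measurable.div (by fun_prop : Continuous fun x : ℝ => Real.cos (x / 2)).measurable
      (by fun_prop : Continuous fun x : ℝ => Real.sin (x / 2)).measurable
  have hP : Measurable Ph := by
    unfold Ph
    exact ((hct.pow_const 2).div_const 4).sub_const _
  have hdP : Measurable dPh := by
    unfold dPh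
    exact ((hct.mul (measurable_const.add (hct.pow_const 2))).div_const 4).neg
  exact hWm.mul (((measurable_const.mul hHm).mul hP).add (hUm.mul hdP))

theorem JF_tendsto {W : ℝ → ℝ} {l K : ℝ} (h : OddC W l) (hK : Lip K W) :
    Tendsto (fun n : ℕ => JF (Wn W n) l) atTop (𝓝 (JF W l)) := by
  have hn : ∀ n, Lip ((1 + π) * K) (Wn W n) := fun n => WnC_lip h hK n
  have ht : ∀ x, Tendsto (fun n => Wn W n x) atTop (𝓝 (W x)) := fun x => WnC_tendsto h x
  unfold JF
  refine intervalIntegral.tendsto_integral_filter_of_dominated_convergence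
    (fun x : ℝ => 210 * ((1 + π) * K) ^ 2 * (1 + |Real.log x|)) ?_ ?_ ?_ ?_
  · exact Filter.Eventually.of_forall fun n => (Lim_meas (hn n)).aestronglyMeasurable
  · refine Filter.Eventually.of_forall fun n => Filter.Eventually.of_forall fun x hx => ?_
    rw [Set.uIoc_of_le h.l0.le] at hx
    rw [Real.norm_eq_abs]
    exact Lim_JF_bound (hn n) (Lim_W0 (Lim_Wn_odd h n)) hx.1 (hx.2.trans h.l1.le)
  · apply IntervalIntegrable.const_mul
    have h1 : IntervalIntegrable (fun x : ℝ => Real.log x) volume 0 l :=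
      intervalIntegral.intervalIntegrable_log'
    exact intervalIntegrable_const.add h1.abs
  · refine Filter.Eventually.of_forall fun x _ => ?_
    exact (ht x).mul ((((HT_tendsto hn ht x).const_mul 2).mul_const _).add
      ((UU_tendsto hn ht x).mul_const _))

theorem Lim_bF (W : ℝ → ℝ) (n : ℕ) (x : ℝ) : bF (Wn W n) x = cut n x * bF W x := by
  unfold bF Wn
  rw [mul_max_of_nonneg _ _ (cut_mem n x).1, mul_zero]

theorem Lim_bR (W : ℝ → ℝ) (n : ℕ) (x : ℝ) : bR (Wn W n) x = cut n x * bR W x := by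
  unfold bR Wn
  rw [mul_max_of_nonneg _ _ (cut_mem n x).1, mul_zero, mul_neg]

theorem Lim_bF_le (W : ℝ → ℝ) (n : ℕ) (x : ℝ) : |bF (Wn W n) x| ≤ |bF W x| := by
  obtain ⟨h0, h1⟩ := cut_mem n x
  rw [Lim_bF, abs_mul, abs_of_nonneg h0]
  exact mul_le_of_le_one_left (abs_nonneg _) h1

theorem Lim_bR_le (W : ℝ → ℝ) (n : ℕ) (x : ℝ) : |bR (Wn W n) x| ≤ |bR W x| := by
  obtain ⟨h0, h1⟩ := cut_mem n x
  rw [Lim_bR, abs_mul, abs_of_nonneg h0]
  exact mul_le_of_le_one_left (abs_nonneg _) h1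

theorem Lim_bF_tendsto {W : ℝ → ℝ} {l : ℝ} (h : OddC W l) (x : ℝ) :
    Tendsto (fun n : ℕ => bF (Wn W n) x) atTop (𝓝 (bF W x)) := by
  unfold bF
  exact (WnC_tendsto h x).max tendsto_const_nhds

theorem Lim_bR_tendsto {W : ℝ → ℝ} {l : ℝ} (h : OddC W l) (x : ℝ) :
    Tendsto (fun n : ℕ => bR (Wn W n) x) atTop (𝓝 (bR W x)) := by
  unfold bR
  exact (WnC_tendsto h x).neg.max tendsto_const_nhds

theorem EFk_tendsto {W : ℝ → ℝ} {l K : ℝ} (h : OddC W l) (hK : Lip K W) :
    Tendsto (fun n : ℕ => EFk (Wn W n)) atTop (𝓝 (EFk W)) := by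
  obtain ⟨i1, i2⟩ := EFk_int h hK
  unfold EFk
  refine Tendsto.add ?_ ?_
  · refine tendsto_integral_of_dominated_convergence
      (fun z : ℝ × ℝ => ‖bF W z.1 * bF W z.2 * kEb z.1 z.2‖) ?_ i1.norm ?_ ?_
    · exact fun n => (EFk_int (Lim_Wn_odd h n) (WnC_lip h hK n)).1.aestronglyMeasurable
    · refine fun n => Filter.Eventually.of_forall fun z => ?_
      simp only [norm_mul, Real.norm_eq_abs]
      have h1 := Lim_bF_le W n z.1
      have h2 := Lim_bF_le W n z.2
      gcongr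
    · refine Filter.Eventually.of_forall fun z => ?_
      exact ((Lim_bF_tendsto h z.1).mul (Lim_bF_tendsto h z.2)).mul_const _
  · refine tendsto_integral_of_dominated_convergence
      (fun z : ℝ × ℝ => ‖bF W z.1 * bR W z.2 * kEn z.1 z.2‖) ?_ i2.norm ?_ ?_
    · exact fun n => (EFk_int (Lim_Wn_odd h n) (WnC_lip h hK n)).2.aestronglyMeasurable
    · refine fun n => Filter.Eventually.of_forall fun z => ?_
      simp only [norm_mul, Real.norm_eq_abs]
      have h1 := Lim_bF_le W n z.1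
      have h2 := Lim_bR_le W n z.2
      gcongr
    · refine Filter.Eventually.of_forall fun z => ?_
      exact ((Lim_bF_tendsto h z.1).mul (Lim_bR_tendsto h z.2)).mul_const _

end Pool.Agent.H90.DC
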