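import Pool.Agent.H90.DC.HPt

/-!
# DC job 13: the Hardy inequality in label variables, integrated (uses the stub `hardy_pt`)

`F α = w0 α (e^{L α} ct (Xf α) - ct α)` for `α ∈ (0,p]` (`0 < Xf α ≤ Xf p < π` as `Xf` is increasing).
`ct' = -(1 + ct²)/2 = -2 ph` on `(0,π)` (`ph x = (1+ct x²)/4`), so
`F' = w0' (e^L ct X - ct α) + w0 e^L L' ct X - 2 w0 (e^{2L} ph X - ph α)`.
With `l = L'`, `Q = e^L ct X ≥ 0`, `D` the right side of `hardy_pt`:
`w0 L'² + 2 w0' L' - w0 (e^{2L} ph X - ph α) = F' + (1/4) w0 (e^{2L} - 1) + D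
   ≥ F' - (1/4) w0 - 2 max (s - K(p-α)) 0 L' - C`.
Integrate over `(ε,p)`, `0 < ε < p/2`: `∫ F' = -F(ε)` (`w0 p = 0`), and with `a = p - s/K ≥ p/2`:
`∫_ε^p 2 max(..) L' = ∫_a^p 2 (s - K(p-α)) L' = 2 s L(p) - 2K ∫_a^p L`, absolute value `≤ 4 s Λ`.
`F(ε) → 0` as `ε → 0+`: `w0(ε)/ε → w0'(0)`, `Xf(ε)/ε → e^{L 0}`, `x ct x → 2`, so both
`w0(ε) e^{L ε} ct (Xf ε)` and `w0(ε) ct ε` tend to `2 w0'(0)`.
The two integrals over `(ε,p)` converge to those over `(0,p)` (integrable functions).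
-/

set_option autoImplicit false
open Real Set MeasureTheory Filter Topology

namespace Pool.Agent.H90.DC
open Pool.Agent.H45.FL Pool.Agent.H51.DG Pool.Agent.H45.DY

theorem HInt_ct_hd {x : ℝ} (h0 : 0 < x) (h1 : x < 2 * π) :
    HasDerivAt ct (-(1 + ct x ^ 2) / 2) x := by
  have hs : 0 < Real.sin (x / 2) := Real.sin_pos_of_pos_of_lt_pi (by linarith) (by linarith)
  have h2 : HasDerivAt (fun y : ℝ => y / 2) (1 / 2) x := (hasDerivAt_id x).div_const 2
  have hc : HasDerivAt (fun y : ℝ => Real.cos (y / 2)) (-Real.sin (x / 2) * (1 / 2)) x :=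
    h2.cos
  have hsn : HasDerivAt (fun y : ℝ => Real.sin (y / 2)) (Real.cos (x / 2) * (1 / 2)) x :=
    h2.sin
  have h3 := hc.div hsn hs.ne'
  refine h3.congr_deriv ?_
  unfold ct
  have h4 := Real.sin_sq_add_cos_sq (x / 2)
  field_simp
  nlinarith [h4]

theorem HInt_ph {x : ℝ} (h0 : 0 < x) (h1 : x < π) : ph x = (1 + ct x ^ 2) / 4 := by
  have hs : 0 < Real.sin (x / 2) := Real.sin_pos_of_pos_of_lt_pi (by linarith) (by linarith)
  unfold ph ct
  rw [if_pos h1.le]
  have h4 := Real.sin_sq_add_cos_sq (x / 2)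
  field_simp
  nlinarith [h4]

theorem HInt_ct_pos {x : ℝ} (h0 : 0 < x) (h1 : x < π) : 0 < ct x := by
  have hs : 0 < Real.sin (x / 2) := Real.sin_pos_of_pos_of_lt_pi (by linarith) (by linarith)
  have hc : 0 < Real.cos (x / 2) := Real.cos_pos_of_mem_Ioo ⟨by linarith, by linarith⟩
  exact div_pos hc hs

theorem HInt_ct_le {x : ℝ} (h0 : 0 < x) (h1 : x < π) : ct x ≤ 2 / x := by
  have hs : 0 < Real.sin (x / 2) := Real.sin_pos_of_pos_of_lt_pi (by linarith) (by linarith)
  have hc : 0 < Real.cos (x / 2) := Real.cos_pos_of_mem_Ioo ⟨by linarith, by linarith⟩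
  have h2 : x / 2 < Real.tan (x / 2) := Real.lt_tan (by linarith) (by linarith)
  rw [Real.tan_eq_sin_div_cos, lt_div_iff₀ hc] at h2
  unfold ct
  rw [div_le_div_iff₀ hs h0]
  linarith

/-- the part of the energy near the right end -/
theorem HInt_max {L L' : ℝ → ℝ} {p K s ε Λ : ℝ} (hL : ∀ α, HasDerivAt L (L' α) α)
    (hL' : Continuous L') (hK : 0 < K) (hs0 : 0 ≤ s) (hsK : s ≤ K * (p / 2)) (hp : 0 < p)
    (hε : 0 < ε) (hε1 : ε < p / 2) (hΛ : ∀ α ∈ Icc (0:ℝ) p, |L α| ≤ Λ) :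
    ∫ α in ε..p, 2 * max (s - K * (p - α)) 0 * L' α ≤ 4 * s * Λ := by
  have hLc : Continuous L := continuous_iff_continuousAt.2 fun α => (hL α).continuousAt
  obtain ⟨a, ha⟩ : ∃ a, a = p - s / K := ⟨_, rfl⟩
  have hsk : s / K ≤ p / 2 := by
    rw [div_le_iff₀ hK]
    linarith
  have hsk0 : 0 ≤ s / K := div_nonneg hs0 hK.le
  have ha1 : a ≤ p := by rw [ha]; linarith
  have ha2 : p / 2 ≤ a := by rw [ha]; linarith
  have hKa : K * (p - a) = s := by
    rw [ha]
    field_simp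
    ring
  have hci : Continuous fun α => 2 * max (s - K * (p - α)) 0 * L' α := by fun_prop
  have h1 : ∫ α in ε..a, 2 * max (s - K * (p - α)) 0 * L' α = 0 := by
    have : ∫ α in ε..a, 2 * max (s - K * (p - α)) 0 * L' α = ∫ _α in ε..a, (0:ℝ) := by
      refine intervalIntegral.integral_congr fun α hα => ?_
      rw [uIcc_of_le (by linarith)] at hα
      have h2 : s - K * (p - α) ≤ 0 := by
        have := mul_le_mul_of_nonneg_left hα.2 hK.le
        nlinarith
      simp [max_eq_right h2]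
    rw [this]
    simp
  have h2 : ∫ α in a..p, 2 * max (s - K * (p - α)) 0 * L' α =
      ∫ α in a..p, (2 * (s - K * (p - α)) * L' α) := by
    refine intervalIntegral.integral_congr fun α hα => ?_
    rw [uIcc_of_le ha1] at hα
    have h3 : 0 ≤ s - K * (p - α) := by
      have := mul_le_mul_of_nonneg_left hα.1 hK.le
      nlinarith
    simp [max_eq_left h3]
  have h3 : ∫ α in a..p, (2 * K * L α + 2 * (s - K * (p - α)) * L' α) =
      2 * (s - K * (p - p)) * L p - 2 * (s - K * (p - a)) * L a := by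
    refine intervalIntegral.integral_eq_sub_of_hasDerivAt
      (f := fun α => 2 * (s - K * (p - α)) * L α) (fun α _ => ?_) ?_
    · have e1 : HasDerivAt (fun α : ℝ => 2 * (s - K * (p - α))) (2 * K) α := by
        have e2 : HasDerivAt (fun α : ℝ => p - α) (-1) α := by
          simpa using (hasDerivAt_id α).const_sub p
        have e3 := ((e2.const_mul K).const_sub s).const_mul 2
        refine e3.congr_deriv ?_
        ring
      exact e1.mul (hL α)
    · apply Continuous.intervalIntegrable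
      fun_prop
  have h4 : ∫ α in a..p, (2 * K * L α + 2 * (s - K * (p - α)) * L' α) =
      (∫ α in a..p, 2 * K * L α) + ∫ α in a..p, (2 * (s - K * (p - α)) * L' α) := by
    apply intervalIntegral.integral_add
    · apply Continuous.intervalIntegrable
      fun_prop
    · apply Continuous.intervalIntegrable
      fun_prop
  have h5 : |∫ α in a..p, 2 * K * L α| ≤ 2 * K * Λ * |p - a| := by
    rw [← Real.norm_eq_abs]
    refine intervalIntegral.norm_integral_le_of_norm_le_const fun α hα => ?_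
    rw [uIoc_of_le ha1] at hα
    rw [Real.norm_eq_abs, abs_mul, abs_of_nonneg (by positivity)]
    refine mul_le_mul_of_nonneg_left (hΛ α ⟨by linarith [hα.1], hα.2⟩) (by positivity)
  have h6 : 2 * K * Λ * |p - a| = 2 * s * Λ := by
    rw [abs_of_nonneg (by linarith)]
    rw [← hKa]
    ring
  have h7 : |L p| ≤ Λ := hΛ p ⟨hp.le, le_rfl⟩
  have h8 : 2 * s * L p ≤ 2 * s * Λ :=
    mul_le_mul_of_nonneg_left ((le_abs_self _).trans h7) (by positivity)
  have h9 := intervalIntegral.integral_add_adjacent_intervals (a := ε) (b := a) (c := p)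
    (hci.intervalIntegrable (μ := volume) _ _) (hci.intervalIntegrable (μ := volume) _ _)
  rw [← h9, h1, h2]
  rw [h6] at h5
  have h10 := (abs_le.1 h5).1
  rw [hKa] at h3
  rw [h4] at h3
  have e1 : 2 * (s - K * (p - p)) * L p - 2 * (s - s) * L a = 2 * s * L p := by ring
  rw [e1] at h3
  linarith

theorem hardy_int {w0 : ℝ → ℝ} {p : ℝ} (hp : 0 < p) (hp1 : p < π) (hs : ContDiff ℝ 2 w0)
    (h0 : w0 0 = 0) (hpz : w0 p = 0) (hpos : ∀ x ∈ Icc (0:ℝ) p, 0 ≤ w0 x) :
    ∃ C : ℝ, 0 ≤ C ∧ ∀ (L L' Xf : ℝ → ℝ) (Λ : ℝ), (∀ α, HasDerivAt L (L' α) α) →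
      Continuous L' → (∀ α, HasDerivAt Xf (Real.exp (L α)) α) → Xf 0 = 0 → Xf p < π →
      (∀ α ∈ Icc (0:ℝ) p, |L α| ≤ Λ) →
      IntegrableOn (fun α => w0 α * (Real.exp (2 * L α) * ph (Xf α) - ph α)) (Ioo 0 p) →
      ∫ α in Ioo (0:ℝ) p, w0 α * (Real.exp (2 * L α) * ph (Xf α) - ph α) ≤
        (∫ α in Ioo (0:ℝ) p, (w0 α * L' α ^ 2 + 2 * deriv w0 α * L' α)) + C * (1 + Λ) := by
  obtain ⟨K, s, C, hK, hs0, hsK, hC, hD⟩ := hardy_pt hp hp1 hs h0 hpz hpos
  have hw1 : Differentiable ℝ w0 := hs.differentiable (by norm_num)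
  have hwc : Continuous w0 := hs.continuous
  have hwd : Continuous (deriv w0) := hs.continuous_deriv (by norm_num)
  obtain ⟨M, hM⟩ : ∃ M : ℝ, ∀ x ∈ Icc (0:ℝ) p, ‖w0 x‖ ≤ M :=
    isCompact_Icc.exists_bound_of_continuousOn hwc.continuousOn
  have hM0 : 0 ≤ M := (norm_nonneg _).trans (hM 0 ⟨le_rfl, hp.le⟩)
  have hd0' : Tendsto (fun ε : ℝ => ε⁻¹ * w0 ε) (𝓝[>] 0) (𝓝 (deriv w0 0)) := by
    have h1 := (hw1 0).hasDerivAt.hasDerivWithinAt (s := Ioi 0)
    rw [hasDerivWithinAt_iff_tendsto_slope' (by simp)] at h1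
    refine h1.congr fun ε => ?_
    rw [slope_def_field, h0, sub_zero, sub_zero]
    ring
  have hev : ∀ᶠ ε : ℝ in 𝓝[>] 0, 0 < ε ∧ ε < p / 2 := by
    have h1 : Ioo (0:ℝ) (p / 2) ∈ 𝓝[>] (0:ℝ) := Ioo_mem_nhdsGT (by linarith)
    filter_upwards [h1] with ε hε using hε
  have hd0 : 0 ≤ deriv w0 0 := by
    refine ge_of_tendsto hd0' ?_
    filter_upwards [hev] with ε hε
    exact mul_nonneg (inv_nonneg.2 hε.1.le) (hpos ε ⟨hε.1.le, by linarith [hε.2]⟩)
  refine ⟨2 * deriv w0 0 + (C + M / 4) * p + 4 * s, by positivity, ?_⟩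
  intro L L' Xf Λ hL hL' hX hX0 hXp hΛ hint
  have hΛ0 : 0 ≤ Λ := (abs_nonneg _).trans (hΛ 0 ⟨le_rfl, hp.le⟩)
  have hLc : Continuous L := continuous_iff_continuousAt.2 fun α => (hL α).continuousAt
  have hXc : Continuous Xf := continuous_iff_continuousAt.2 fun α => (hX α).continuousAt
  have hXm : StrictMono Xf := by
    refine strictMono_of_deriv_pos fun α => ?_
    rw [(hX α).deriv]
    exact Real.exp_pos _
  have hXpos : ∀ α, 0 < α → 0 < Xf α := fun α hα => by
    have := hXm hα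
    rwa [hX0] at this
  have hXlt : ∀ α, α ≤ p → Xf α < π := fun α hα => (hXm.monotone hα).trans_lt hXp
  obtain ⟨P, hP⟩ : ∃ P : ℝ → ℝ,
      P = fun α => w0 α * (Real.exp (2 * L α) * ph (Xf α) - ph α) := ⟨_, rfl⟩
  obtain ⟨A, hA⟩ : ∃ A : ℝ → ℝ, A = fun α => w0 α * L' α ^ 2 + 2 * deriv w0 α * L' α :=
    ⟨_, rfl⟩
  obtain ⟨F, hF⟩ : ∃ F : ℝ → ℝ,
      F = fun α => w0 α * (Real.exp (L α) * ct (Xf α) - ct α) := ⟨_, rfl⟩
  obtain ⟨F', hF'⟩ : ∃ F' : ℝ → ℝ, F' = fun α =>
      deriv w0 α * (Real.exp (L α) * ct (Xf α) - ct α) +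
        w0 α * (Real.exp (L α) * L' α * ct (Xf α) +
          Real.exp (L α) * (-(1 + ct (Xf α) ^ 2) / 2 * Real.exp (L α)) -
            -(1 + ct α ^ 2) / 2) := ⟨_, rfl⟩
  have hFd : ∀ α, 0 < α → α ≤ p → HasDerivAt F (F' α) α := by
    intro α h1 h2
    have e1 : HasDerivAt (fun α => Real.exp (L α)) (Real.exp (L α) * L' α) α := (hL α).exp
    have e2 : HasDerivAt (fun α => ct (Xf α))
        (-(1 + ct (Xf α) ^ 2) / 2 * Real.exp (L α)) α :=
      (HInt_ct_hd (hXpos α h1) (by linarith [hXlt α h2, Real.pi_pos])).comp α (hX α)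
    have e3 : HasDerivAt ct (-(1 + ct α ^ 2) / 2) α :=
      HInt_ct_hd h1 (by linarith [Real.pi_pos])
    have e4 := (hw1 α).hasDerivAt.mul ((e1.mul e2).sub e3)
    rw [hF, hF']
    exact e4
  have hctX : ∀ ε, 0 < ε → ContinuousOn (fun α => ct (Xf α)) (Icc ε p) := by
    intro ε hε α hα
    have := (HInt_ct_hd (hXpos α (hε.trans_le hα.1))
      (by linarith [hXlt α hα.2, Real.pi_pos])).comp α (hX α)
    exact this.continuousAt.continuousWithinAt
  have hct : ∀ ε, 0 < ε → ContinuousOn ct (Icc ε p) := by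
    intro ε hε α hα
    have := HInt_ct_hd (hε.trans_le hα.1) (by linarith [hα.2, Real.pi_pos] : α < 2 * π)
    exact this.continuousAt.continuousWithinAt
  have hF'c : ∀ ε, 0 < ε → ContinuousOn F' (Icc ε p) := by
    intro ε hε
    have c1 := hctX ε hε
    have c2 := hct ε hε
    have c3 : ContinuousOn w0 (Icc ε p) := hwc.continuousOn
    have c4 : ContinuousOn (deriv w0) (Icc ε p) := hwd.continuousOn
    have c5 : ContinuousOn (fun α => Real.exp (L α)) (Icc ε p) :=
      (Real.continuous_exp.comp hLc).continuousOn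
    have c6 : ContinuousOn L' (Icc ε p) := hL'.continuousOn
    rw [hF']
    have d1 : ContinuousOn (fun α => Real.exp (L α) * ct (Xf α) - ct α) (Icc ε p) :=
      (c5.mul c1).sub c2
    have d2 : ContinuousOn (fun α => Real.exp (L α) * L' α * ct (Xf α)) (Icc ε p) :=
      (c5.mul c6).mul c1
    have d3 : ContinuousOn (fun α => -(1 + ct (Xf α) ^ 2) / 2) (Icc ε p) :=
      ((continuousOn_const.add (c1.pow 2)).neg).div_const 2
    have d4 : ContinuousOn (fun α => -(1 + ct α ^ 2) / 2) (Icc ε p) :=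
      ((continuousOn_const.add (c2.pow 2)).neg).div_const 2
    exact (c4.mul d1).add (c3.mul ((d2.add (c5.mul (d3.mul c5))).sub d4))
  -- the pointwise inequality
  have hpt : ∀ α ∈ Ioo (0:ℝ) p, P α ≤ A α - F' α + 2 * max (s - K * (p - α)) 0 * L' α +
      (C + M / 4) := by
    intro α hα
    have x0 := hXpos α hα.1
    have x1 := hXlt α hα.2.le
    have hQ : 0 ≤ Real.exp (L α) * ct (Xf α) :=
      mul_nonneg (Real.exp_pos _).le (HInt_ct_pos x0 x1).le
    have h1 := hD α hα (L' α) (Real.exp (L α) * ct (Xf α)) hQ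
    have hw0 := hpos α ⟨hα.1.le, hα.2.le⟩
    have hwM : w0 α ≤ M := (le_abs_self _).trans (hM α ⟨hα.1.le, hα.2.le⟩)
    have he : Real.exp (2 * L α) = Real.exp (L α) ^ 2 := by
      rw [← Real.exp_nat_mul]
      norm_num
    have h2 : 0 ≤ w0 α * Real.exp (L α) ^ 2 := mul_nonneg hw0 (sq_nonneg _)
    rw [hP, hA, hF']
    simp only
    rw [HInt_ph x0 x1, HInt_ph hα.1 (hα.2.trans hp1), he]
    nlinarith [h1, h2, hwM]
  -- integration over `(ε, p)`
  have hPi : IntervalIntegrable P volume 0 p := by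
    rw [intervalIntegrable_iff_integrableOn_Ioo_of_le hp.le, hP]
    exact hint
  have hAc : Continuous A := by
    rw [hA]
    fun_prop
  have hAi : ∀ a b : ℝ, IntervalIntegrable A volume a b := fun a b => hAc.intervalIntegrable a b
  have hint2 : ∀ ε, 0 < ε → ε < p / 2 →
      ∫ α in ε..p, P α ≤ (∫ α in ε..p, A α) + F ε + 4 * s * Λ + (C + M / 4) * p := by
    intro ε hε hε1
    have hεp : ε ≤ p := by linarith
    have i1 : IntervalIntegrable P volume ε p := by
      refine hPi.mono_set ?_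
      rw [uIcc_of_le hp.le, uIcc_of_le hεp]
      exact Icc_subset_Icc_left hε.le
    have i2 : IntervalIntegrable F' volume ε p := by
      refine ContinuousOn.intervalIntegrable ?_
      rw [uIcc_of_le hεp]
      exact hF'c ε hε
    have i3 : IntervalIntegrable (fun α => 2 * max (s - K * (p - α)) 0 * L' α) volume ε p := by
      apply Continuous.intervalIntegrable
      fun_prop
    have i4 : IntervalIntegrable (fun _ : ℝ => C + M / 4) volume ε p :=
      continuous_const.intervalIntegrable _ _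
    have j1 : ∫ α in ε..p, P α ≤ ∫ α in ε..p, (A α - F' α +
        2 * max (s - K * (p - α)) 0 * L' α + (C + M / 4)) := by
      refine intervalIntegral.integral_mono_on_of_le_Ioo hεp i1
        ((((hAi ε p).sub i2).add i3).add i4) fun α hα => ?_
      exact hpt α ⟨hε.trans hα.1, hα.2⟩
    have j2 : ∫ α in ε..p, (A α - F' α + 2 * max (s - K * (p - α)) 0 * L' α + (C + M / 4)) =
        (∫ α in ε..p, A α) - (∫ α in ε..p, F' α) +
          (∫ α in ε..p, 2 * max (s - K * (p - α)) 0 * L' α) + (p - ε) * (C + M / 4) := by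
      rw [intervalIntegral.integral_add (((hAi ε p).sub i2).add i3) i4,
        intervalIntegral.integral_add ((hAi ε p).sub i2) i3,
        intervalIntegral.integral_sub (hAi ε p) i2, intervalIntegral.integral_const,
        smul_eq_mul]
    have j3 : ∫ α in ε..p, F' α = F p - F ε := by
      refine intervalIntegral.integral_eq_sub_of_hasDerivAt (fun α hα => ?_) i2
      rw [uIcc_of_le hεp] at hα
      exact hFd α (hε.trans_le hα.1) hα.2
    have j4 : F p = 0 := by
      rw [hF]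
      simp only
      rw [hpz, zero_mul]
    have j5 := HInt_max hL hL' hK hs0 hsK hp hε hε1 hΛ
    have j6 : (p - ε) * (C + M / 4) ≤ (C + M / 4) * p := by
      rw [mul_comm (p - ε)]
      refine mul_le_mul_of_nonneg_left (by linarith) (by positivity)
    rw [j2, j3, j4] at j1
    linarith
  -- the boundary term
  have hFle : ∀ ε, 0 < ε → ε < p / 2 →
      F ε ≤ ε⁻¹ * w0 ε * (2 * Real.exp (L ε)) * (ε⁻¹ * Xf ε)⁻¹ := by
    intro ε hε hε1
    have hεp : ε ≤ p := by linarith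
    have x0 := hXpos ε hε
    have x1 := hXlt ε hεp
    have hw0 := hpos ε ⟨hε.le, hεp⟩
    have h1 := HInt_ct_le x0 x1
    have h2 := HInt_ct_pos hε (by linarith [Real.pi_pos] : ε < π)
    rw [hF]
    simp only
    calc w0 ε * (Real.exp (L ε) * ct (Xf ε) - ct ε) ≤ w0 ε * (Real.exp (L ε) * (2 / Xf ε)) := by
          refine mul_le_mul_of_nonneg_left ?_ hw0
          have := mul_le_mul_of_nonneg_left h1 (Real.exp_pos (L ε)).le
          linarith
      _ = ε⁻¹ * w0 ε * (2 * Real.exp (L ε)) * (ε⁻¹ * Xf ε)⁻¹ := by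
          field_simp
  have hX0' : Tendsto (fun ε : ℝ => ε⁻¹ * Xf ε) (𝓝[>] 0) (𝓝 (Real.exp (L 0))) := by
    have h1 := (hX 0).hasDerivWithinAt (s := Ioi 0)
    rw [hasDerivWithinAt_iff_tendsto_slope' (by simp)] at h1
    refine h1.congr fun ε => ?_
    rw [slope_def_field, hX0, sub_zero, sub_zero]
    ring
  have hL0' : Tendsto (fun ε : ℝ => 2 * Real.exp (L ε)) (𝓝[>] 0) (𝓝 (2 * Real.exp (L 0))) := by
    have : Continuous fun ε : ℝ => 2 * Real.exp (L ε) := by fun_prop
    exact (this.tendsto 0).mono_left nhdsWithin_le_nhds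
  have hlim : Tendsto (fun ε : ℝ => ε⁻¹ * w0 ε * (2 * Real.exp (L ε)) * (ε⁻¹ * Xf ε)⁻¹)
      (𝓝[>] 0) (𝓝 (2 * deriv w0 0)) := by
    have h1 := (hd0'.mul hL0').mul (hX0'.inv₀ (Real.exp_pos _).ne')
    have h2 : deriv w0 0 * (2 * Real.exp (L 0)) * (Real.exp (L 0))⁻¹ = 2 * deriv w0 0 := by
      have := (Real.exp_pos (L 0)).ne'
      field_simp
    rw [h2] at h1
    exact h1
  -- the integrals converge
  have hGi : IntervalIntegrable (fun α => P α - A α) volume 0 p := hPi.sub (hAi 0 p)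
  have hcont : Tendsto (fun ε : ℝ => ∫ α in ε..p, (P α - A α)) (𝓝[>] 0)
      (𝓝 (∫ α in (0:ℝ)..p, (P α - A α))) := by
    have h1 : ContinuousOn (fun x => ∫ t in (0:ℝ)..x, (P t - A t)) (uIcc 0 p) :=
      intervalIntegral.continuousOn_primitive_interval' hGi left_mem_uIcc
    have h2 : Tendsto (fun x => ∫ t in (0:ℝ)..x, (P t - A t)) (𝓝[>] 0)
        (𝓝 (∫ t in (0:ℝ)..0, (P t - A t))) := by
      have h3 := h1 0 left_mem_uIcc
      rw [uIcc_of_le hp.le] at h3
      have h4 : 𝓝[>] (0:ℝ) ≤ 𝓝[Icc 0 p] 0 := by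
        rw [nhdsWithin_le_iff]
        filter_upwards [hev] with ε hε
        exact ⟨hε.1.le, by linarith [hε.2]⟩
      exact h3.mono_left h4
    rw [intervalIntegral.integral_same] at h2
    have h5 : Tendsto (fun x => (∫ t in (0:ℝ)..p, (P t - A t)) - ∫ t in (0:ℝ)..x, (P t - A t))
        (𝓝[>] 0) (𝓝 ((∫ t in (0:ℝ)..p, (P t - A t)) - 0)) := h2.const_sub _
    rw [sub_zero] at h5
    refine h5.congr' ?_
    filter_upwards [hev] with ε hε
    have i1 : IntervalIntegrable (fun α => P α - A α) volume 0 ε := by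
      refine hGi.mono_set ?_
      rw [uIcc_of_le hp.le, uIcc_of_le hε.1.le]
      exact Icc_subset_Icc_right (by linarith [hε.2])
    have i2 : IntervalIntegrable (fun α => P α - A α) volume ε p := by
      refine hGi.mono_set ?_
      rw [uIcc_of_le hp.le, uIcc_of_le (by linarith [hε.2] : ε ≤ p)]
      exact Icc_subset_Icc_left hε.1.le
    rw [← intervalIntegral.integral_add_adjacent_intervals i1 i2]
    ring
  have hfin : ∫ α in (0:ℝ)..p, (P α - A α) ≤
      2 * deriv w0 0 + (4 * s * Λ + (C + M / 4) * p) := by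
    have h1 := hlim.add_const (4 * s * Λ + (C + M / 4) * p)
    refine le_of_tendsto_of_tendsto hcont h1 ?_
    filter_upwards [hev] with ε hε
    have e1 := hint2 ε hε.1 hε.2
    have e2 := hFle ε hε.1 hε.2
    have i2 : IntervalIntegrable P volume ε p := by
      refine hPi.mono_set ?_
      rw [uIcc_of_le hp.le, uIcc_of_le (by linarith [hε.2] : ε ≤ p)]
      exact Icc_subset_Icc_left hε.1.le
    rw [intervalIntegral.integral_sub i2 (hAi ε p)]
    linarith
  rw [intervalIntegral.integral_sub hPi (hAi 0 p)] at hfin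
  have k1 : ∫ α in Ioo (0:ℝ) p, w0 α * (Real.exp (2 * L α) * ph (Xf α) - ph α) =
      ∫ α in (0:ℝ)..p, P α := by
    rw [intervalIntegral.integral_of_le hp.le, integral_Ioc_eq_integral_Ioo, hP]
  have k2 : ∫ α in Ioo (0:ℝ) p, (w0 α * L' α ^ 2 + 2 * deriv w0 α * L' α) =
      ∫ α in (0:ℝ)..p, A α := by
    rw [intervalIntegral.integral_of_le hp.le, integral_Ioc_eq_integral_Ioo, hA]
  rw [k1, k2]
  have k3 : 0 ≤ (2 * deriv w0 0 + (C + M / 4) * p) * Λ := by positivity
  have k4 : 0 ≤ 4 * s := by positivity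
  nlinarith [hfin, k3, k4]

end Pool.Agent.H90.DC
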