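import Pool.Agent.H90.DC.Defs
import Pool.Agent.H51.DG.SD
import Pool.Agent.H51.DG.SF

/-!
# DC job 6: kernel form of `JF` for functions vanishing near `0`

Adapt `Pool/Agent/H51/DG/SD.lean` (read it first).  `VanC W l`, `W = 0` on `[-δ,δ]`; `b = bF W`,
`n = bR W`; on `[0,π]`: `W = b - n`, `b = W 1_{[0,l]}`, `n = -W 1_{[l,π]}`.
Let `F` be the `2π`-periodic Lipschitz function with `F x = b x * Ph x` on `[0,π]` and `F = 0` on
`[π,2π]` (for instance `F x = max (W x) 0 * 1_{sin x > 0} * P x`, where `P` is a Lipschitz periodic function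
equal to `Ph` for `δ ≤ x ≤ 2π-δ`; `F` is Lipschitz since `W` vanishes at `0`, `l`; note that `W ≥ 0` also on
`[π, 2π-l]`... only the part in `(0,π)` is kept: `max (W x) 0 * (if 0 < sin x then 1 else 0)` is
Lipschitz because `W π = 0`, `W ≤ 0` on `[l,π]`, so it vanishes near `π` from the left and is cut to `0` from
the right).
(1) `∫_0^l W 2 HT W Ph = 2 ∫_0^{2π} F HT W = (1/2π) ∫∫_{Sq2} (F(x)W(y) - F(y)W(x)) ct(x-y)`
  (`HT_fubini`, `HT_fubini_lip`) and folding (`fold_integral`; `W (2π-y) = -W y`, `F (2π-y) = 0`,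
  `ct (x+y-2π) = ct (x+y)`, `ct (2π-x-y) = -ct (x+y)`)
  `= (1/2π) ∫∫_{Sq1} [(F(x)W(y) - F(y)W(x)) ct(x-y) - (F(x)W(y) + F(y)W(x)) ct(x+y)]`.
(2) `UU W x = (1/π) ∫_0^{2π} W(y)(log sin((x-y)/2) - log sin(y/2)) dy` (`log_kernel`) `= (1/π) ∫_0^π W(y) Lg x y dy`
  (fold: `W (2π-y) = -W y`, `sin((x-2π+y)/2) = -sin((x+y)/2)`, `Real.log (-t) = Real.log t`), so
  `∫_0^l W UU W dPh = (1/π) ∫∫_{Sq1} b(x) dPh(x) (b(y) - n(y)) Lg x y`.
(3) Expand `W = b - n`, `F = b Ph` and exchange `x, y` where needed (`Lg y x = Lg x y`, `ct (-z) = -ct z`):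
  the `b b` part is `b(x) b(y) kJb x y`, the `b n` parts are `b(x) n(y) kJn x y` (the `b(y) n(x)` part of (1) is
  the mirror image of the `b(x) n(y)` part).
Integrability: `b` vanishes near `0` and `b b`, `b n` vanish unless `x < l`; `ct(x-y)` has the singularity
`1/(y-x)` at `x < l < y`, `b(x) n(y)/(y-x) ≤ K² (l-x)(y-l)/(y-x) ≤ K²(y-x)`; `(Ph x - Ph y) ct(x-y)` is bounded
for `x, y ≥ δ`; `Lg` is integrable (`SD_log_sq`), `ct (x+y)` is bounded for `δ ≤ x+y ≤ 2l` resp. times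
`b(x) n(y)`, `x + y ≤ l + π < 2π`.
-/

set_option autoImplicit false
open Real Set MeasureTheory Filter Topology

namespace Pool.Agent.H90.DC
open Pool.Agent.H45.FL Pool.Agent.H51.DG Pool.Agent.H45.DY

theorem JKer_Sq1 : (volume.restrict Sq1 : Measure (ℝ × ℝ)) =
    (volume.restrict (Ioo (0:ℝ) π)).prod (volume.restrict (Ioo (0:ℝ) π)) := by
  rw [Measure.prod_restrict, ← Measure.volume_eq_prod]
  rfl

theorem JKer_swap {f : ℝ × ℝ → ℝ} (hf : IntegrableOn f Sq1) :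
    IntegrableOn (fun z : ℝ × ℝ => f z.swap) Sq1 ∧
    ∫ z in Sq1, f z.swap = ∫ z in Sq1, f z := by
  constructor
  · have h1 : Integrable f (volume.restrict Sq1) := hf
    rw [JKer_Sq1] at h1
    have h2 := h1.swap
    show Integrable _ (volume.restrict Sq1)
    rw [JKer_Sq1]
    exact h2
  · rw [JKer_Sq1]
    exact integral_prod_swap f

theorem JKer_ms : MeasurableSet Sq1 := measurableSet_Ioo.prod measurableSet_Ioo

/-- integrability of a piece -/
theorem JKer_piece {A B : ℝ × ℝ → ℝ} (hA : IntegrableOn A Sq1) {S : Set (ℝ × ℝ)}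
    (hS : MeasurableSet S) (h1 : ∀ z ∈ Sq1, z ∈ S → B z = A z)
    (h2 : ∀ z ∈ Sq1, z ∉ S → B z = 0) : IntegrableOn B Sq1 := by
  have h3 : IntegrableOn (S.indicator A) Sq1 := Integrable.indicator hA hS
  refine h3.congr_fun (fun z hz => ?_) JKer_ms
  by_cases hzS : z ∈ S
  · rw [Set.indicator_of_mem hzS, h1 z hz hzS]
  · rw [Set.indicator_of_notMem hzS, h2 z hz hzS]

theorem JKer_min {f g : ℝ → ℝ} (hf : SD_BL f) (hg : SD_BL g) : SD_BL (fun x => min (f x) (g x)) := by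
  obtain ⟨⟨K, hK⟩, ⟨B, hB⟩, pf⟩ := hf
  obtain ⟨⟨K', hK'⟩, ⟨B', hB'⟩, pg⟩ := hg
  refine ⟨⟨max K K', fun x y => ?_⟩, ⟨max B B', fun x => ?_⟩, fun x => ?_⟩
  · refine (abs_min_sub_min_le_max _ _ _ _).trans (max_le ?_ ?_)
    · exact (hK x y).trans (mul_le_mul_of_nonneg_right (le_max_left _ _) (abs_nonneg _))
    · exact (hK' x y).trans (mul_le_mul_of_nonneg_right (le_max_right _ _) (abs_nonneg _))
  · exact abs_min_le_max_abs_abs.trans (max_le_max (hB x) (hB' x))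
  · show min (f (x + 2 * π)) (g (x + 2 * π)) = min (f x) (g x)
    rw [pf, pg]

theorem JKer_sin : SD_BL (fun x => Real.sin x) := by
  have h := SD_BL.negsin.neg
  simpa using h

theorem JKer_ct_sub (s : ℝ) : ct (2 * π - s) = -ct s := by
  unfold ct
  rw [show (2 * π - s) / 2 = π - s / 2 by ring, Real.sin_pi_sub, Real.cos_pi_sub, neg_div]

theorem JKer_ct_sub' (s : ℝ) : ct (s - 2 * π) = ct s := by
  have h := JKer_ct_sub s
  have h2 : ct (s - 2 * π) = -ct (2 * π - s) := by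
    rw [← SC_ct_neg]
    congr 1
    ring
  rw [h2, h]
  ring

theorem JKer_refl {W : ℝ → ℝ} (hp : Function.Periodic W (2 * π)) (ho : ∀ x, W (-x) = -W x) (x : ℝ) :
    W (2 * π - x) = -W x := by
  rw [← ho x, ← hp (-x)]
  congr 1
  ring

/-- concavity bound of the sine -/
theorem JKer_sin_ge {l x : ℝ} (hl0 : 0 < l) (hl : l < π) (h0 : 0 ≤ x) (h1 : x ≤ l) :
    x / l * Real.sin l ≤ Real.sin x := by
  have hc := strictConcaveOn_sin_Icc.concaveOn
  have hx : 0 ≤ x / l := div_nonneg h0 hl0.le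
  have hx1 : x / l ≤ 1 := (div_le_one hl0).2 h1
  have m0 : (0:ℝ) ∈ Icc (0:ℝ) π := ⟨le_rfl, Real.pi_pos.le⟩
  have m1 : l ∈ Icc (0:ℝ) π := ⟨hl0.le, hl.le⟩
  have h := hc.2 m0 m1 (by linarith : 0 ≤ 1 - x / l) hx (by ring)
  simp only [smul_eq_mul, mul_zero, Real.sin_zero, zero_add] at h
  rwa [div_mul_cancel₀ x hl0.ne'] at h

theorem JKer_ct_sq {x : ℝ} (h : Real.sin (x / 2) ≠ 0) : ct x ^ 2 = (Real.sin (x / 2))⁻¹ ^ 2 - 1 := by
  unfold ct
  have := Real.sin_sq_add_cos_sq (x / 2)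
  field_simp
  linarith

theorem JF_kernel {W : ℝ → ℝ} {l : ℝ} (h : VanC W l) :
    IntegrableOn (fun z : ℝ × ℝ => bF W z.1 * bF W z.2 * kJb z.1 z.2) Sq1 ∧
    IntegrableOn (fun z : ℝ × ℝ => bF W z.1 * bR W z.2 * kJn z.1 z.2) Sq1 ∧
    JF W l = (∫ z in Sq1, bF W z.1 * bF W z.2 * kJb z.1 z.2) +
      ∫ z in Sq1, bF W z.1 * bR W z.2 * kJn z.1 z.2 := by
  obtain ⟨K, hK⟩ := h.lip
  have hpi : (3:ℝ) < π := Real.pi_gt_three
  have hp := h.per
  have hl0 := h.l0
  have hl1 := h.l1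
  have hWc : Continuous W := Lip.continuous hK
  have hK0 := hK.nonneg
  have hBW := SD_BL_W hp h.lip
  have hrefl := JKer_refl hp h.odd
  have hW0 : W 0 = 0 := by
    have := h.odd 0
    rw [neg_zero] at this
    linarith
  obtain ⟨δ0, hδ0, hv0⟩ := h.van
  obtain ⟨δ, hδd⟩ : ∃ δ, δ = min δ0 1 := ⟨_, rfl⟩
  have hδ : 0 < δ := by rw [hδd]; exact lt_min hδ0 one_pos
  have hδ1 : δ ≤ 1 := by rw [hδd]; exact min_le_right _ _
  have hv : ∀ x, |x| ≤ δ → W x = 0 := fun x hx =>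
    hv0 x (hx.trans (by rw [hδd]; exact min_le_left _ _))
  obtain ⟨s0, hs0d⟩ : ∃ s, s = Real.sin (δ / 2) := ⟨_, rfl⟩
  have hs0 : 0 < s0 := by
    rw [hs0d]; exact Real.sin_pos_of_pos_of_lt_pi (by linarith) (by linarith)
  have hsin : ∀ x, 0 < x → x < 2 * π → W x ≠ 0 → s0 ≤ Real.sin (x / 2) := fun x a b c =>
    hs0d ▸ SD_sin_ge hp hδ hv a b c
  -- the Lipschitz version of `W 1_[0,l]`
  have hsl : 0 < Real.sin l := Real.sin_pos_of_pos_of_lt_pi hl0 hl1
  obtain ⟨g, hgd⟩ : ∃ g : ℝ → ℝ, g = fun x =>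
    min (max (W x) 0) (K * l / Real.sin l * max (Real.sin x) 0) := ⟨_, rfl⟩
  have hg : SD_BL g := by
    rw [hgd]
    exact JKer_min (hBW.maxc 0) ((SD_BL.const _).mul (JKer_sin.maxc 0))
  have hg1 : ∀ x ∈ Ioo (0:ℝ) π, g x = bF W x := by
    intro x hx
    rw [hgd]
    show min (max (W x) 0) (K * l / Real.sin l * max (Real.sin x) 0) = max (W x) 0
    have hsx : 0 ≤ Real.sin x := Real.sin_nonneg_of_nonneg_of_le_pi hx.1.le hx.2.le
    rw [max_eq_left hsx]
    have hC : 0 ≤ K * l / Real.sin l := by positivity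
    rcases le_or_gt x l with hxl | hxl
    · refine min_eq_left (max_le ?_ (mul_nonneg hC hsx))
      have a1 := JKer_sin_ge hl0 hl1 hx.1.le hxl
      have a2 := hK x 0
      rw [hW0, sub_zero, sub_zero, abs_of_pos hx.1] at a2
      have a3 : K * l / Real.sin l * (x / l * Real.sin l) = K * x := by
        field_simp
      have a4 := mul_le_mul_of_nonneg_left a1 hC
      rw [a3] at a4
      exact ((le_abs_self _).trans a2).trans a4
    · rw [max_eq_right (h.neg x ⟨hxl.le, hx.2.le⟩)]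
      exact min_eq_left (mul_nonneg hC hsx)
  have hg2 : ∀ x ∈ Ioo (0:ℝ) π, g (2 * π - x) = 0 := by
    intro x hx
    rw [hgd]
    show min (max (W (2 * π - x)) 0) (K * l / Real.sin l * max (Real.sin (2 * π - x)) 0) = 0
    have hsx : 0 ≤ Real.sin x := Real.sin_nonneg_of_nonneg_of_le_pi hx.1.le hx.2.le
    rw [Real.sin_two_pi_sub, max_eq_right (by linarith : -Real.sin x ≤ 0), mul_zero]
    exact min_eq_right (le_max_right _ _)
  have hgW : ∀ x, W x = 0 → g x = 0 := by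
    intro x hx
    rw [hgd]
    show min (max (W x) 0) (K * l / Real.sin l * max (Real.sin x) 0) = 0
    have hC : 0 ≤ K * l / Real.sin l := by positivity
    rw [hx, max_self]
    exact min_eq_left (mul_nonneg hC (le_max_right _ _))
  have hgl : ∀ x ∈ Ioo (0:ℝ) (2 * π), l ≤ x → g x = 0 := by
    intro x hx hlx
    rcases lt_trichotomy x π with h1 | h1 | h1
    · rw [hg1 x ⟨hx.1, h1⟩]
      exact max_eq_right (h.neg x ⟨hlx, h1.le⟩)
    · apply hgW
      have := hrefl π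
      rw [show 2 * π - π = π by ring] at this
      rw [h1]
      linarith
    · have := hg2 (2 * π - x) ⟨by linarith [hx.2], by linarith⟩
      rwa [show 2 * π - (2 * π - x) = x by ring] at this
  have hgl' : ∀ x ∈ Ioo (0:ℝ) l, g x = W x := by
    intro x hx
    rw [hg1 x ⟨hx.1, hx.2.trans hl1⟩]
    exact max_eq_left (h.pos x ⟨hx.1.le, hx.2.le⟩)
  -- the Lipschitz version of the weight
  obtain ⟨m, hmd⟩ : ∃ m : ℝ → ℝ, m = fun x => (max |Real.sin (x / 2)| s0)⁻¹ := ⟨_, rfl⟩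
  have hm : SD_BL m := by
    rw [hmd]; exact (SD_BL.abssin.maxc s0).inv hs0 (fun x => le_max_right _ _)
  have hmx : ∀ x, 0 < x → x < 2 * π → W x ≠ 0 → m x = (Real.sin (x / 2))⁻¹ := by
    intro x a b c
    have := hsin x a b c
    rw [hmd]
    show (max |Real.sin (x / 2)| s0)⁻¹ = _
    rw [abs_of_pos (hs0.trans_le this), max_eq_left this]
  obtain ⟨F, hFd⟩ : ∃ F : ℝ → ℝ, F = fun x => g x * (1 / 4 * (m x * m x) + (-(3 / 8))) := ⟨_, rfl⟩
  have hF : SD_BL F := by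
    rw [hFd]
    exact hg.mul (((SD_BL.const _).mul (hm.mul hm)).add (SD_BL.const _))
  have hFx : ∀ x ∈ Ioo (0:ℝ) (2 * π), F x = g x * Ph x := by
    intro x hx
    rw [hFd]
    show g x * (1 / 4 * (m x * m x) + (-(3 / 8))) = _
    by_cases hW : W x = 0
    · rw [hgW x hW]; ring
    · have hs := hsin x hx.1 hx.2 hW
      have hs' : 0 < Real.sin (x / 2) := hs0.trans_le hs
      rw [hmx x hx.1 hx.2 hW]
      unfold Ph
      rw [JKer_ct_sq hs'.ne']
      ring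
  obtain ⟨B, hB⟩ := hBW.bd
  obtain ⟨Bg, hBg⟩ := hg.bd
  have hB0 : 0 ≤ B := (abs_nonneg _).trans (hB 0)
  have hBg0 : 0 ≤ Bg := (abs_nonneg _).trans (hBg 0)
  obtain ⟨Kg, hKg⟩ := hg.lip
  -- the function `g dPh`
  obtain ⟨P, hPd⟩ : ∃ P : ℝ → ℝ, P = fun x => g x * dPh x := ⟨_, rfl⟩
  have hPm : Measurable P := by
    rw [hPd]
    have : Measurable dPh := by
      unfold dPh
      have := SC_ct_meas
      fun_prop
    exact (Lip.continuous hKg).measurable.mul this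
  obtain ⟨C0, hC0d⟩ : ∃ C0 : ℝ, C0 = Bg * (1 / s0 * (1 + (1 / s0) ^ 2) / 4) := ⟨_, rfl⟩
  have hC0 : 0 ≤ C0 := by rw [hC0d]; positivity
  have hPb : ∀ x ∈ Ioo (0:ℝ) (2 * π), |P x| ≤ C0 := by
    intro x hx
    rw [hPd]
    show |g x * dPh x| ≤ _
    by_cases hW : W x = 0
    · rw [hgW x hW]; simpa using hC0
    · have hs := hsin x hx.1 hx.2 hW
      have hs' : 0 < Real.sin (x / 2) := hs0.trans_le hs
      rw [abs_mul, hC0d]
      refine mul_le_mul (hBg x) ?_ (abs_nonneg _) hBg0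
      have hct : |ct x| ≤ 1 / s0 := by
        unfold ct
        rw [abs_div, abs_of_pos hs']
        exact div_le_div₀ zero_le_one (Real.abs_cos_le_one _) hs0 hs
      unfold dPh
      rw [abs_neg, abs_div, abs_mul, abs_of_pos (by norm_num : (0:ℝ) < 4),
        abs_of_pos (by positivity : (0:ℝ) < 1 + ct x ^ 2)]
      have h2 : ct x ^ 2 ≤ (1 / s0) ^ 2 := by
        rw [← sq_abs (ct x)]
        gcongr
      gcongr
  -- the logarithmic part
  obtain ⟨G, hGd⟩ : ∃ G : ℝ → ℝ → ℝ, G = fun x y => (P x * W y) *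
      (Real.log (Real.sin ((x - y) / 2)) - Real.log (Real.sin (y / 2))) := ⟨_, rfl⟩
  have hms : MeasurableSet Sq2 := measurableSet_Ioo.prod measurableSet_Ioo
  have hG : IntegrableOn (fun z : ℝ × ℝ => G z.1 z.2) Sq2 := by
    rw [hGd]
    refine Integrable.bdd_mul (c := C0 * B) (SD_log_sq.sub SD_log_snd)
      (((hPm.comp measurable_fst).mul (hWc.measurable.comp measurable_snd)).aestronglyMeasurable)
      ?_
    refine ae_restrict_of_forall_mem hms fun z hz => ?_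
    rw [Real.norm_eq_abs, abs_mul]
    exact mul_le_mul (hPb _ hz.1) (hB _) (abs_nonneg _) hC0
  have hI2 : ∫ x in Ioo (0:ℝ) (2 * π), P x * UU W x = 1 / π * ∫ z in Sq2, G z.1 z.2 := by
    have h1 : Integrable (fun z : ℝ × ℝ => G z.1 z.2) (volume.restrict Sq2) := hG
    rw [SD_Sq2] at h1 ⊢
    rw [integral_prod _ h1, ← integral_const_mul]
    refine setIntegral_congr_fun measurableSet_Ioo fun x _ => ?_
    show P x * UU W x = 1 / π * ∫ y in Ioo (0:ℝ) (2 * π), G x y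
    rw [log_kernel hp hK x, intervalIntegral.integral_of_le Real.two_pi_pos.le,
      integral_Ioc_eq_integral_Ioo, mul_left_comm, ← integral_const_mul]
    congr 1
    refine setIntegral_congr_fun measurableSet_Ioo fun y _ => ?_
    rw [hGd]
    show P x * (W y * _) = (P x * W y) * _
    ring
  -- the Hilbert transform part
  obtain ⟨K', hK'⟩ := hF.lip
  obtain ⟨B', hB'⟩ := hF.bd
  obtain ⟨T, hTd⟩ : ∃ T : ℝ → ℝ → ℝ, T = fun x y => (F x * W y - F y * W x) * ct (x - y) :=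
    ⟨_, rfl⟩
  have hT0 : IntegrableOn (fun z : ℝ × ℝ => (F z.1 * W z.2 - F z.2 * W z.1) * ct (z.1 - z.2)) Sq2 :=
    HT_fubini_lip hK' hF.per hp hK
  have hI1 := HT_fubini (Lip.continuous hK').measurable hB' hF.per hp hK hT0
  have hT : IntegrableOn (fun z : ℝ × ℝ => T z.1 z.2) Sq2 := by rw [hTd]; exact hT0
  have hI1' : ∫ x in (0:ℝ)..(2 * π), F x * HT W x = 1 / (4 * π) * ∫ z in Sq2, T z.1 z.2 := by
    rw [hI1, hTd]
  -- the functional
  have hUc : Continuous (UU W) := continuous_iff_continuousAt.2 fun x =>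
    (hasDerivAt_UU hK x).continuousAt
  have i1 : IntegrableOn (fun x => F x * HT W x) (Ioo (0:ℝ) (2 * π)) := by
    have hc : Continuous (fun x => F x * HT W x) := (Lip.continuous hK').mul (continuous_HT hK)
    exact (hc.integrableOn_Icc).mono_set Ioo_subset_Icc_self
  have i2 : IntegrableOn (fun x => P x * UU W x) (Ioo (0:ℝ) (2 * π)) := by
    refine Integrable.bdd_mul (c := C0)
      ((hUc.integrableOn_Icc).mono_set Ioo_subset_Icc_self) hPm.aestronglyMeasurable ?_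
    exact ae_restrict_of_forall_mem measurableSet_Ioo fun x hx => hPb x hx
  have hJF : JF W l = 2 * (∫ x in Ioo (0:ℝ) (2 * π), F x * HT W x) +
      ∫ x in Ioo (0:ℝ) (2 * π), P x * UU W x := by
    rw [← integral_const_mul, ← integral_add (i1.const_mul 2) i2]
    unfold JF
    rw [intervalIntegral.integral_of_le hl0.le, integral_Ioc_eq_integral_Ioo]
    have hsub : Ioo (0:ℝ) l ⊆ Ioo (0:ℝ) (2 * π) := Ioo_subset_Ioo_right (by linarith)
    have e0 : ∫ x in Ioo (0:ℝ) (2 * π), (2 * (F x * HT W x) + P x * UU W x) =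
        ∫ x in Ioo (0:ℝ) l, (2 * (F x * HT W x) + P x * UU W x) := by
      refine setIntegral_eq_of_subset_of_forall_sdiff_eq_zero measurableSet_Ioo hsub fun x hx => ?_
      have hx1 : x ∈ Ioo (0:ℝ) (2 * π) := hx.1
      have hx2 : l ≤ x := by
        by_contra hc
        exact hx.2 ⟨hx1.1, not_le.1 hc⟩
      rw [hFx x hx1, hPd]
      show 2 * (g x * Ph x * HT W x) + g x * dPh x * UU W x = 0
      rw [hgl x hx1 hx2]
      ring
    rw [e0]
    refine setIntegral_congr_fun measurableSet_Ioo fun x hx => ?_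
    show W x * (2 * HT W x * Ph x + UU W x * dPh x) = 2 * (F x * HT W x) + P x * UU W x
    rw [hFx x (hsub hx), hPd]
    show _ = 2 * (g x * Ph x * HT W x) + g x * dPh x * UU W x
    rw [hgl' x hx]
    ring
  rw [intervalIntegral.integral_of_le Real.two_pi_pos.le, integral_Ioc_eq_integral_Ioo] at hI1'
  -- folding
  obtain ⟨H, hHd⟩ : ∃ H : ℝ → ℝ → ℝ, H = fun x y => 1 / (2 * π) * T x y + 1 / π * G x y :=
    ⟨_, rfl⟩
  have hH : IntegrableOn (fun z : ℝ × ℝ => H z.1 z.2) Sq2 := by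
    rw [hHd]
    exact (hT.const_mul _).add (hG.const_mul _)
  have hJH : JF W l = ∫ z in Sq2, H z.1 z.2 := by
    rw [hJF, hI1', hI2, hHd]
    have e := integral_add (hT.const_mul (1 / (2 * π))) (hG.const_mul (1 / π))
    rw [integral_const_mul, integral_const_mul] at e
    rw [e]
    have : (π:ℝ) ≠ 0 := Real.pi_ne_zero
    field_simp
    ring
  obtain ⟨f1, f2⟩ := fold_integral hH
  obtain ⟨b, hbd⟩ : ∃ b : ℝ → ℝ, b = bF W := ⟨_, rfl⟩
  obtain ⟨n, hnd⟩ : ∃ n : ℝ → ℝ, n = bR W := ⟨_, rfl⟩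
  have hWbn : ∀ x, W x = b x - n x := by
    intro x
    rw [hbd, hnd]
    show W x = max (W x) 0 - max (-W x) 0
    rcases le_total 0 (W x) with h1 | h1
    · rw [max_eq_left h1, max_eq_right (by linarith)]; ring
    · rw [max_eq_right h1, max_eq_left (by linarith)]; ring
  have hb0 : ∀ x ∈ Ioo (0:ℝ) π, l ≤ x → b x = 0 := by
    intro x hx hlx
    rw [hbd]
    exact max_eq_right (h.neg x ⟨hlx, hx.2.le⟩)
  have hn0 : ∀ x ∈ Ioo (0:ℝ) π, x < l → n x = 0 := by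
    intro x hx hlx
    rw [hnd]
    exact max_eq_right (by have := h.pos x ⟨hx.1.le, hlx.le⟩; linarith)
  obtain ⟨B1, hB1⟩ : ∃ B1 : ℝ × ℝ → ℝ, B1 = fun z => b z.1 * b z.2 *
      (1 / (2 * π) * ((Ph z.1 - Ph z.2) * ct (z.1 - z.2) - (Ph z.1 + Ph z.2) * ct (z.1 + z.2)) +
        1 / π * (dPh z.1 * Lg z.1 z.2)) := ⟨_, rfl⟩
  obtain ⟨B2, hB2⟩ : ∃ B2 : ℝ × ℝ → ℝ, B2 = fun z => b z.1 * n z.2 *
      (1 / (2 * π) * (Ph z.1 * (ct (z.1 + z.2) - ct (z.1 - z.2))) -
        1 / π * (dPh z.1 * Lg z.1 z.2)) := ⟨_, rfl⟩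
  obtain ⟨B3, hB3⟩ : ∃ B3 : ℝ × ℝ → ℝ, B3 = fun z => n z.1 * b z.2 *
      (1 / (2 * π) * (Ph z.2 * (ct (z.1 - z.2) + ct (z.1 + z.2)))) := ⟨_, rfl⟩
  have hfold : ∀ z ∈ Sq1, fold4 H z.1 z.2 = B1 z + B2 z + B3 z := by
    intro z hz
    have z1 := hz.1
    have z2 := hz.2
    have y1 : z.1 ∈ Ioo (0:ℝ) (2 * π) := ⟨z1.1, by linarith [z1.2]⟩
    have y2 : z.2 ∈ Ioo (0:ℝ) (2 * π) := ⟨z2.1, by linarith [z2.2]⟩
    have y1' : 2 * π - z.1 ∈ Ioo (0:ℝ) (2 * π) := ⟨by linarith [z1.2], by linarith [z1.1]⟩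
    have y2' : 2 * π - z.2 ∈ Ioo (0:ℝ) (2 * π) := ⟨by linarith [z2.2], by linarith [z2.1]⟩
    have F1 := hFx _ y1
    have F2 := hFx _ y2
    have F1' := hFx _ y1'
    have F2' := hFx _ y2'
    rw [hg1 _ z1, ← hbd] at F1
    rw [hg1 _ z2, ← hbd] at F2
    rw [hg2 _ z1, zero_mul] at F1'
    rw [hg2 _ z2, zero_mul] at F2'
    have P1 : P z.1 = b z.1 * dPh z.1 := by
      rw [hPd]
      show g z.1 * dPh z.1 = _
      rw [hg1 _ z1, hbd]
    have P1' : P (2 * π - z.1) = 0 := by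
      rw [hPd]
      show g (2 * π - z.1) * dPh (2 * π - z.1) = _
      rw [hg2 _ z1, zero_mul]
    have c1 : ct (2 * π - z.1 - z.2) = -ct (z.1 + z.2) := by
      rw [← JKer_ct_sub]
      congr 1
      ring
    have c2 : ct (z.1 - (2 * π - z.2)) = ct (z.1 + z.2) := by
      rw [← JKer_ct_sub' (z.1 + z.2)]
      congr 1
      ring
    have l1 : Real.log (Real.sin ((z.1 - (2 * π - z.2)) / 2)) =
        Real.log (Real.sin ((z.1 + z.2) / 2)) := by
      rw [show (z.1 - (2 * π - z.2)) / 2 = (z.1 + z.2) / 2 - π by ring, Real.sin_sub_pi,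
        Real.log_neg_eq_log]
    have l2 : Real.log (Real.sin ((2 * π - z.2) / 2)) = Real.log (Real.sin (z.2 / 2)) := by
      rw [show (2 * π - z.2) / 2 = π - z.2 / 2 by ring, Real.sin_pi_sub]
    unfold fold4
    rw [hHd, hTd, hGd, hB1, hB2, hB3]
    beta_reduce
    rw [F1, F2, F1', F2', P1, P1', hrefl z.1, hrefl z.2, c1, c2, l1, l2, hWbn z.1, hWbn z.2]
    unfold Lg
    ring
  have hA : IntegrableOn (fun z : ℝ × ℝ => fold4 H z.1 z.2) Sq1 := f1
  have m1 : Measurable (fun z : ℝ × ℝ => z.1) := measurable_fst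
  have m2 : Measurable (fun z : ℝ × ℝ => z.2) := measurable_snd
  have iB1 : IntegrableOn B1 Sq1 := by
    refine JKer_piece hA (S := {z | z.1 < l ∧ z.2 < l}) ?_ (fun z hz hS => ?_) (fun z hz hS => ?_)
    · exact (measurableSet_lt m1 measurable_const).inter (measurableSet_lt m2 measurable_const)
    · have a1 := hn0 _ hz.1 hS.1
      have a2 := hn0 _ hz.2 hS.2
      show B1 z = fold4 H z.1 z.2
      rw [hfold z hz, hB2, hB3]
      beta_reduce
      rw [a1, a2]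
      ring
    · rw [hB1]
      beta_reduce
      rcases lt_or_ge z.1 l with h1 | h1
      · rcases lt_or_ge z.2 l with h2 | h2
        · exact absurd ⟨h1, h2⟩ hS
        · rw [hb0 _ hz.2 h2]; ring
      · rw [hb0 _ hz.1 h1]; ring
  have iB2 : IntegrableOn B2 Sq1 := by
    refine JKer_piece hA (S := {z | z.1 < l ∧ l ≤ z.2}) ?_ (fun z hz hS => ?_) (fun z hz hS => ?_)
    · exact (measurableSet_lt m1 measurable_const).inter (measurableSet_le measurable_const m2)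
    · have a1 := hn0 _ hz.1 hS.1
      have a2 := hb0 _ hz.2 hS.2
      show B2 z = fold4 H z.1 z.2
      rw [hfold z hz, hB1, hB3]
      beta_reduce
      rw [a1, a2]
      ring
    · rw [hB2]
      beta_reduce
      rcases lt_or_ge z.1 l with h1 | h1
      · rcases lt_or_ge z.2 l with h2 | h2
        · rw [hn0 _ hz.2 h2]; ring
        · exact absurd ⟨h1, h2⟩ hS
      · rw [hb0 _ hz.1 h1]; ring
  have iB3 : IntegrableOn B3 Sq1 := by
    refine JKer_piece hA (S := {z | l ≤ z.1 ∧ z.2 < l}) ?_ (fun z hz hS => ?_) (fun z hz hS => ?_)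
    · exact (measurableSet_le measurable_const m1).inter (measurableSet_lt m2 measurable_const)
    · have a1 := hb0 _ hz.1 hS.1
      have a2 := hn0 _ hz.2 hS.2
      show B3 z = fold4 H z.1 z.2
      rw [hfold z hz, hB1, hB2]
      beta_reduce
      rw [a1, a2]
      ring
    · rw [hB3]
      beta_reduce
      rcases lt_or_ge z.1 l with h1 | h1
      · rw [hn0 _ hz.1 h1]; ring
      · rcases lt_or_ge z.2 l with h2 | h2
        · exact absurd ⟨h1, h2⟩ hS
        · rw [hb0 _ hz.2 h2]; ring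
  obtain ⟨jB1, sB1⟩ := JKer_swap iB1
  obtain ⟨jB3, sB3⟩ := JKer_swap iB3
  have hLg : ∀ x y, Lg y x = Lg x y := by
    intro x y
    unfold Lg
    rw [show (y - x) / 2 = -((x - y) / 2) by ring, Real.sin_neg, Real.log_neg_eq_log, add_comm y x]
  have hct : ∀ x y, ct (y - x) = -ct (x - y) := by
    intro x y
    rw [← SC_ct_neg]
    congr 1
    ring
  have e1 : ∀ z ∈ Sq1, bF W z.1 * bF W z.2 * kJb z.1 z.2 = 1 / 2 * (B1 z + B1 z.swap) := by
    intro z hz
    rw [hB1, ← hbd]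
    show _ = 1 / 2 * (b z.1 * b z.2 *
      (1 / (2 * π) * ((Ph z.1 - Ph z.2) * ct (z.1 - z.2) - (Ph z.1 + Ph z.2) * ct (z.1 + z.2)) +
        1 / π * (dPh z.1 * Lg z.1 z.2)) + b z.2 * b z.1 *
      (1 / (2 * π) * ((Ph z.2 - Ph z.1) * ct (z.2 - z.1) - (Ph z.2 + Ph z.1) * ct (z.2 + z.1)) +
        1 / π * (dPh z.2 * Lg z.2 z.1)))
    rw [hLg z.1 z.2, hct z.1 z.2, add_comm z.2 z.1]
    unfold kJb
    ring
  have e2 : ∀ z ∈ Sq1, bF W z.1 * bR W z.2 * kJn z.1 z.2 = B2 z + B3 z.swap := by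
    intro z hz
    rw [hB2, hB3, ← hbd, ← hnd]
    show _ = b z.1 * n z.2 *
      (1 / (2 * π) * (Ph z.1 * (ct (z.1 + z.2) - ct (z.1 - z.2))) -
        1 / π * (dPh z.1 * Lg z.1 z.2)) + n z.2 * b z.1 *
      (1 / (2 * π) * (Ph z.1 * (ct (z.2 - z.1) + ct (z.2 + z.1))))
    rw [hct z.1 z.2, add_comm z.2 z.1]
    unfold kJn
    ring
  have k1 : IntegrableOn (fun z : ℝ × ℝ => 1 / 2 * (B1 z + B1 z.swap)) Sq1 :=
    (iB1.add jB1).const_mul _
  have k2 : IntegrableOn (fun z : ℝ × ℝ => B2 z + B3 z.swap) Sq1 := iB2.add jB3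
  refine ⟨k1.congr_fun (fun z hz => (e1 z hz).symm) JKer_ms,
    k2.congr_fun (fun z hz => (e2 z hz).symm) JKer_ms, ?_⟩
  have q1 : ∫ z in Sq1, bF W z.1 * bF W z.2 * kJb z.1 z.2 = ∫ z in Sq1, B1 z := by
    rw [setIntegral_congr_fun JKer_ms e1, integral_const_mul, integral_add iB1 jB1, sB1]
    ring
  have q2 : ∫ z in Sq1, bF W z.1 * bR W z.2 * kJn z.1 z.2 =
      (∫ z in Sq1, B2 z) + ∫ z in Sq1, B3 z := by
    rw [setIntegral_congr_fun JKer_ms e2, integral_add iB2 jB3, sB3]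
  have q3 : ∫ z in Sq1, fold4 H z.1 z.2 =
      (∫ z in Sq1, B1 z) + (∫ z in Sq1, B2 z) + ∫ z in Sq1, B3 z := by
    have i12 : IntegrableOn (fun z => B1 z + B2 z) Sq1 := iB1.add iB2
    rw [setIntegral_congr_fun JKer_ms hfold, integral_add i12 iB3, integral_add iB1 iB2]
  rw [hJH, f2, q1, q2, q3]
  ring

end Pool.Agent.H90.DC
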