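import Pool.Agent.H90.DC.Defs
import Pool.Agent.H51.DG.SG
import Pool.Agent.H51.DG.SF

/-!
# DC job 5: kernel form of `EF`

Adapt `Pool/Agent/H51/DG/SG.lean` (read it first): its proof only uses that `W` is `2π`-periodic,
Lipschitz and `W 0 = W l = W (2π) = 0`, `0 < l < 2π` (not the signs).  Structure `ZrC` below.
(1) `EK_int0`: `(x,y) ↦ W x * W y * (cos((x-y)/2)/sin((x-y)/2)³)` is integrable on `(0,l) × (l,2π)`.
(2) `EK_double`: for `W ∈ C²`: `EF W l = -(1/2π) ∫∫_{(0,l)×(l,2π)} W x W y cos((x-y)/2)/sin((x-y)/2)³`: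
  `HT_fubini` with `F = 1_{(0,l)} W'` (periodic extension, as in SG), `V = W'`:
  `∫_0^l W' HT W' = (1/4π) ∫∫ (F(x)V(y) - F(y)V(x)) ct(x-y) = (1/2π) ∫∫_{(0,l)×(l,2π)} W'(x)W'(y) ct(x-y)`,
  and `∫∫_{(0,l)×(l,2π)} W' W' ct = -(1/2) ∫∫ W W cos/sin³` (`SG_double`).
  (Shorter way: `E2 W l = 4 ∫_0^l W' HT W'` because `∫_0^{2π} W' HT W' = 0`, and `E2_kernel` in the form
  `E2 W l = -∫_{Sq2} W x W y SE l x y`.)
(3) For `OddC W l`: split `(l,2π)` in `(l,π)` and `(π,2π)` and reflect `y ↦ 2π - y` in the second part: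
  `W (2π-y) = -W y`, `cos((x-2π+y)/2)/sin³ = csk (x+y)`; on `(0,l)` `W = bF W`, on `(l,π)` `W = -bR W`,
  `bF W = 0` on `(l,π)`, `bR W = 0` on `(0,l)`; `cos((x-y)/2)/sin((x-y)/2)³ = -csk (y-x)`.  So
  `EF W l = (1/2π) ∫∫_{Sq1} b(x) b(y) csk(x+y) - (1/2π) ∫∫_{Sq1} b(x) n(y) (csk(x+y) + csk(y-x))`.
  (`y ∈ (0,π)` in the reflected part: `W x W (2π-y) = -b(x)(b(y) - n(y))`.)
`EFk_int` (integrability of both parts for Lipschitz `W`): from (1); or directly: `|W x| ≤ K min(x, |l-x|)`,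
`|W y| ≤ K min(|y-l|, π-y)`, `|csk z| ≤ π³/z³` for `0 < z ≤ π`, `csk` bounded for `x, y ≤ l`, `x+y ≥ π` etc.
-/

set_option autoImplicit false
open Real Set MeasureTheory Filter Topology

namespace Pool.Agent.H90.DC
open Pool.Agent.H45.FL Pool.Agent.H51.DG Pool.Agent.H45.DY

/-- what the computation uses -/
structure EKer_Zr (W : ℝ → ℝ) (l : ℝ) : Prop where
  per : Function.Periodic W (2 * π)
  l0 : 0 < l
  l1 : l < 2 * π
  z0 : W 0 = 0
  zl : W l = 0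

theorem EKer_pt {W : ℝ → ℝ} {l K : ℝ} (h : EKer_Zr W l) (_hK : Lip K W) :
    W 0 = 0 ∧ W l = 0 ∧ W (2 * π) = 0 := by
  have e : W (2 * π) = W 0 := by
    have := h.per 0
    rwa [zero_add] at this
  exact ⟨h.z0, h.zl, e.trans h.z0⟩

/-- pointwise bounds on the rectangle -/
theorem EKer_bnd {W : ℝ → ℝ} {l K x y : ℝ} (h : EKer_Zr W l) (hK : Lip K W) (hx : x ∈ Ioo (0:ℝ) l)
    (hy : y ∈ Ioo l (2 * π)) :
    |W x| ≤ K * min (y - x) (2 * π - (y - x)) ∧ |W y| ≤ K * min (y - x) (2 * π - (y - x)) := by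
  obtain ⟨w0, wl, wp⟩ := EKer_pt h hK
  have hK0 := hK.nonneg
  have ax : |W x| ≤ K * x := by
    have := hK x 0
    rwa [w0, sub_zero, sub_zero, abs_of_pos hx.1] at this
  have ax2 : |W x| ≤ K * (l - x) := by
    have := hK x l
    rw [wl, sub_zero, abs_sub_comm, abs_of_pos (sub_pos.2 hx.2)] at this
    exact this
  have ay : |W y| ≤ K * (2 * π - y) := by
    have := hK y (2 * π)
    rw [wp, sub_zero, abs_sub_comm, abs_of_pos (sub_pos.2 hy.2)] at this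
    exact this
  have ay2 : |W y| ≤ K * (y - l) := by
    have := hK y l
    rwa [wl, sub_zero, abs_of_pos (sub_pos.2 hy.1)] at this
  have b1 := hx.1
  have b2 := hx.2
  have b3 := hy.1
  have b4 := hy.2
  rcases min_choice (y - x) (2 * π - (y - x)) with hm | hm
  · rw [hm]
    constructor
    · exact ax2.trans (mul_le_mul_of_nonneg_left (by linarith) hK0)
    · exact ay2.trans (mul_le_mul_of_nonneg_left (by linarith) hK0)
  · rw [hm]
    constructor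
    · exact ax.trans (mul_le_mul_of_nonneg_left (by linarith) hK0)
    · exact ay.trans (mul_le_mul_of_nonneg_left (by linarith) hK0)

/-- first integration by parts -/
theorem EKer_parts1 {W : ℝ → ℝ} {l K : ℝ} (h : EKer_Zr W l) (hK : Lip K W) (hd : Differentiable ℝ W)
    (hc : Continuous (deriv W)) {x : ℝ} (hx : x ∈ Ioo (0:ℝ) l) :
    ∫ y in l..(2 * π), deriv W y * ct (x - y) =
      -(1 / 2) * ∫ y in l..(2 * π), W y * (1 / Real.sin ((x - y) / 2) ^ 2) := by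
  obtain ⟨w0, wl, wp⟩ := EKer_pt h hK
  have hWc := hK.continuous
  have hp := Real.pi_pos
  have hne : ∀ y ∈ Icc l (2 * π), Real.sin ((x - y) / 2) ≠ 0 := by
    intro y hy
    have h1 : 0 < Real.sin ((y - x) / 2) := by
      apply Real.sin_pos_of_pos_of_lt_pi
      · linarith [hx.2, hy.1]
      · linarith [hx.1, hy.2]
    have e : Real.sin ((x - y) / 2) = -Real.sin ((y - x) / 2) := by
      rw [← Real.sin_neg]
      congr 1
      ring
    rw [e]
    exact neg_ne_zero.2 h1.ne'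
  have hct : ContinuousOn (fun y => ct (x - y)) (Icc l (2 * π)) := by
    unfold ct
    refine ContinuousOn.div ?_ ?_ hne
    · exact (by fun_prop : Continuous fun y : ℝ => Real.cos ((x - y) / 2)).continuousOn
    · exact (by fun_prop : Continuous fun y : ℝ => Real.sin ((x - y) / 2)).continuousOn
  have hsq : ContinuousOn (fun y => 1 / Real.sin ((x - y) / 2) ^ 2) (Icc l (2 * π)) := by
    refine ContinuousOn.div continuousOn_const ?_ (fun y hy => pow_ne_zero 2 (hne y hy))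
    exact (by fun_prop : Continuous fun y : ℝ => Real.sin ((x - y) / 2) ^ 2).continuousOn
  have i1 : IntervalIntegrable (fun y => deriv W y * ct (x - y)) volume l (2 * π) := by
    apply ContinuousOn.intervalIntegrable
    rw [uIcc_of_le h.l1.le]
    exact hc.continuousOn.mul hct
  have i2 : IntervalIntegrable (fun y => W y * (1 / Real.sin ((x - y) / 2) ^ 2)) volume
      l (2 * π) := by
    apply ContinuousOn.intervalIntegrable
    rw [uIcc_of_le h.l1.le]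
    exact hWc.continuousOn.mul hsq
  have i3 := i1.add (i2.const_mul (1 / 2))
  have hder : ∀ y ∈ uIcc l (2 * π), HasDerivAt (fun y => W y * ct (x - y))
      (deriv W y * ct (x - y) + 1 / 2 * (W y * (1 / Real.sin ((x - y) / 2) ^ 2))) y := by
    intro y hy
    rw [uIcc_of_le h.l1.le] at hy
    have d1 : HasDerivAt (fun y : ℝ => x - y) (-1) y := by
      simpa using (hasDerivAt_id y).const_sub x
    have d2 := (SG_ct_deriv (hne y hy)).comp y d1
    have d3 := (hd y).hasDerivAt.mul d2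
    have e : deriv W y * ct (x - y) + 1 / 2 * (W y * (1 / Real.sin ((x - y) / 2) ^ 2)) =
        deriv W y * ct (x - y) + W y * (-(1 / 2) * (1 / Real.sin ((x - y) / 2) ^ 2) * -1) := by
      ring
    rw [e]
    exact d3
  have hF := intervalIntegral.integral_eq_sub_of_hasDerivAt hder i3
  rw [wl, wp, zero_mul, zero_mul, sub_zero,
    intervalIntegral.integral_add i1 (i2.const_mul (1 / 2)),
    intervalIntegral.integral_const_mul] at hF
  linarith

/-- second integration by parts -/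
theorem EKer_parts2 {W : ℝ → ℝ} {l K : ℝ} (h : EKer_Zr W l) (hK : Lip K W) (hd : Differentiable ℝ W)
    (hc : Continuous (deriv W)) {y : ℝ} (hy : y ∈ Ioo l (2 * π)) :
    ∫ x in (0:ℝ)..l, deriv W x * (1 / Real.sin ((x - y) / 2) ^ 2) =
      ∫ x in (0:ℝ)..l, W x * (Real.cos ((x - y) / 2) / Real.sin ((x - y) / 2) ^ 3) := by
  obtain ⟨w0, wl, wp⟩ := EKer_pt h hK
  have hWc := hK.continuous
  have hp := Real.pi_pos
  have hne : ∀ x ∈ Icc (0:ℝ) l, Real.sin ((x - y) / 2) ≠ 0 := by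
    intro x hx
    have h1 : 0 < Real.sin ((y - x) / 2) := by
      apply Real.sin_pos_of_pos_of_lt_pi
      · linarith [hx.2, hy.1]
      · linarith [hx.1, hy.2]
    have e : Real.sin ((x - y) / 2) = -Real.sin ((y - x) / 2) := by
      rw [← Real.sin_neg]
      congr 1
      ring
    rw [e]
    exact neg_ne_zero.2 h1.ne'
  have hcb : ContinuousOn (fun x => Real.cos ((x - y) / 2) / Real.sin ((x - y) / 2) ^ 3)
      (Icc (0:ℝ) l) := by
    refine ContinuousOn.div ?_ ?_ (fun x hx => pow_ne_zero 3 (hne x hx))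
    · exact (by fun_prop : Continuous fun x : ℝ => Real.cos ((x - y) / 2)).continuousOn
    · exact (by fun_prop : Continuous fun x : ℝ => Real.sin ((x - y) / 2) ^ 3).continuousOn
  have hsq : ContinuousOn (fun x => 1 / Real.sin ((x - y) / 2) ^ 2) (Icc (0:ℝ) l) := by
    refine ContinuousOn.div continuousOn_const ?_ (fun x hx => pow_ne_zero 2 (hne x hx))
    exact (by fun_prop : Continuous fun x : ℝ => Real.sin ((x - y) / 2) ^ 2).continuousOn
  have i1 : IntervalIntegrable (fun x => deriv W x * (1 / Real.sin ((x - y) / 2) ^ 2)) volume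
      0 l := by
    apply ContinuousOn.intervalIntegrable
    rw [uIcc_of_le h.l0.le]
    exact hc.continuousOn.mul hsq
  have i2 : IntervalIntegrable (fun x => W x * (Real.cos ((x - y) / 2) /
      Real.sin ((x - y) / 2) ^ 3)) volume 0 l := by
    apply ContinuousOn.intervalIntegrable
    rw [uIcc_of_le h.l0.le]
    exact hWc.continuousOn.mul hcb
  have i3 := i1.sub i2
  have hder : ∀ x ∈ uIcc (0:ℝ) l, HasDerivAt (fun x => W x * (1 / Real.sin ((x - y) / 2) ^ 2))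
      (deriv W x * (1 / Real.sin ((x - y) / 2) ^ 2) -
        W x * (Real.cos ((x - y) / 2) / Real.sin ((x - y) / 2) ^ 3)) x := by
    intro x hx
    rw [uIcc_of_le h.l0.le] at hx
    have d1 : HasDerivAt (fun x : ℝ => x - y) 1 x := (hasDerivAt_id x).sub_const y
    have d2 := (SG_isq_deriv (hne x hx)).comp x d1
    have d3 := (hd x).hasDerivAt.mul d2
    have e : deriv W x * (1 / Real.sin ((x - y) / 2) ^ 2) -
        W x * (Real.cos ((x - y) / 2) / Real.sin ((x - y) / 2) ^ 3) =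
        deriv W x * (1 / Real.sin ((x - y) / 2) ^ 2) +
        W x * (-(Real.cos ((x - y) / 2) / Real.sin ((x - y) / 2) ^ 3) * 1) := by
      ring
    rw [e]
    exact d3
  have hF := intervalIntegral.integral_eq_sub_of_hasDerivAt hder i3
  rw [w0, wl, zero_mul, zero_mul, sub_zero, intervalIntegral.integral_sub i1 i2] at hF
  linarith

theorem EKer_double {W : ℝ → ℝ} {l K K' : ℝ} (h : EKer_Zr W l) (hK : Lip K W)
    (hd : Differentiable ℝ W) (hc : Continuous (deriv W)) (hb : ∀ x, |deriv W x| ≤ K') :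
    Integrable (fun z : ℝ × ℝ => deriv W z.1 * deriv W z.2 * ct (z.1 - z.2))
      ((SG_mu l).prod (SG_nu l)) ∧
    ∫ z, deriv W z.1 * deriv W z.2 * ct (z.1 - z.2) ∂((SG_mu l).prod (SG_nu l)) =
      -(1 / 2) * ∫ z, W z.1 * W z.2 * (Real.cos ((z.1 - z.2) / 2) /
        Real.sin ((z.1 - z.2) / 2) ^ 3) ∂((SG_mu l).prod (SG_nu l)) := by
  have hp := Real.pi_pos
  have hWc := hK.continuous
  have hK0 := hK.nonneg
  have hK'0 : 0 ≤ K' := (abs_nonneg _).trans (hb 0)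
  have mW1 : Measurable (fun z : ℝ × ℝ => W z.1) := hWc.measurable.comp measurable_fst
  have mW2 : Measurable (fun z : ℝ × ℝ => W z.2) := hWc.measurable.comp measurable_snd
  have mV1 : Measurable (fun z : ℝ × ℝ => deriv W z.1) := hc.measurable.comp measurable_fst
  have mV2 : Measurable (fun z : ℝ × ℝ => deriv W z.2) := hc.measurable.comp measurable_snd
  have mct : Measurable (fun z : ℝ × ℝ => ct (z.1 - z.2)) :=
    SC_ct_meas.comp (measurable_fst.sub measurable_snd)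
  have msq : Measurable (fun z : ℝ × ℝ => 1 / Real.sin ((z.1 - z.2) / 2) ^ 2) := by fun_prop
  have mcb : Measurable (fun z : ℝ × ℝ => Real.cos ((z.1 - z.2) / 2) /
      Real.sin ((z.1 - z.2) / 2) ^ 3) := by fun_prop
  -- integrability of the three integrands
  have I1 : Integrable (fun z : ℝ × ℝ => deriv W z.1 * deriv W z.2 * ct (z.1 - z.2))
      ((SG_mu l).prod (SG_nu l)) := by
    refine SG_key h.l0 h.l1 ((mV1.mul mV2).mul mct) (C := K' * K' * π) (by positivity) ?_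
    intro x hx y hy
    obtain ⟨hm, hs, hne⟩ := SG_sin_xy hx hy
    have hinv := SG_inv_le hm hs
    show |deriv W x * deriv W y * ct (x - y)| ≤ _
    rw [abs_mul, abs_mul]
    have h1 : |ct (x - y)| ≤ |Real.sin ((x - y) / 2)|⁻¹ := by
      unfold ct
      rw [abs_div, ← one_div]
      exact div_le_div_of_nonneg_right (Real.abs_cos_le_one _) (abs_nonneg _)
    calc |deriv W x| * |deriv W y| * |ct (x - y)|
        ≤ (K' * K') * (π * (1 / min (y - x) (2 * π - (y - x)))) := by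
          refine mul_le_mul (mul_le_mul (hb x) (hb y) (abs_nonneg _) hK'0) (h1.trans hinv)
            (abs_nonneg _) (by positivity)
      _ = K' * K' * π * (1 / min (y - x) (2 * π - (y - x))) := by ring
  have I2 : Integrable (fun z : ℝ × ℝ => deriv W z.1 * W z.2 *
      (1 / Real.sin ((z.1 - z.2) / 2) ^ 2)) ((SG_mu l).prod (SG_nu l)) := by
    refine SG_key h.l0 h.l1 ((mV1.mul mW2).mul msq) (C := K' * K * π ^ 2) (by positivity) ?_
    intro x hx y hy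
    obtain ⟨hm, hs, hne⟩ := SG_sin_xy hx hy
    obtain ⟨bx, by'⟩ := EKer_bnd h hK hx hy
    have hinv := SG_inv_le hm hs
    show |deriv W x * W y * (1 / Real.sin ((x - y) / 2) ^ 2)| ≤ _
    set m := min (y - x) (2 * π - (y - x)) with hmdef
    have e : |1 / Real.sin ((x - y) / 2) ^ 2| = (|Real.sin ((x - y) / 2)|⁻¹) ^ 2 := by
      rw [abs_div, abs_one, abs_pow, one_div, inv_pow]
    rw [abs_mul, abs_mul, e]
    have ha0 : 0 ≤ |Real.sin ((x - y) / 2)|⁻¹ := by positivity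
    calc |deriv W x| * |W y| * (|Real.sin ((x - y) / 2)|⁻¹) ^ 2
        ≤ (K' * (K * m)) * (π * (1 / m)) ^ 2 := by
          refine mul_le_mul (mul_le_mul (hb x) by' (abs_nonneg _) hK'0)
            (pow_le_pow_left₀ ha0 hinv 2) (by positivity) (by positivity)
      _ = K' * K * π ^ 2 * (1 / m) := by field_simp
  have I3 : Integrable (fun z : ℝ × ℝ => W z.1 * W z.2 * (Real.cos ((z.1 - z.2) / 2) /
      Real.sin ((z.1 - z.2) / 2) ^ 3)) ((SG_mu l).prod (SG_nu l)) := by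
    refine SG_key h.l0 h.l1 ((mW1.mul mW2).mul mcb) (C := K * K * π ^ 3) (by positivity) ?_
    intro x hx y hy
    obtain ⟨hm, hs, hne⟩ := SG_sin_xy hx hy
    obtain ⟨bx, by'⟩ := EKer_bnd h hK hx hy
    have hinv := SG_inv_le hm hs
    show |W x * W y * (Real.cos ((x - y) / 2) / Real.sin ((x - y) / 2) ^ 3)| ≤ _
    set m := min (y - x) (2 * π - (y - x)) with hmdef
    have ha0 : 0 ≤ |Real.sin ((x - y) / 2)|⁻¹ := by positivity
    have e : |Real.cos ((x - y) / 2) / Real.sin ((x - y) / 2) ^ 3| ≤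
        (|Real.sin ((x - y) / 2)|⁻¹) ^ 3 := by
      rw [abs_div, abs_pow, inv_pow, ← one_div]
      exact div_le_div_of_nonneg_right (Real.abs_cos_le_one _) (by positivity)
    rw [abs_mul, abs_mul]
    calc |W x| * |W y| * |Real.cos ((x - y) / 2) / Real.sin ((x - y) / 2) ^ 3|
        ≤ ((K * m) * (K * m)) * (π * (1 / m)) ^ 3 := by
          refine mul_le_mul (mul_le_mul bx by' (abs_nonneg _) (by positivity))
            (e.trans (pow_le_pow_left₀ ha0 hinv 3)) (abs_nonneg _) (by positivity)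
      _ = K * K * π ^ 3 * (1 / m) := by field_simp
  refine ⟨I1, ?_⟩
  -- step 1
  have s1 : ∫ z, deriv W z.1 * deriv W z.2 * ct (z.1 - z.2) ∂((SG_mu l).prod (SG_nu l)) =
      -(1 / 2) * ∫ z, deriv W z.1 * W z.2 * (1 / Real.sin ((z.1 - z.2) / 2) ^ 2)
        ∂((SG_mu l).prod (SG_nu l)) := by
    rw [integral_prod _ I1, integral_prod _ I2, ← integral_const_mul]
    unfold SG_mu
    refine setIntegral_congr_fun measurableSet_Ioo (fun x hx => ?_)
    show ∫ y, deriv W x * deriv W y * ct (x - y) ∂(SG_nu l) =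
      -(1 / 2) * ∫ y, deriv W x * W y * (1 / Real.sin ((x - y) / 2) ^ 2) ∂(SG_nu l)
    have e1 : ∫ y, deriv W x * deriv W y * ct (x - y) ∂(SG_nu l) =
        deriv W x * ∫ y in l..(2 * π), deriv W y * ct (x - y) := by
      rw [SG_nu_eq h.l1, ← intervalIntegral.integral_const_mul]
      congr 1
      funext y
      ring
    have e2 : ∫ y, deriv W x * W y * (1 / Real.sin ((x - y) / 2) ^ 2) ∂(SG_nu l) =
        deriv W x * ∫ y in l..(2 * π), W y * (1 / Real.sin ((x - y) / 2) ^ 2) := by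
      rw [SG_nu_eq h.l1, ← intervalIntegral.integral_const_mul]
      congr 1
      funext y
      ring
    rw [e1, e2, EKer_parts1 h hK hd hc hx]
    ring
  have s2 : ∫ z, deriv W z.1 * W z.2 * (1 / Real.sin ((z.1 - z.2) / 2) ^ 2)
        ∂((SG_mu l).prod (SG_nu l)) =
      ∫ z, W z.1 * W z.2 * (Real.cos ((z.1 - z.2) / 2) /
        Real.sin ((z.1 - z.2) / 2) ^ 3) ∂((SG_mu l).prod (SG_nu l)) := by
    rw [integral_prod_symm _ I2, integral_prod_symm _ I3]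
    unfold SG_nu
    refine setIntegral_congr_fun measurableSet_Ioo (fun y hy => ?_)
    show ∫ x, deriv W x * W y * (1 / Real.sin ((x - y) / 2) ^ 2) ∂(SG_mu l) =
      ∫ x, W x * W y * (Real.cos ((x - y) / 2) / Real.sin ((x - y) / 2) ^ 3) ∂(SG_mu l)
    have e1 : ∫ x, deriv W x * W y * (1 / Real.sin ((x - y) / 2) ^ 2) ∂(SG_mu l) =
        W y * ∫ x in (0:ℝ)..l, deriv W x * (1 / Real.sin ((x - y) / 2) ^ 2) := by
      rw [SG_mu_eq h.l0, ← intervalIntegral.integral_const_mul]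
      congr 1
      funext x
      ring
    have e2 : ∫ x, W x * W y * (Real.cos ((x - y) / 2) / Real.sin ((x - y) / 2) ^ 3) ∂(SG_mu l) =
        W y * ∫ x in (0:ℝ)..l, W x * (Real.cos ((x - y) / 2) / Real.sin ((x - y) / 2) ^ 3) := by
      rw [SG_mu_eq h.l0, ← intervalIntegral.integral_const_mul]
      congr 1
      funext x
      ring
    rw [e1, e2, EKer_parts2 h hK hd hc hy]
  rw [s1, s2]


/-- integrability of `W W cos/sin³` on `(0,l) × (l,2π)` -/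
theorem EKer_int0 {W : ℝ → ℝ} {l K : ℝ} (h : EKer_Zr W l) (hK : Lip K W) :
    Integrable (fun z : ℝ × ℝ => W z.1 * W z.2 * (Real.cos ((z.1 - z.2) / 2) /
      Real.sin ((z.1 - z.2) / 2) ^ 3)) ((SG_mu l).prod (SG_nu l)) := by
  have hp := Real.pi_pos
  have hWc := hK.continuous
  have hK0 := hK.nonneg
  have mW1 : Measurable (fun z : ℝ × ℝ => W z.1) := hWc.measurable.comp measurable_fst
  have mW2 : Measurable (fun z : ℝ × ℝ => W z.2) := hWc.measurable.comp measurable_snd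
  have mcb : Measurable (fun z : ℝ × ℝ => Real.cos ((z.1 - z.2) / 2) /
      Real.sin ((z.1 - z.2) / 2) ^ 3) := by fun_prop
  refine SG_key h.l0 h.l1 ((mW1.mul mW2).mul mcb) (C := K * K * π ^ 3) (by positivity) ?_
  intro x hx y hy
  obtain ⟨hm, hs, hne⟩ := SG_sin_xy hx hy
  obtain ⟨bx, by'⟩ := EKer_bnd h hK hx hy
  have hinv := SG_inv_le hm hs
  show |W x * W y * (Real.cos ((x - y) / 2) / Real.sin ((x - y) / 2) ^ 3)| ≤ _
  set m := min (y - x) (2 * π - (y - x)) with hmdef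
  have ha0 : 0 ≤ |Real.sin ((x - y) / 2)|⁻¹ := by positivity
  have e : |Real.cos ((x - y) / 2) / Real.sin ((x - y) / 2) ^ 3| ≤
      (|Real.sin ((x - y) / 2)|⁻¹) ^ 3 := by
    rw [abs_div, abs_pow, inv_pow, ← one_div]
    exact div_le_div_of_nonneg_right (Real.abs_cos_le_one _) (by positivity)
  rw [abs_mul, abs_mul]
  calc |W x| * |W y| * |Real.cos ((x - y) / 2) / Real.sin ((x - y) / 2) ^ 3|
      ≤ ((K * m) * (K * m)) * (π * (1 / m)) ^ 3 := by
        refine mul_le_mul (mul_le_mul bx by' (abs_nonneg _) (by positivity))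
          (e.trans (pow_le_pow_left₀ ha0 hinv 3)) (abs_nonneg _) (by positivity)
    _ = K * K * π ^ 3 * (1 / m) := by field_simp

theorem EKer_zr {W : ℝ → ℝ} {l : ℝ} (h : OddC W l) : EKer_Zr W l := by
  have hp := Real.pi_pos
  refine ⟨h.per, h.l0, by linarith [h.l1], ?_, ?_⟩
  · have h1 := h.odd 0
    rw [neg_zero] at h1
    linarith
  · exact le_antisymm (h.neg l ⟨le_rfl, h.l1.le⟩) (h.pos l ⟨h.l0.le, le_rfl⟩)

/-- the integrand -/
noncomputable def EKer_G (W : ℝ → ℝ) (z : ℝ × ℝ) : ℝ :=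
  W z.1 * W z.2 * (Real.cos ((z.1 - z.2) / 2) / Real.sin ((z.1 - z.2) / 2) ^ 3)

/-- the reflection of the second variable -/
noncomputable def EKer_R (z : ℝ × ℝ) : ℝ × ℝ := Prod.map (id : ℝ → ℝ) (fun x : ℝ => 2 * π - x) z

theorem EKer_Rmp : MeasurePreserving EKer_R (volume : Measure (ℝ × ℝ)) volume :=
  (MeasurePreserving.id volume).prod (Measure.measurePreserving_sub_left volume (2 * π))

theorem EKer_Rme : MeasurableEmbedding EKer_R :=
  MeasurableEmbedding.id.prodMap (MeasurableEquiv.subLeft (2 * π)).measurableEmbedding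

theorem EKer_Rpre (l : ℝ) : EKer_R ⁻¹' (Ioo (0:ℝ) l ×ˢ Ioo π (2 * π)) =
    Ioo (0:ℝ) l ×ˢ Ioo (0:ℝ) π := by
  ext z
  constructor
  · rintro ⟨h1, h2⟩
    have h3 : π < 2 * π - z.2 := h2.1
    have h4 : 2 * π - z.2 < 2 * π := h2.2
    exact ⟨h1, ⟨by linarith, by linarith⟩⟩
  · rintro ⟨h1, h2⟩
    have h3 : 0 < z.2 := h2.1
    have h4 : z.2 < π := h2.2
    refine ⟨h1, ?_, ?_⟩
    · show π < 2 * π - z.2
      linarith
    · show 2 * π - z.2 < 2 * π
      linarith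

theorem EKer_GR {W : ℝ → ℝ} {l : ℝ} (h : OddC W l) (z : ℝ × ℝ) :
    EKer_G W (EKer_R z) = -(W z.1 * W z.2 * csk (z.1 + z.2)) := by
  show W z.1 * W (2 * π - z.2) * (Real.cos ((z.1 - (2 * π - z.2)) / 2) /
    Real.sin ((z.1 - (2 * π - z.2)) / 2) ^ 3) = _
  have e1 : W (2 * π - z.2) = -W z.2 := by
    have h1 := h.per (-z.2)
    rw [h.odd z.2, neg_add_eq_sub] at h1
    exact h1
  have e2 : (z.1 - (2 * π - z.2)) / 2 = (z.1 + z.2) / 2 - π := by ring
  rw [e1, e2, Real.cos_sub_pi, Real.sin_sub_pi]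
  unfold csk
  rw [Odd.neg_pow (by decide), neg_div_neg_eq]
  ring

theorem EKer_G1 (W : ℝ → ℝ) (z : ℝ × ℝ) :
    EKer_G W z = -(W z.1 * W z.2 * csk (z.2 - z.1)) := by
  unfold EKer_G csk
  have e1 : (z.1 - z.2) / 2 = -((z.2 - z.1) / 2) := by ring
  rw [e1, Real.cos_neg, Real.sin_neg, Odd.neg_pow (by decide), div_neg]
  ring

theorem EKer_b1 {W : ℝ → ℝ} {l x : ℝ} (h : OddC W l) (hx : x ∈ Icc (0:ℝ) l) :
    bF W x = W x ∧ bR W x = 0 := by
  have h1 := h.pos x hx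
  unfold bF bR
  exact ⟨max_eq_left h1, max_eq_right (by linarith)⟩

theorem EKer_b2 {W : ℝ → ℝ} {l x : ℝ} (h : OddC W l) (hx : x ∈ Icc l π) :
    bF W x = 0 ∧ bR W x = -W x := by
  have h1 := h.neg x hx
  unfold bF bR
  exact ⟨max_eq_right h1, max_eq_left (by linarith)⟩

theorem EKer_ae {l : ℝ} (h1 : l < π) :
    (Ioo l (2 * π)) =ᵐ[volume] (Ioo l π ∪ Ioo π (2 * π) : Set ℝ) := by
  have hpi := Real.pi_pos
  have h2 : Ioo l (2 * π) = Ioo l π ∪ Ico π (2 * π) :=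
    (Ioo_union_Ico_eq_Ioo h1 (by linarith)).symm
  rw [h2]
  exact (ae_eq_refl _).union Ioo_ae_eq_Ico.symm

/-- the three elementary integrals -/
theorem EKer_parts {W : ℝ → ℝ} {l K : ℝ} (h : OddC W l) (hK : Lip K W) :
    IntegrableOn (fun z : ℝ × ℝ => bF W z.1 * bR W z.2 * csk (z.2 - z.1)) Sq1 ∧
    IntegrableOn (fun z : ℝ × ℝ => bF W z.1 * bF W z.2 * csk (z.1 + z.2)) Sq1 ∧
    IntegrableOn (fun z : ℝ × ℝ => bF W z.1 * bR W z.2 * csk (z.1 + z.2)) Sq1 ∧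
    ∫ z, W z.1 * W z.2 * (Real.cos ((z.1 - z.2) / 2) / Real.sin ((z.1 - z.2) / 2) ^ 3)
        ∂((SG_mu l).prod (SG_nu l)) =
      (∫ z in Sq1, bF W z.1 * bR W z.2 * csk (z.2 - z.1)) -
      (∫ z in Sq1, bF W z.1 * bF W z.2 * csk (z.1 + z.2)) +
      ∫ z in Sq1, bF W z.1 * bR W z.2 * csk (z.1 + z.2) := by
  have hp := Real.pi_pos
  have hl0 := h.l0
  have hl1 := h.l1
  have hI := EKer_int0 (EKer_zr h) hK
  rw [SG_prod_eq] at hI
  have hIG : IntegrableOn (EKer_G W) (Ioo (0:ℝ) l ×ˢ Ioo l (2 * π)) := hI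
  have hS : (Ioo (0:ℝ) l ×ˢ Ioo l (2 * π) : Set (ℝ × ℝ)) =ᵐ[volume]
      ((Ioo (0:ℝ) l ×ˢ Ioo l π) ∪ (Ioo (0:ℝ) l ×ˢ Ioo π (2 * π)) : Set (ℝ × ℝ)) := by
    rw [← Set.prod_union]
    exact Measure.set_prod_ae_eq (ae_eq_refl _) (EKer_ae hl1)
  have hd : Disjoint (Ioo (0:ℝ) l ×ˢ Ioo l π) (Ioo (0:ℝ) l ×ˢ Ioo π (2 * π)) := by
    refine Set.disjoint_prod.2 (Or.inr ?_)
    exact Set.disjoint_left.2 fun _ h1 h2 => absurd (h1.2.trans h2.1) (lt_irrefl _)
  have hIU := hIG.congr_set_ae hS.symm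
  have i1 : IntegrableOn (EKer_G W) (Ioo (0:ℝ) l ×ˢ Ioo l π) := hIU.mono_set subset_union_left
  have i2 : IntegrableOn (EKer_G W) (Ioo (0:ℝ) l ×ˢ Ioo π (2 * π)) :=
    hIU.mono_set subset_union_right
  have i3 : IntegrableOn (EKer_G W ∘ EKer_R) (Ioo (0:ℝ) l ×ˢ Ioo (0:ℝ) π) := by
    rw [← EKer_Rpre]
    exact (EKer_Rmp.integrableOn_comp_preimage EKer_Rme).2 i2
  have mS : MeasurableSet Sq1 := measurableSet_Ioo.prod measurableSet_Ioo
  have m1 : MeasurableSet (Ioo (0:ℝ) l ×ˢ Ioo l π) := measurableSet_Ioo.prod measurableSet_Ioo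
  have m2 : MeasurableSet (Ioo (0:ℝ) l ×ˢ Ioo (0:ℝ) π) :=
    measurableSet_Ioo.prod measurableSet_Ioo
  have m3 : MeasurableSet (Ioo (0:ℝ) l ×ˢ Ioo (0:ℝ) l) :=
    measurableSet_Ioo.prod measurableSet_Ioo
  have s1 : (Ioo (0:ℝ) l ×ˢ Ioo l π) ⊆ Sq1 := by
    rintro z ⟨⟨a, b⟩, ⟨c, d⟩⟩
    exact ⟨⟨a, b.trans hl1⟩, ⟨hl0.trans c, d⟩⟩
  have s2 : (Ioo (0:ℝ) l ×ˢ Ioo (0:ℝ) π) ⊆ Sq1 := by
    rintro z ⟨⟨a, b⟩, ⟨c, d⟩⟩
    exact ⟨⟨a, b.trans hl1⟩, ⟨c, d⟩⟩
  have s3 : (Ioo (0:ℝ) l ×ˢ Ioo (0:ℝ) l) ⊆ Sq1 := by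
    rintro z ⟨⟨a, b⟩, ⟨c, d⟩⟩
    exact ⟨⟨a, b.trans hl1⟩, ⟨c, d.trans hl1⟩⟩
  have s4 : (Ioo (0:ℝ) l ×ˢ Ioo (0:ℝ) l) ⊆ (Ioo (0:ℝ) l ×ˢ Ioo (0:ℝ) π) := by
    rintro z ⟨⟨a, b⟩, ⟨c, d⟩⟩
    exact ⟨⟨a, b⟩, ⟨c, d.trans hl1⟩⟩
  have s5 : (Ioo (0:ℝ) l ×ˢ Ioo l π) ⊆ (Ioo (0:ℝ) l ×ˢ Ioo (0:ℝ) π) := by
    rintro z ⟨⟨a, b⟩, ⟨c, d⟩⟩
    exact ⟨⟨a, b⟩, ⟨hl0.trans c, d⟩⟩
  -- vanishing outside
  have v1 : ∀ k : ℝ × ℝ → ℝ, ∀ z ∈ Sq1 \ (Ioo (0:ℝ) l ×ˢ Ioo l π),
      bF W z.1 * bR W z.2 * k z = 0 := by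
    rintro k z ⟨⟨⟨a, b⟩, ⟨c, d⟩⟩, hz⟩
    by_cases h1 : z.1 < l
    · have h2 : z.2 ≤ l := by
        by_contra h3
        exact hz ⟨⟨a, h1⟩, ⟨not_le.1 h3, d⟩⟩
      rw [(EKer_b1 h ⟨c.le, h2⟩).2]
      ring
    · rw [(EKer_b2 h ⟨not_lt.1 h1, b.le⟩).1]
      ring
  have v2 : ∀ k : ℝ × ℝ → ℝ, ∀ z ∈ Sq1 \ (Ioo (0:ℝ) l ×ˢ Ioo (0:ℝ) π),
      bF W z.1 * bF W z.2 * k z = 0 := by
    rintro k z ⟨⟨⟨a, b⟩, ⟨c, d⟩⟩, hz⟩
    by_cases h1 : z.1 < l
    · exact absurd ⟨⟨a, h1⟩, ⟨c, d⟩⟩ hz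
    · rw [(EKer_b2 h ⟨not_lt.1 h1, b.le⟩).1]
      ring
  have v3 : ∀ k : ℝ × ℝ → ℝ, ∀ z ∈ Sq1 \ (Ioo (0:ℝ) l ×ˢ Ioo (0:ℝ) π),
      bF W z.1 * bR W z.2 * k z = 0 := by
    rintro k z ⟨⟨⟨a, b⟩, ⟨c, d⟩⟩, hz⟩
    by_cases h1 : z.1 < l
    · exact absurd ⟨⟨a, h1⟩, ⟨c, d⟩⟩ hz
    · rw [(EKer_b2 h ⟨not_lt.1 h1, b.le⟩).1]
      ring
  -- first function
  have f1 : ∀ z ∈ Ioo (0:ℝ) l ×ˢ Ioo l π,
      EKer_G W z = bF W z.1 * bR W z.2 * csk (z.2 - z.1) := by
    rintro z ⟨⟨a, b⟩, ⟨c, d⟩⟩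
    rw [EKer_G1, (EKer_b1 h ⟨a.le, b.le⟩).1, (EKer_b2 h ⟨c.le, d.le⟩).2]
    ring
  have j1 : IntegrableOn (fun z : ℝ × ℝ => bF W z.1 * bR W z.2 * csk (z.2 - z.1))
      (Ioo (0:ℝ) l ×ˢ Ioo l π) := i1.congr_fun f1 m1
  have k1 : IntegrableOn (fun z : ℝ × ℝ => bF W z.1 * bR W z.2 * csk (z.2 - z.1)) Sq1 :=
    j1.of_forall_sdiff_eq_zero mS (v1 _)
  have n1 : ∫ z in Ioo (0:ℝ) l ×ˢ Ioo l π, EKer_G W z =
      ∫ z in Sq1, bF W z.1 * bR W z.2 * csk (z.2 - z.1) := by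
    rw [setIntegral_eq_of_subset_of_forall_sdiff_eq_zero mS s1 (v1 _)]
    exact setIntegral_congr_fun m1 f1
  -- second function
  have f2 : ∀ z ∈ Ioo (0:ℝ) l ×ˢ Ioo (0:ℝ) π,
      (EKer_G W ∘ EKer_R) z = bF W z.1 * bR W z.2 * csk (z.1 + z.2) -
        bF W z.1 * bF W z.2 * csk (z.1 + z.2) := by
    rintro z ⟨⟨a, b⟩, ⟨c, d⟩⟩
    have e0 : (EKer_G W ∘ EKer_R) z = -(W z.1 * W z.2 * csk (z.1 + z.2)) := EKer_GR h z
    rw [e0, (EKer_b1 h ⟨a.le, b.le⟩).1]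
    rcases le_total z.2 l with h1 | h1
    · rw [(EKer_b1 h ⟨c.le, h1⟩).1, (EKer_b1 h ⟨c.le, h1⟩).2]
      ring
    · rw [(EKer_b2 h ⟨h1, d.le⟩).1, (EKer_b2 h ⟨h1, d.le⟩).2]
      ring
  have j2 : IntegrableOn (fun z : ℝ × ℝ => bF W z.1 * bF W z.2 * csk (z.1 + z.2))
      (Ioo (0:ℝ) l ×ˢ Ioo (0:ℝ) l) := by
    have q := (i3.mono_set s4).neg
    refine q.congr_fun ?_ m3
    rintro z ⟨⟨a, b⟩, ⟨c, d⟩⟩
    show -((EKer_G W ∘ EKer_R) z) = bF W z.1 * bF W z.2 * csk (z.1 + z.2)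
    rw [f2 z ⟨⟨a, b⟩, ⟨c, d.trans hl1⟩⟩, (EKer_b1 h ⟨c.le, d.le⟩).2]
    ring
  have v4 : ∀ z ∈ Sq1 \ (Ioo (0:ℝ) l ×ˢ Ioo (0:ℝ) l),
      bF W z.1 * bF W z.2 * csk (z.1 + z.2) = 0 := by
    rintro z ⟨⟨⟨a, b⟩, ⟨c, d⟩⟩, hz⟩
    by_cases h1 : z.1 < l
    · have h2 : l ≤ z.2 := by
        by_contra h3
        exact hz ⟨⟨a, h1⟩, ⟨c, not_le.1 h3⟩⟩
      rw [(EKer_b2 h ⟨h2, d.le⟩).1]
      ring
    · rw [(EKer_b2 h ⟨not_lt.1 h1, b.le⟩).1]
      ring
  have k2 : IntegrableOn (fun z : ℝ × ℝ => bF W z.1 * bF W z.2 * csk (z.1 + z.2)) Sq1 :=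
    j2.of_forall_sdiff_eq_zero mS v4
  have j3 : IntegrableOn (fun z : ℝ × ℝ => bF W z.1 * bR W z.2 * csk (z.1 + z.2))
      (Ioo (0:ℝ) l ×ˢ Ioo l π) := by
    have q := i3.mono_set s5
    refine q.congr_fun ?_ m1
    rintro z ⟨⟨a, b⟩, ⟨c, d⟩⟩
    show (EKer_G W ∘ EKer_R) z = bF W z.1 * bR W z.2 * csk (z.1 + z.2)
    rw [f2 z ⟨⟨a, b⟩, ⟨hl0.trans c, d⟩⟩, (EKer_b2 h ⟨c.le, d.le⟩).1]
    ring
  have k3 : IntegrableOn (fun z : ℝ × ℝ => bF W z.1 * bR W z.2 * csk (z.1 + z.2)) Sq1 :=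
    j3.of_forall_sdiff_eq_zero mS (v1 _)
  refine ⟨k1, k2, k3, ?_⟩
  have n2 : ∫ z in Ioo (0:ℝ) l ×ˢ Ioo π (2 * π), EKer_G W z =
      ∫ z in Ioo (0:ℝ) l ×ˢ Ioo (0:ℝ) π, (EKer_G W ∘ EKer_R) z := by
    rw [← EKer_Rpre]
    exact (EKer_Rmp.setIntegral_preimage_emb EKer_Rme (EKer_G W) _).symm
  have n3 : ∫ z in Ioo (0:ℝ) l ×ˢ Ioo (0:ℝ) π, (EKer_G W ∘ EKer_R) z =
      (∫ z in Sq1, bF W z.1 * bR W z.2 * csk (z.1 + z.2)) -
      ∫ z in Sq1, bF W z.1 * bF W z.2 * csk (z.1 + z.2) := by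
    rw [setIntegral_eq_of_subset_of_forall_sdiff_eq_zero mS s2 (v3 _),
      setIntegral_eq_of_subset_of_forall_sdiff_eq_zero mS s2 (v2 _),
      ← integral_sub (k3.mono_set s2) (k2.mono_set s2)]
    exact setIntegral_congr_fun m2 f2
  have n4 : ∫ z, W z.1 * W z.2 * (Real.cos ((z.1 - z.2) / 2) / Real.sin ((z.1 - z.2) / 2) ^ 3)
        ∂((SG_mu l).prod (SG_nu l)) =
      (∫ z in Ioo (0:ℝ) l ×ˢ Ioo l π, EKer_G W z) +
      ∫ z in Ioo (0:ℝ) l ×ˢ Ioo π (2 * π), EKer_G W z := by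
    rw [SG_prod_eq]
    show ∫ z in Ioo (0:ℝ) l ×ˢ Ioo l (2 * π), EKer_G W z = _
    rw [setIntegral_congr_set hS, setIntegral_union hd (measurableSet_Ioo.prod measurableSet_Ioo)
      i1 i2]
  rw [n4, n1, n2, n3]
  ring

/-- `EF` as a double integral -/
theorem EKer_EF {W : ℝ → ℝ} {l : ℝ} (h : EKer_Zr W l) (hs : ContDiff ℝ 2 W) :
    (∃ K, Lip K W) ∧
    EF W l = -(1 / (2 * π)) * ∫ z, W z.1 * W z.2 * (Real.cos ((z.1 - z.2) / 2) /
        Real.sin ((z.1 - z.2) / 2) ^ 3) ∂((SG_mu l).prod (SG_nu l)) := by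
  have hp := Real.pi_pos
  have h2p := SC_two_pi_pos
  have hd : Differentiable ℝ W := hs.differentiable (by norm_num)
  have hV1 : ContDiff ℝ 1 (deriv W) := by
    have e12 : ((1 : WithTop ℕ∞) + 1) = 2 := one_add_one_eq_two
    have h2 : ContDiff ℝ ((1 : WithTop ℕ∞) + 1) W := by
      rw [e12]
      exact hs
    exact ((contDiff_succ_iff_deriv (n := 1) (f := W)).1 h2).2.2
  have hc : Continuous (deriv W) := hV1.continuous
  have hVd : Differentiable ℝ (deriv W) := hV1.differentiable (by norm_num)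
  have hVc : Continuous (deriv (deriv W)) := hV1.continuous_deriv (le_refl _)
  have pV : Function.Periodic (deriv W) (2 * π) := by
    intro x
    have e : (fun y => W (y + 2 * π)) = W := by
      funext y
      exact h.per y
    have h1 := deriv_comp_add_const W (2 * π) x
    rw [e] at h1
    exact h1.symm
  have pV' : Function.Periodic (deriv (deriv W)) (2 * π) := by
    intro x
    have e : (fun y => deriv W (y + 2 * π)) = deriv W := by
      funext y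
      exact pV y
    have h1 := deriv_comp_add_const (deriv W) (2 * π) x
    rw [e] at h1
    exact h1.symm
  obtain ⟨B, hB⟩ := SC_bdd pV hc
  obtain ⟨B2, hB2⟩ := SC_bdd pV' hVc
  have hB0 : 0 ≤ B := (abs_nonneg _).trans (hB 0)
  have lipOf : ∀ (f : ℝ → ℝ) (C : ℝ), Differentiable ℝ f → (∀ x, |deriv f x| ≤ C) → Lip C f := by
    intro f C hf hC x y
    have h1 := Convex.norm_image_sub_le_of_norm_deriv_le (f := f) (C := C) (s := univ)
      (x := y) (y := x) (fun z _ => hf z) (fun z _ => by rw [Real.norm_eq_abs]; exact hC z)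
      convex_univ (mem_univ _) (mem_univ _)
    rw [Real.norm_eq_abs, Real.norm_eq_abs] at h1
    exact h1
  have hK : Lip B W := lipOf W B hd hB
  have hKV : Lip B2 (deriv W) := lipOf (deriv W) B2 hVd hB2
  refine ⟨⟨B, hK⟩, ?_⟩
  obtain ⟨I1, D1⟩ := EKer_double h hK hd hc hB
  -- the periodic function F
  set F : ℝ → ℝ := fun x => (1 - sg l (SG_P x)) / 2 * deriv W x with hF
  have mF : Measurable F :=
    ((measurable_const.sub ((SG_sg_meas l).comp SG_P_meas)).div_const 2).mul hc.measurable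
  have hsgle : ∀ x, |(1 - sg l (SG_P x)) / 2| ≤ 1 := by
    intro x
    unfold sg
    split_ifs <;> norm_num
  have bF : ∀ x, |F x| ≤ B := by
    intro x
    show |(1 - sg l (SG_P x)) / 2 * deriv W x| ≤ B
    rw [abs_mul]
    calc |(1 - sg l (SG_P x)) / 2| * |deriv W x| ≤ 1 * |deriv W x| :=
          mul_le_mul_of_nonneg_right (hsgle x) (abs_nonneg _)
      _ ≤ B := by rw [one_mul]; exact hB x
  have pF : Function.Periodic F (2 * π) := by
    intro x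
    show (1 - sg l (SG_P (x + 2 * π))) / 2 * deriv W (x + 2 * π) =
      (1 - sg l (SG_P x)) / 2 * deriv W x
    rw [SG_P_per, pV]
  have Fx : ∀ x ∈ Ioo (0:ℝ) l, F x = deriv W x := by
    intro x hx
    show (1 - sg l (SG_P x)) / 2 * deriv W x = _
    rw [SG_P_eq ⟨hx.1, hx.2.trans h.l1⟩, SG_sgx hx]
    ring
  have Fy : ∀ y ∈ Ioo l (2 * π), F y = 0 := by
    intro y hy
    show (1 - sg l (SG_P y)) / 2 * deriv W y = _
    rw [SG_P_eq ⟨h.l0.trans hy.1, hy.2⟩, SG_sgy hy]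
    ring
  set g : ℝ × ℝ → ℝ := fun z => (F z.1 * deriv W z.2 - F z.2 * deriv W z.1) * ct (z.1 - z.2)
    with hg
  have gmn : g =ᵐ[(SG_mu l).prod (SG_nu l)]
      fun z => deriv W z.1 * deriv W z.2 * ct (z.1 - z.2) := by
    rw [SG_prod_eq]
    refine (ae_restrict_iff' (measurableSet_Ioo.prod measurableSet_Ioo)).2
      (Filter.Eventually.of_forall ?_)
    rintro ⟨x, y⟩ ⟨hx, hy⟩
    show (F x * deriv W y - F y * deriv W x) * ct (x - y) =
      deriv W x * deriv W y * ct (x - y)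
    rw [Fx x hx, Fy y hy]
    ring
  have hgi : Integrable g ((SG_mu l).prod (SG_nu l)) :=
    (integrable_congr gmn).2 I1
  have hsplit := SG_split h.l0 h.l1 (g := g) (by
      intro x y
      show (F x * deriv W y - F y * deriv W x) * ct (x - y) =
        (F y * deriv W x - F x * deriv W y) * ct (y - x)
      rw [← neg_sub x y, SC_ct_neg]
      ring) (by
      intro x hx y hy
      show (F x * deriv W y - F y * deriv W x) * ct (x - y) = 0
      rw [Fx x hx, Fx y hy]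
      ring) (by
      intro x hx y hy
      show (F x * deriv W y - F y * deriv W x) * ct (x - y) = 0
      rw [Fy x hx, Fy y hy]
      ring) hgi
  have hfub := HT_fubini mF bF pF pV hKV hsplit.1
  have hE : ∫ x in (0:ℝ)..(2 * π), F x * HT (deriv W) x =
      ∫ x in (0:ℝ)..l, deriv W x * HT (deriv W) x := by
    rw [intervalIntegral.integral_of_le h2p.le, intervalIntegral.integral_of_le h.l0.le,
      integral_Ioc_eq_integral_Ioo, integral_Ioc_eq_integral_Ioo]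
    have s1 : Ioo (0:ℝ) l ⊆ Ioo 0 (2 * π) := fun x hx => ⟨hx.1, hx.2.trans h.l1⟩
    have hne : ∀ᵐ x : ℝ, x ≠ l := compl_mem_ae_iff.2 (measure_singleton l)
    rw [← integral_indicator measurableSet_Ioo, ← integral_indicator measurableSet_Ioo]
    refine integral_congr_ae ?_
    filter_upwards [hne] with x hxl
    by_cases hx : x ∈ Ioo (0:ℝ) l
    · rw [indicator_of_mem (s1 hx), indicator_of_mem hx, Fx x hx]
    · rw [indicator_of_notMem hx]
      by_cases hx2 : x ∈ Ioo (0:ℝ) (2 * π)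
      · have hx3 : x ∈ Ioo l (2 * π) := by
          refine ⟨?_, hx2.2⟩
          rcases lt_or_gt_of_ne hxl with h4 | h4
          · exact absurd ⟨hx2.1, h4⟩ hx
          · exact h4
        rw [indicator_of_mem hx2, Fy x hx3, zero_mul]
      · rw [indicator_of_notMem hx2]
  have hgint : ∫ z, g z ∂((SG_mu l).prod (SG_nu l)) =
      ∫ z, deriv W z.1 * deriv W z.2 * ct (z.1 - z.2) ∂((SG_mu l).prod (SG_nu l)) :=
    integral_congr_ae gmn
  have hgsq : ∫ z in Sq2, (F z.1 * deriv W z.2 - F z.2 * deriv W z.1) * ct (z.1 - z.2) =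
      2 * ∫ z, g z ∂((SG_mu l).prod (SG_nu l)) := hsplit.2
  unfold EF
  rw [← hE, hfub, hgsq, hgint, D1]
  field_simp
  ring

theorem EFk_int {W : ℝ → ℝ} {l K : ℝ} (h : OddC W l) (hK : Lip K W) :
    IntegrableOn (fun z : ℝ × ℝ => bF W z.1 * bF W z.2 * kEb z.1 z.2) Sq1 ∧
    IntegrableOn (fun z : ℝ × ℝ => bF W z.1 * bR W z.2 * kEn z.1 z.2) Sq1 := by
  obtain ⟨k1, k2, k3, -⟩ := EKer_parts h hK
  constructor
  · have q := k2.const_mul (1 / (2 * π))
    refine q.congr (Filter.Eventually.of_forall fun z => ?_)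
    show 1 / (2 * π) * (bF W z.1 * bF W z.2 * csk (z.1 + z.2)) =
      bF W z.1 * bF W z.2 * (1 / (2 * π) * csk (z.1 + z.2))
    ring
  · have q := (k3.add k1).const_mul (-(1 / (2 * π)))
    refine q.congr (Filter.Eventually.of_forall fun z => ?_)
    show -(1 / (2 * π)) * (bF W z.1 * bR W z.2 * csk (z.1 + z.2) +
        bF W z.1 * bR W z.2 * csk (z.2 - z.1)) =
      bF W z.1 * bR W z.2 * (-(1 / (2 * π) * (csk (z.1 + z.2) + csk (z.2 - z.1))))
    ring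

theorem EF_kernel {W : ℝ → ℝ} {l : ℝ} (h : OddC W l) (hs : ContDiff ℝ 2 W) : EF W l = EFk W := by
  obtain ⟨⟨K, hK⟩, hE⟩ := EKer_EF (EKer_zr h) hs
  obtain ⟨k1, k2, k3, hP⟩ := EKer_parts h hK
  rw [hE, hP]
  unfold EFk
  have e1 : ∫ z in Sq1, bF W z.1 * bF W z.2 * kEb z.1 z.2 =
      1 / (2 * π) * ∫ z in Sq1, bF W z.1 * bF W z.2 * csk (z.1 + z.2) := by
    rw [← integral_const_mul]
    refine integral_congr_ae (Filter.Eventually.of_forall fun z => ?_)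
    show bF W z.1 * bF W z.2 * (1 / (2 * π) * csk (z.1 + z.2)) =
      1 / (2 * π) * (bF W z.1 * bF W z.2 * csk (z.1 + z.2))
    ring
  have e2 : ∫ z in Sq1, bF W z.1 * bR W z.2 * kEn z.1 z.2 =
      -(1 / (2 * π)) * ((∫ z in Sq1, bF W z.1 * bR W z.2 * csk (z.1 + z.2)) +
        ∫ z in Sq1, bF W z.1 * bR W z.2 * csk (z.2 - z.1)) := by
    rw [← integral_add k3 k1, ← integral_const_mul]
    refine integral_congr_ae (Filter.Eventually.of_forall fun z => ?_)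
    show bF W z.1 * bR W z.2 * (-(1 / (2 * π) * (csk (z.1 + z.2) + csk (z.2 - z.1)))) =
      -(1 / (2 * π)) * (bF W z.1 * bR W z.2 * csk (z.1 + z.2) +
        bF W z.1 * bR W z.2 * csk (z.2 - z.1))
    ring
  rw [e1, e2]
  ring

end Pool.Agent.H90.DC
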