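import Pool.Agent.H90.DC.PPf
import Pool.Agent.H90.DC.KEv
import Pool.Agent.H90.DC.EKer
import Pool.Agent.H90.DC.JKer
import Pool.Agent.H90.DC.Lim

/-!
# DC job 8: the static inequality (uses the stubs of the imported files)

* `statV`: `JF W l - 9/8 EFk W = ∫∫_{Sq1} [b(x)b(y)(kJb - 9/8 kEb) + b(x)n(y)(kJn - 9/8 kEn)]`
  (`JF_kernel`, `EFk_int`, all four parts integrable).  Almost everywhere on `Sq1` (`ae_off l`:
  `x ≠ y`, `x, y ≠ l`): `b(x) b(y) ≥ 0`, `kb_ge`; `b(x) n(y) = 0` unless `x < l < y`, then `kn_ge`.  So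
  `8π (JF - 9/8 EFk) ≥ form b b (-k3 - r3k - l1k + r1k) = -(form k3 + form r3k) + (form r1k - form l1k) ≥ 0`
  (`form_r3`, `form_r1`, `form_k3`, `form_l1k` for integrability; `Bd (bF W)`: continuous, nonnegative,
  zero near `0`).
* `static`: `W ∈ C²` periodic is Lipschitz; `statV` for `Wn W n`, `n ≥ 1` (`WnC_van`), limit (`JF_tendsto`,
  `EFk_tendsto`, `le_of_tendsto_of_tendsto'` or `eventually`), `EF_kernel`.
-/

set_option autoImplicit false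
open Real Set MeasureTheory Filter Topology

namespace Pool.Agent.H90.DC
open Pool.Agent.H45.FL Pool.Agent.H51.DG Pool.Agent.H45.DY

theorem StatC_bd {W : ℝ → ℝ} {l : ℝ} (h : VanC W l) : Bd (bF W) := by
  obtain ⟨K, hK⟩ := h.lip
  obtain ⟨δ, hδ, hz⟩ := h.van
  have hc : Continuous W := hK.continuous
  refine ⟨?_, ?_, δ, hδ, ?_⟩
  · unfold bF
    exact hc.max continuous_const
  · intro x _
    exact le_max_right _ _
  · intro x hx0 hx1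
    unfold bF
    rw [hz x (by rwa [abs_of_nonneg hx0]), max_self]

theorem StatC_pt {W : ℝ → ℝ} {l : ℝ} (h : OddC W l) {z : ℝ × ℝ}
    (hz : z ∈ Sq1 ∧ z.1 ≠ z.2 ∧ z.1 ≠ l ∧ z.2 ≠ l) :
    bF W z.1 * bF W z.2 * (-k3 (ct z.1) (ct z.2) - r3k (ct z.1) (ct z.2) - l1k (ct z.1) (ct z.2)
      + r1k (ct z.1) (ct z.2)) ≤
    8 * π * (bF W z.1 * bF W z.2 * (kJb z.1 z.2 - 9 / 8 * kEb z.1 z.2) +
      bF W z.1 * bR W z.2 * (kJn z.1 z.2 - 9 / 8 * kEn z.1 z.2)) := by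
  obtain ⟨⟨hx, hy⟩, h1, h2, h3⟩ := hz
  have hp := Real.pi_pos
  have hb : ∀ x, 0 ≤ bF W x := fun x => le_max_right _ _
  have hn : ∀ x, 0 ≤ bR W x := fun x => le_max_right _ _
  have hbb := mul_le_mul_of_nonneg_left (kb_ge hx hy h1) (mul_nonneg (hb z.1) (hb z.2))
  have hbn : 0 ≤ bF W z.1 * bR W z.2 * (kJn z.1 z.2 - 9 / 8 * kEn z.1 z.2) := by
    rcases lt_or_gt_of_ne h2 with h4 | h4
    · rcases lt_or_gt_of_ne h3 with h5 | h5
      · rw [(EKer_b1 h ⟨hy.1.le, h5.le⟩).2, mul_zero, zero_mul]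
      · exact mul_nonneg (mul_nonneg (hb _) (hn _)) (kn_ge hx.1 (h4.trans h5) hy.2)
    · rw [(EKer_b2 h ⟨h4.le, hx.2.le⟩).1, zero_mul, zero_mul]
  have hbn2 := mul_nonneg (by positivity : (0:ℝ) ≤ 8 * π) hbn
  linarith

theorem statV {W : ℝ → ℝ} {l : ℝ} (h : VanC W l) : 9 / 8 * EFk W ≤ JF W l := by
  have hp := Real.pi_pos
  obtain ⟨K, hK⟩ := h.lip
  have hB := StatC_bd h
  obtain ⟨i1, i2, hJ⟩ := JF_kernel h
  obtain ⟨i3, i4⟩ := EFk_int h.toOddC hK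
  obtain ⟨f1, -⟩ := form_k3 hB
  obtain ⟨f2, -⟩ := form_l1k hB
  obtain ⟨f3, g3⟩ := form_r3 hB
  obtain ⟨f4, g4⟩ := form_r1 hB
  have f1' : IntegrableOn (fun z : ℝ × ℝ => bF W z.1 * bF W z.2 * k3 (ct z.1) (ct z.2)) Sq1 := f1
  have f2' : IntegrableOn (fun z : ℝ × ℝ => bF W z.1 * bF W z.2 * l1k (ct z.1) (ct z.2)) Sq1 := f2
  have f3' : IntegrableOn (fun z : ℝ × ℝ => bF W z.1 * bF W z.2 * r3k (ct z.1) (ct z.2)) Sq1 := f3
  have f4' : IntegrableOn (fun z : ℝ × ℝ => bF W z.1 * bF W z.2 * r1k (ct z.1) (ct z.2)) Sq1 := f4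
  have hadd : ∀ f g : ℝ × ℝ → ℝ, IntegrableOn f Sq1 → IntegrableOn g Sq1 →
      IntegrableOn (fun z => f z + g z) Sq1 ∧
        ∫ z in Sq1, (f z + g z) = (∫ z in Sq1, f z) + ∫ z in Sq1, g z :=
    fun f g hf hg => ⟨hf.add hg, integral_add hf hg⟩
  have hsub : ∀ f g : ℝ × ℝ → ℝ, IntegrableOn f Sq1 → IntegrableOn g Sq1 →
      IntegrableOn (fun z => f z - g z) Sq1 ∧
        ∫ z in Sq1, (f z - g z) = (∫ z in Sq1, f z) - ∫ z in Sq1, g z :=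
    fun f g hf hg => ⟨hf.sub hg, integral_sub hf hg⟩
  obtain ⟨a1, b1⟩ := hsub _ _ i1 (i3.const_mul (9 / 8))
  obtain ⟨a2, b2⟩ := hsub _ _ i2 (i4.const_mul (9 / 8))
  obtain ⟨a3, b3⟩ := hadd _ _ a1 a2
  obtain ⟨a4, b4⟩ := hadd _ _ f1' f3'
  obtain ⟨a5, b5⟩ := hsub _ _ f4' f2'
  obtain ⟨a6, b6⟩ := hsub _ _ a5 a4
  have hmono := integral_mono_ae a6 (a3.const_mul (8 * π)) (by
    filter_upwards [ae_off l] with z hz
    have h1 := StatC_pt h.toOddC hz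
    show bF W z.1 * bF W z.2 * r1k (ct z.1) (ct z.2) - bF W z.1 * bF W z.2 * l1k (ct z.1) (ct z.2)
      - (bF W z.1 * bF W z.2 * k3 (ct z.1) (ct z.2) + bF W z.1 * bF W z.2 * r3k (ct z.1) (ct z.2)) ≤
      8 * π * (bF W z.1 * bF W z.2 * kJb z.1 z.2 - 9 / 8 * (bF W z.1 * bF W z.2 * kEb z.1 z.2) +
        (bF W z.1 * bR W z.2 * kJn z.1 z.2 - 9 / 8 * (bF W z.1 * bR W z.2 * kEn z.1 z.2)))
    calc _ = bF W z.1 * bF W z.2 * (-k3 (ct z.1) (ct z.2) - r3k (ct z.1) (ct z.2)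
          - l1k (ct z.1) (ct z.2) + r1k (ct z.1) (ct z.2)) := by ring
      _ ≤ _ := h1
      _ = _ := by ring)
  rw [integral_const_mul, b6, b5, b4, b3, b1, b2, integral_const_mul, integral_const_mul] at hmono
  have g3' : (∫ z in Sq1, bF W z.1 * bF W z.2 * k3 (ct z.1) (ct z.2)) +
      ∫ z in Sq1, bF W z.1 * bF W z.2 * r3k (ct z.1) (ct z.2) ≤ 0 := g3
  have g4' : ∫ z in Sq1, bF W z.1 * bF W z.2 * l1k (ct z.1) (ct z.2) ≤
      ∫ z in Sq1, bF W z.1 * bF W z.2 * r1k (ct z.1) (ct z.2) := g4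
  have hfin : 0 ≤ 8 * π * (JF W l - 9 / 8 * EFk W) := by
    rw [hJ]
    unfold EFk
    refine le_trans ?_ (hmono.trans (le_of_eq ?_))
    · linarith
    · ring
  have h8 : (0:ℝ) < 8 * π := by positivity
  have := nonneg_of_mul_nonneg_right hfin h8
  linarith

theorem static {W : ℝ → ℝ} {l : ℝ} (h : OddC W l) (hs : ContDiff ℝ 2 W) :
    9 / 8 * EF W l ≤ JF W l := by
  obtain ⟨⟨K, hK⟩, -⟩ := EKer_EF (EKer_zr h) hs
  rw [EF_kernel h hs]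
  refine le_of_tendsto_of_tendsto ((EFk_tendsto h hK).const_mul (9 / 8)) (JF_tendsto h hK) ?_
  filter_upwards [eventually_ge_atTop 1] with n hn
  exact statV (WnC_van h hK hn)

end Pool.Agent.H90.DC
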