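import Pool.Agent.H90.DC.DynL
import Pool.Agent.H90.DC.HInt
import Pool.Agent.H90.DC.StatC
import Pool.Agent.H45.DY.EIder

/-!
# DC job 14: the energy estimate on the arc `(0, X t p)` (uses the stubs of the imported files)

* `hardy_dyn`: `hardy_int` with `w0 = w(0,·)`, `L = lam u X t`, `L' = lma u X t`
  (`lam_hasDerivAt_label`, `lma_cont`), `Xf = X t` (`Flow.hasDerivAt_label`), `t ≥ 0`; `JI w u X 0 0 p t` is the
  left side: `gI u X 0 t α = exp(2 lam) ph |X t α - X t 0| = exp (2 lam) ph (X t α)` (`X0`, `X t α > 0`),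
  `gI u X 0 0 α = ph α` (`lam_zero`, `Flow.init`); integrable by `JI_integrable`.  `px w (0,α) = deriv w0 α`.
* `energy_le`: `Fn(s) = JI w u X 0 0 p s - 3/8 MI w u X 0 p s - 9/8 EI w u X 0 p s` has derivative
  `JD - 3/8 MD - 9/8 ED = JF - 9/8 EF ≥ 0` for `s ∈ [0,T]` (`JI_hasDerivAt`, `MI_hasDerivAt`,
  `EI_hasDerivAt`, `JD_eq`, `ED_eq`, `static` with `oddC`, `smC`), so `Fn(t) ≥ Fn(0) = -3/8 M0`,
  `M0 = MI 0 p 0 = ∫_0^p |w0|` (`JI_zero`, `EI_zero`), `MI ≥ 0`: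
  `9/8 EI(t) ≤ JI(t) + 3/8 M0 ≤ EI(t) + C (1+Λ) + 3/8 M0`, so `EI(t) ≤ 8 (C (1+Λ) + M0)`.
* `ZZ_arc`: `ZZ = EI - 2 ∫_0^p w0' lma`, `∫_0^p w0' lma = w0'(p) lam(p) - w0'(0) lam(0) - ∫_0^p w0'' lam`
  (integration by parts), `≤ C' Λ`.
-/

set_option autoImplicit false
open Real Set MeasureTheory Filter Topology

namespace Pool.Agent.H90.DC
open Pool.Agent.H45.FL Pool.Agent.H51.DG Pool.Agent.H45.DY

lemma Ener_px (w : ℝ × ℝ → ℝ) {w0 : ℝ → ℝ} (hw : ∀ x, w (0, x) = w0 x) (α : ℝ) :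
    px w (0, α) = deriv w0 α := by
  show deriv (fun y => w (0, y)) α = deriv w0 α
  have e : (fun y => w (0, y)) = w0 := funext hw
  rw [e]

lemma Ener_EI (w u : ℝ × ℝ → ℝ) (X : ℝ → ℝ → ℝ) {w0 : ℝ → ℝ} (hw : ∀ x, w (0, x) = w0 x)
    (p t : ℝ) : EI w u X 0 p t =
      ∫ α in Ioo (0:ℝ) p, (w0 α * lma u X t α ^ 2 + 2 * deriv w0 α * lma u X t α) := by
  unfold EI
  refine integral_congr_ae (Filter.Eventually.of_forall fun α => ?_)
  show w (0, α) * lma u X t α ^ 2 + 2 * px w (0, α) * lma u X t α =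
    w0 α * lma u X t α ^ 2 + 2 * deriv w0 α * lma u X t α
  rw [hw, Ener_px w hw]

lemma Ener_sm {w0 : ℝ → ℝ} {p : ℝ} (hg : GoodC w0 p) : ContDiff ℝ 2 w0 :=
  contDiff_infty.1 hg.smooth 2

theorem hardy_dyn (w0 : ℝ → ℝ) (p : ℝ) (hg : GoodC w0 p) :
    ∃ C : ℝ, 0 ≤ C ∧ ∀ (w u : ℝ × ℝ → ℝ) (X : ℝ → ℝ → ℝ) (T : ℝ), DynC w u X p T →
      (∀ x, w (0, x) = w0 x) → ∀ t ∈ Icc 0 T, ∀ Λ : ℝ, (∀ α, |lam u X t α| ≤ Λ) →
      JI w u X 0 0 p t ≤ EI w u X 0 p t + C * (1 + Λ) := by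
  have hs2 := Ener_sm hg
  have h0 : w0 0 = 0 := by
    have h1 := hg.odd 0
    rw [neg_zero] at h1
    linarith
  have hp0 : w0 p = 0 :=
    le_antisymm (hg.neg p ⟨le_rfl, hg.p1.le⟩) (hg.pos p ⟨hg.p0.le, le_rfl⟩)
  obtain ⟨C, hC, hH⟩ := hardy_int hg.p0 hg.p1 hs2 h0 hp0 hg.pos
  refine ⟨C, hC, fun w u X T hD hw t ht Λ hΛ => ?_⟩
  have hcl : Continuous fun α => lma u X t α :=
    (lma_cont hD.cs.vel hD.fl).comp (continuous_const.prodMk continuous_id)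
  have hX0 : X t 0 = 0 := hD.X0 t
  have hm := Flow.mono hD.cs.vel hD.fl t
  have key : ∀ α ∈ Ioo (0:ℝ) p, |w (0, α)| * (gI u X 0 t α - gI u X 0 0 α) =
      w0 α * (Real.exp (2 * lam u X t α) * ph (X t α) - ph α) := by
    intro α hα
    have h1 : 0 < X t α := by
      have h2 := hm hα.1
      rwa [hX0] at h2
    unfold gI
    rw [hX0, hD.X0 0, sub_zero, sub_zero, abs_of_pos h1, hD.fl.init, abs_of_pos hα.1, lam_zero,
      mul_zero, Real.exp_zero, one_mul, hw, abs_of_nonneg (hg.pos α ⟨hα.1.le, hα.2.le⟩)]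
  have hint := JI_integrable hD.cs hD.fl hD.arc0 t
  have hint2 : IntegrableOn
      (fun α => w0 α * (Real.exp (2 * lam u X t α) * ph (X t α) - ph α)) (Ioo 0 p) :=
    hint.congr_fun key measurableSet_Ioo
  have h3 := hH (fun α => lam u X t α) (fun α => lma u X t α) (fun α => X t α) Λ
    (fun α => lam_hasDerivAt_label hD.cs.vel hD.fl t α ht.1) hcl
    (fun α => Flow.hasDerivAt_label hD.cs.vel hD.fl t α ht.1) hX0 (hD.Xp t).2
    (fun α _ => hΛ α) hint2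
  have h4 : JI w u X 0 0 p t =
      ∫ α in Ioo (0:ℝ) p, w0 α * (Real.exp (2 * lam u X t α) * ph (X t α) - ph α) :=
    setIntegral_congr_fun measurableSet_Ioo key
  rw [h4, Ener_EI w u X hw]
  exact h3

theorem energy_le (w0 : ℝ → ℝ) (p : ℝ) (hg : GoodC w0 p) :
    ∃ C : ℝ, 0 ≤ C ∧ ∀ (w u : ℝ × ℝ → ℝ) (X : ℝ → ℝ → ℝ) (T : ℝ), DynC w u X p T →
      (∀ x, w (0, x) = w0 x) → ∀ t ∈ Icc 0 T, ∀ Λ : ℝ, (∀ α, |lam u X t α| ≤ Λ) →
      EI w u X 0 p t ≤ C * (1 + Λ) := by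
  obtain ⟨C, hC, hH⟩ := hardy_dyn w0 p hg
  obtain ⟨M, hM⟩ : ∃ M : ℝ, M = ∫ α in Ioo (0:ℝ) p, |w0 α| := ⟨_, rfl⟩
  have hM0 : 0 ≤ M := by
    rw [hM]
    exact integral_nonneg fun α => abs_nonneg _
  refine ⟨8 * C + 3 * M, by positivity, fun w u X T hD hw t ht Λ hΛ => ?_⟩
  have hΛ0 : 0 ≤ Λ := (abs_nonneg _).trans (hΛ 0)
  have hder : ∀ s, HasDerivAt
      (fun s => JI w u X 0 0 p s - 3 / 8 * MI w u X 0 p s - 9 / 8 * EI w u X 0 p s)
      (JD w u X 0 0 p s - 3 / 8 * MD w u X 0 p s - 9 / 8 * ED w u X 0 p s) s := fun s =>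
    ((JI_hasDerivAt hD.cs hD.fl hD.arc0 s).sub ((MI_hasDerivAt hD.cs hD.fl 0 p s).const_mul _)).sub
      ((EI_hasDerivAt hD.cs hD.fl 0 p s).const_mul _)
  have hmono : MonotoneOn
      (fun s => JI w u X 0 0 p s - 3 / 8 * MI w u X 0 p s - 9 / 8 * EI w u X 0 p s)
      (Icc 0 T) := by
    refine monotoneOn_of_deriv_nonneg (convex_Icc 0 T)
      (fun s _ => (hder s).continuousAt.continuousWithinAt)
      (fun s _ => (hder s).differentiableAt.differentiableWithinAt) (fun s hs => ?_)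
    have hs' : s ∈ Icc 0 T := interior_subset hs
    rw [(hder s).deriv, hD.JD_eq s hs', hD.ED_eq s hs']
    have h1 := static (hD.oddC s) (contDiff_infty.1 (hD.smC s) 2)
    linarith
  have h1 := hmono ⟨le_rfl, hD.hT⟩ ht ht.1
  have h2 : JI w u X 0 0 p 0 - 3 / 8 * MI w u X 0 p 0 - 9 / 8 * EI w u X 0 p 0 ≤
      JI w u X 0 0 p t - 3 / 8 * MI w u X 0 p t - 9 / 8 * EI w u X 0 p t := h1
  have h3 : MI w u X 0 p 0 = M := by
    rw [hM]
    unfold MI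
    refine integral_congr_ae (Filter.Eventually.of_forall fun α => ?_)
    show |w (0, α)| * Real.exp (2 * lam u X 0 α) = |w0 α|
    rw [lam_zero, mul_zero, Real.exp_zero, mul_one, hw]
  have h4 : 0 ≤ MI w u X 0 p t := by
    unfold MI
    exact integral_nonneg fun α => mul_nonneg (abs_nonneg _) (Real.exp_pos _).le
  rw [JI_zero, EI_zero, h3] at h2
  have h5 := hH w u X T hD hw t ht Λ hΛ
  have h6 : 0 ≤ M * Λ := mul_nonneg hM0 hΛ0
  nlinarith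

theorem ZZ_arc (w0 : ℝ → ℝ) (p : ℝ) (hg : GoodC w0 p) :
    ∃ C : ℝ, 0 ≤ C ∧ ∀ (w u : ℝ × ℝ → ℝ) (X : ℝ → ℝ → ℝ) (T : ℝ), DynC w u X p T →
      (∀ x, w (0, x) = w0 x) → ∀ t ∈ Icc 0 T, ∀ Λ : ℝ, (∀ α, |lam u X t α| ≤ Λ) →
      ZZ w u X 0 p t ≤ C * (1 + Λ) := by
  obtain ⟨C, hC, hH⟩ := energy_le w0 p hg
  have hs2 := Ener_sm hg
  have hs3 : ContDiff ℝ 1 (deriv w0) := by
    have e12 : ((1 : WithTop ℕ∞) + 1) = 2 := one_add_one_eq_two
    have h1 : ContDiff ℝ (1 + 1) w0 := by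
      rw [e12]
      exact hs2
    exact (contDiff_succ_iff_deriv.1 h1).2.2
  have hwc : Continuous w0 := hs2.continuous
  have hd1 : Continuous (deriv w0) := hs3.continuous
  have hd2 : Continuous (deriv (deriv w0)) := hs3.continuous_deriv le_rfl
  obtain ⟨M1, hM1⟩ : ∃ M : ℝ, ∀ x ∈ Icc (0:ℝ) p, ‖deriv w0 x‖ ≤ M :=
    isCompact_Icc.exists_bound_of_continuousOn hd1.continuousOn
  obtain ⟨M2, hM2⟩ : ∃ M : ℝ, ∀ x ∈ Icc (0:ℝ) p, ‖deriv (deriv w0) x‖ ≤ M :=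
    isCompact_Icc.exists_bound_of_continuousOn hd2.continuousOn
  have hp := hg.p0
  have hM10 : 0 ≤ M1 := (norm_nonneg _).trans (hM1 0 ⟨le_rfl, hp.le⟩)
  have hM20 : 0 ≤ M2 := (norm_nonneg _).trans (hM2 0 ⟨le_rfl, hp.le⟩)
  refine ⟨C + 4 * M1 + 2 * (p * M2), by positivity, fun w u X T hD hw t ht Λ hΛ => ?_⟩
  have hΛ0 : 0 ≤ Λ := (abs_nonneg _).trans (hΛ 0)
  have hcm : Continuous fun α => lma u X t α :=
    (lma_cont hD.cs.vel hD.fl).comp (continuous_const.prodMk continuous_id)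
  have hcl : Continuous fun α => lam u X t α :=
    (lam_cont hD.cs.vel hD.fl).comp (continuous_const.prodMk continuous_id)
  have hio : ∀ f : ℝ → ℝ, Continuous f → IntegrableOn f (Ioo 0 p) := fun f hf =>
    (hf.continuousOn.integrableOn_compact (isCompact_Icc (a := (0:ℝ)) (b := p))).mono_set
      Ioo_subset_Icc_self
  have h1 : ZZ w u X 0 p t =
      EI w u X 0 p t - 2 * ∫ α in Ioo (0:ℝ) p, deriv w0 α * lma u X t α := by
    have i1 : IntegrableOn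
        (fun α => w0 α * lma u X t α ^ 2 + 2 * deriv w0 α * lma u X t α) (Ioo 0 p) :=
      hio _ ((hwc.mul (hcm.pow 2)).add ((continuous_const.mul hd1).mul hcm))
    have i2 : IntegrableOn (fun α => 2 * (deriv w0 α * lma u X t α)) (Ioo 0 p) :=
      hio _ (continuous_const.mul (hd1.mul hcm))
    rw [Ener_EI w u X hw, ← integral_const_mul, ← integral_sub i1 i2]
    unfold ZZ
    refine setIntegral_congr_fun measurableSet_Ioo fun α hα => ?_
    show |w (0, α)| * lma u X t α ^ 2 = w0 α * lma u X t α ^ 2 + 2 * deriv w0 α * lma u X t α -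
      2 * (deriv w0 α * lma u X t α)
    rw [hw, abs_of_nonneg (hg.pos α ⟨hα.1.le, hα.2.le⟩)]
    ring
  have h2 : ∫ α in Ioo (0:ℝ) p, deriv w0 α * lma u X t α =
      deriv w0 p * lam u X t p - deriv w0 0 * lam u X t 0 -
        ∫ α in (0:ℝ)..p, deriv (deriv w0) α * lam u X t α := by
    rw [← integral_Ioc_eq_integral_Ioo, ← intervalIntegral.integral_of_le hp.le]
    exact intervalIntegral.integral_mul_deriv_eq_deriv_mul
      (u := deriv w0) (v := fun α => lam u X t α) (u' := deriv (deriv w0))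
      (v' := fun α => lma u X t α)
      (fun α _ => (hs3.differentiable one_ne_zero α).hasDerivAt)
      (fun α _ => lam_hasDerivAt_label hD.cs.vel hD.fl t α ht.1)
      (hd2.intervalIntegrable _ _) (hcm.intervalIntegrable _ _)
  have h3 : |deriv w0 p * lam u X t p| ≤ M1 * Λ := by
    rw [abs_mul]
    exact mul_le_mul (hM1 p ⟨hp.le, le_rfl⟩) (hΛ p) (abs_nonneg _) hM10
  have h4 : |deriv w0 0 * lam u X t 0| ≤ M1 * Λ := by
    rw [abs_mul]
    exact mul_le_mul (hM1 0 ⟨le_rfl, hp.le⟩) (hΛ 0) (abs_nonneg _) hM10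
  have h5 : |∫ α in (0:ℝ)..p, deriv (deriv w0) α * lam u X t α| ≤ M2 * Λ * p := by
    have h6 : ‖∫ α in (0:ℝ)..p, deriv (deriv w0) α * lam u X t α‖ ≤ M2 * Λ * |p - 0| := by
      refine intervalIntegral.norm_integral_le_of_norm_le_const fun α hα => ?_
      rw [uIoc_of_le hp.le] at hα
      rw [norm_mul]
      exact mul_le_mul (hM2 α ⟨hα.1.le, hα.2⟩) (hΛ α) (norm_nonneg _) hM20
    rwa [sub_zero, abs_of_pos hp] at h6
  have h6 := hH w u X T hD hw t ht Λ hΛ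
  rw [h1, h2]
  have h7 := (abs_le.1 h3).1
  have h8 := (abs_le.1 h4).2
  have h9 := (abs_le.1 h5).2
  nlinarith [mul_nonneg hp.le hM20]

end Pool.Agent.H90.DC
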