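import Pool.Agent.H90.DC.DynL

/-!
# DC job 15: the shift by `π`, and the four arcs (uses the stubs of `DynL.lean`)

* `GoodC.shift`: `w0 (x+π)` is odd (`w0(-x+π) = -w0(x-π) = -w0(x+π)`), `≥ 0` on `[0,π-p]`
  (`w0(x+π) = -w0(-x-π) = -w0(π-x)`, `π - x ∈ [p,π]`), `≤ 0` on `[π-p,π]`.
* `DynC.shift`: the same for `w (t,x+π)`, `u (t,x+π)`, `X t (α+π) - π`; all fields of `CSol`, `Vel`, `Flow`,
  `HT` is translation invariant (`HTd_shift`).
* `ZZ_shift`: `lam`, `lma` of the shifted flow are `lam u X t (α+π)`, `lma u X t (α+π)`; substitution.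
* `ZZ_split`: `ZZ 0 (2π) = ZZ 0 p + ZZ p π + ZZ π (2π-p) + ZZ (2π-p) (2π)` (integrable: continuous), and by
  the reflection `α ↦ 2π - α` (`w(0,2π-α) = -w(0,α)`, `lma_sq`, `lma_per`) `ZZ p π = ZZ π (2π-p)`,
  `ZZ (2π-p) (2π) = ZZ 0 p`.
-/

set_option autoImplicit false
open Real Set MeasureTheory Filter Topology

namespace Pool.Agent.H90.DC
open Pool.Agent.H45.FL Pool.Agent.H51.DG Pool.Agent.H45.DY

variable {w u : ℝ × ℝ → ℝ} {X : ℝ → ℝ → ℝ} {p T : ℝ}

theorem GoodC.shift {w0 : ℝ → ℝ} {p : ℝ} (h : GoodC w0 p) :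
    GoodC (fun x => w0 (x + π)) (π - p) := by
  have hr : ∀ x, w0 (x + π) = -w0 (π - x) := by
    intro x
    have h1 := h.odd (π - x)
    have h2 := h.per (-(π - x))
    rw [show -(π - x) + 2 * π = x + π by ring] at h2
    rw [h2, h1]
  refine ⟨h.smooth.comp (contDiff_id.add contDiff_const), ?_, ?_, by linarith [h.p1],
    by linarith [h.p0], ?_, ?_⟩
  · intro x
    show w0 (x + 2 * π + π) = w0 (x + π)
    rw [show x + 2 * π + π = x + π + 2 * π by ring, h.per]
  · intro x
    show w0 (-x + π) = -w0 (x + π)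
    rw [hr x, neg_neg]
    congr 1
    ring
  · intro x hx
    show 0 ≤ w0 (x + π)
    rw [hr]
    have := h.neg (π - x) ⟨by linarith [hx.2], by linarith [hx.1]⟩
    linarith
  · intro x hx
    show w0 (x + π) ≤ 0
    rw [hr]
    have := h.pos (π - x) ⟨by linarith [hx.2], by linarith [hx.1]⟩
    linarith

lemma Shift_px (v : ℝ × ℝ → ℝ) (z : ℝ × ℝ) :
    px (fun z => v (z.1, z.2 + π)) z = px v (z.1, z.2 + π) := by
  show deriv (fun y => v (z.1, y + π)) z.2 = deriv (fun y => v (z.1, y)) (z.2 + π)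
  exact deriv_comp_add_const (fun y => v (z.1, y)) π z.2

lemma Shift_refl {v : ℝ × ℝ → ℝ} (ho : ∀ t x, v (t, -x) = -v (t, x))
    (hp : ∀ t x, v (t, x + 2 * π) = v (t, x)) (t x : ℝ) : v (t, x + π) = -v (t, π - x) := by
  have h1 := ho t (π - x)
  have h2 := hp t (-(π - x))
  rw [show -(π - x) + 2 * π = x + π by ring] at h2
  rw [h2, h1]

lemma Shift_per {v : ℝ × ℝ → ℝ} (hp : ∀ t x, v (t, x + 2 * π) = v (t, x)) (t x : ℝ) :
    v (t, x + 2 * π + π) = v (t, x + π) := by
  rw [show x + 2 * π + π = x + π + 2 * π by ring, hp]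

lemma Shift_sm {v : ℝ × ℝ → ℝ} (h : ContDiff ℝ ((⊤ : ℕ∞) : WithTop ℕ∞) v) :
    ContDiff ℝ ((⊤ : ℕ∞) : WithTop ℕ∞) (fun z : ℝ × ℝ => v (z.1, z.2 + π)) :=
  h.comp (contDiff_fst.prodMk (contDiff_snd.add contDiff_const))

theorem DynC.shift (h : DynC w u X p T) :
    DynC (fun z => w (z.1, z.2 + π)) (fun z => u (z.1, z.2 + π)) (fun t α => X t (α + π) - π)
      (π - p) T := by
  refine ⟨⟨⟨Shift_sm h.cs.vel.sm, ?_, ?_⟩, Shift_sm h.cs.sm, ?_, ?_⟩, ⟨?_, ?_⟩, by linarith [h.p1],
    by linarith [h.p0], ?_, ?_, h.hT, ?_, ?_, ?_⟩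
  · exact fun t x => Shift_per h.cs.vel.per t x
  · obtain ⟨M, hM⟩ := h.cs.vel.supp
    exact ⟨M, fun t x ht => hM t (x + π) ht⟩
  · exact fun t x => Shift_per h.cs.per t x
  · intro z
    rw [Shift_px, Shift_px]
    exact h.cs.pde (z.1, z.2 + π)
  · intro α
    show X 0 (α + π) - π = α
    rw [h.fl.init]
    ring
  · intro t α
    show HasDerivAt (fun s => X s (α + π) - π) (u (t, X t (α + π) - π + π)) t
    rw [sub_add_cancel]
    exact (h.fl.ode t (α + π)).sub_const π
  · intro x hx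
    show 0 ≤ w (0, x + π)
    rw [Shift_refl h.ow h.cs.per]
    have := h.neg (π - x) ⟨by linarith [hx.2], by linarith [hx.1]⟩
    linarith
  · intro x hx
    show w (0, x + π) ≤ 0
    rw [Shift_refl h.ow h.cs.per]
    have := h.pos (π - x) ⟨by linarith [hx.2], by linarith [hx.1]⟩
    linarith
  · intro t ht x
    rw [Shift_px]
    show px u (t, x + π) = HT (fun y => w (t, y + π)) x
    rw [h.hu t ht, add_comm x π, ← HTd_shift (fun y => w (t, y)) π x]
    congr 1
    funext y
    rw [add_comm]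
  · intro t x
    show w (t, -x + π) = -w (t, x + π)
    rw [Shift_refl h.ow h.cs.per t x, neg_neg]
    congr 2
    ring
  · intro t x
    show u (t, -x + π) = -u (t, x + π)
    rw [Shift_refl h.ou h.cs.vel.per t x, neg_neg]
    congr 2
    ring

theorem DynC.lam_shift (_h : DynC w u X p T)
    (t α : ℝ) :
    lam (fun z => u (z.1, z.2 + π)) (fun t α => X t (α + π) - π) t α = lam u X t (α + π) := by
  unfold lam
  refine intervalIntegral.integral_congr fun s _ => ?_
  show px (fun z => u (z.1, z.2 + π)) (s, X s (α + π) - π) = px u (s, X s (α + π))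
  rw [Shift_px]
  show px u (s, X s (α + π) - π + π) = _
  rw [sub_add_cancel]

lemma Shift_lma (h : DynC w u X p T) (t α : ℝ) :
    lma (fun z => u (z.1, z.2 + π)) (fun t α => X t (α + π) - π) t α = lma u X t (α + π) := by
  unfold lma
  refine intervalIntegral.integral_congr fun s _ => ?_
  show px (px (fun z => u (z.1, z.2 + π))) (s, X s (α + π) - π) *
      Real.exp (lam (fun z => u (z.1, z.2 + π)) (fun t α => X t (α + π) - π) s α) =
    px (px u) (s, X s (α + π)) * Real.exp (lam u X s (α + π))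
  rw [h.lam_shift]
  have h1 : px (fun z => u (z.1, z.2 + π)) = fun z => px u (z.1, z.2 + π) :=
    funext fun z => Shift_px u z
  rw [h1, Shift_px (px u)]
  show px (px u) (s, X s (α + π) - π + π) * _ = _
  rw [sub_add_cancel]

lemma Shift_ZZ (w u : ℝ × ℝ → ℝ) (X : ℝ → ℝ → ℝ) {a b : ℝ} (hab : a ≤ b) (t : ℝ) :
    ZZ w u X a b t = ∫ α in a..b, |w (0, α)| * lma u X t α ^ 2 := by
  rw [ZZ, ← integral_Ioc_eq_integral_Ioo, ← intervalIntegral.integral_of_le hab]

theorem DynC.ZZ_shift (h : DynC w u X p T)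
    (t : ℝ) :
    ZZ (fun z => w (z.1, z.2 + π)) (fun z => u (z.1, z.2 + π)) (fun t α => X t (α + π) - π)
      0 (π - p) t = ZZ w u X π (2 * π - p) t := by
  rw [Shift_ZZ _ _ _ (by linarith [h.p1]), Shift_ZZ _ _ _ (by linarith [h.p1])]
  have h1 : ∫ α in (0:ℝ)..(π - p), |w (0, α + π)| *
      lma (fun z => u (z.1, z.2 + π)) (fun t α => X t (α + π) - π) t α ^ 2 =
      ∫ α in (0:ℝ)..(π - p), (fun β => |w (0, β)| * lma u X t β ^ 2) (α + π) := by
    refine intervalIntegral.integral_congr fun α _ => ?_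
    show _ = |w (0, α + π)| * lma u X t (α + π) ^ 2
    rw [← Shift_lma h]
  show ∫ α in (0:ℝ)..(π - p), |w (0, α + π)| *
      lma (fun z => u (z.1, z.2 + π)) (fun t α => X t (α + π) - π) t α ^ 2 = _
  rw [h1, intervalIntegral.integral_comp_add_right (fun β => |w (0, β)| * lma u X t β ^ 2) π,
    zero_add, show π - p + π = 2 * π - p by ring]

theorem DynC.ZZ_split (h : DynC w u X p T)
    (t : ℝ) :
    ZZ w u X 0 (2 * π) t = 2 * ZZ w u X 0 p t + 2 * ZZ w u X π (2 * π - p) t := by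
  have hp0 := h.p0
  have hp1 := h.p1
  have hpi := Real.pi_pos
  set g : ℝ → ℝ := fun α => |w (0, α)| * lma u X t α ^ 2 with hg
  have hc : Continuous g := by
    have c1 : Continuous fun α : ℝ => w (0, α) :=
      h.cs.sm.continuous.comp (continuous_const.prodMk continuous_id)
    have c2 : Continuous fun α : ℝ => lma u X t α :=
      (lma_cont h.cs.vel h.fl).comp (continuous_const.prodMk continuous_id)
    exact c1.abs.mul (c2.pow 2)
  have hr : ∀ α, g (2 * π - α) = g α := by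
    intro α
    have e1 : w (0, 2 * π - α) = -w (0, α) := by
      have := h.cs.per 0 (-α)
      rw [show -α + 2 * π = 2 * π - α by ring] at this
      rw [this, h.ow]
    have e2 : lma u X t (2 * π - α) = lma u X t (-α) := by
      have := lma_per h.cs.vel h.fl t (-α)
      rw [show -α + 2 * π = 2 * π - α by ring] at this
      exact this
    show |w (0, 2 * π - α)| * lma u X t (2 * π - α) ^ 2 = |w (0, α)| * lma u X t α ^ 2
    rw [e1, e2, abs_neg, (h.lma_sq t α).2]
  have hi : ∀ a b : ℝ, IntervalIntegrable g volume a b := fun a b => hc.intervalIntegrable a b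
  have hs : ∀ a b : ℝ, ∫ α in a..b, g α = ∫ α in (2 * π - b)..(2 * π - a), g α := by
    intro a b
    rw [← intervalIntegral.integral_comp_sub_left g (2 * π)]
    exact intervalIntegral.integral_congr fun α _ => (hr α).symm
  rw [Shift_ZZ _ _ _ (by linarith), Shift_ZZ _ _ _ hp0.le, Shift_ZZ _ _ _ (by linarith)]
  have k1 := intervalIntegral.integral_add_adjacent_intervals (hi 0 p) (hi p π)
  have k2 := intervalIntegral.integral_add_adjacent_intervals (hi 0 π) (hi π (2 * π - p))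
  have k3 := intervalIntegral.integral_add_adjacent_intervals (hi 0 (2 * π - p))
    (hi (2 * π - p) (2 * π))
  have s1 := hs p π
  have s2 := hs 0 p
  rw [show 2 * π - π = π by ring] at s1
  rw [sub_zero] at s2
  show ∫ α in (0:ℝ)..(2 * π), g α =
    2 * (∫ α in (0:ℝ)..p, g α) + 2 * ∫ α in π..(2 * π - p), g α
  linarith

end Pool.Agent.H90.DC
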