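import Pool.Agent.H45.DY.KFold

/-! Translation: if the solution with datum `x ↦ w0 (x + a)` is global then so is the one with datum `w0`. -/

set_option autoImplicit false
open Real Set MeasureTheory

namespace Pool.Agent.H90.DC
open Pool.Agent.H51.DG Pool.Agent.H45.DY

theorem Tr_int (f : ℝ → ℂ) (hf : Function.Periodic f (2 * π)) (a : ℝ) (k : ℤ) :
    ∫ x in (0:ℝ)..(2 * π), f (x - a) * Complex.exp (-(k : ℂ) * (x : ℂ) * Complex.I) =
      Complex.exp (-(k : ℂ) * (a : ℂ) * Complex.I) *
        ∫ x in (0:ℝ)..(2 * π), f x * Complex.exp (-(k : ℂ) * (x : ℂ) * Complex.I) := by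
  set g : ℝ → ℂ := fun x => f x * Complex.exp (-(k : ℂ) * (x : ℂ) * Complex.I) with hg
  have hper : Function.Periodic g (2 * π) := by
    intro x
    simp only [hg]
    rw [hf x, kf_exp_per]
  have h1 : ∀ x : ℝ, f (x - a) * Complex.exp (-(k : ℂ) * (x : ℂ) * Complex.I) =
      Complex.exp (-(k : ℂ) * (a : ℂ) * Complex.I) * g (x - a) := by
    intro x
    simp only [hg]
    have e : -(k : ℂ) * (x : ℂ) * Complex.I =
        -(k : ℂ) * (a : ℂ) * Complex.I + -(k : ℂ) * ((x - a : ℝ) : ℂ) * Complex.I := by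
      push_cast; ring
    rw [e, Complex.exp_add]
    ring
  simp only [h1]
  rw [intervalIntegral.integral_const_mul, intervalIntegral.integral_comp_sub_right]
  have h2 := hper.intervalIntegral_add_eq (0 - a) 0
  rw [show 0 - a + 2 * π = 2 * π - a by ring, zero_add (2 * π)] at h2
  rw [h2]

theorem translate (w0 : ℝ → ℝ) (a : ℝ) (h : GlobalSmooth fun x => w0 (x + a)) :
    GlobalSmooth w0 := by
  intro T hT
  obtain ⟨ω, u, hω, hu, pω, pu, h0, hF, hE⟩ := h T hT
  have hmap : ContDiff ℝ ((⊤ : ℕ∞) : WithTop ℕ∞) (fun p : ℝ × ℝ => (p.1, p.2 - a)) :=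
    contDiff_fst.prodMk (contDiff_snd.sub contDiff_const)
  have hdper : ∀ t, Function.Periodic (fun x : ℝ => deriv (fun y : ℝ => u (t, y)) x) (2 * π) := by
    intro t x
    have h1 := deriv_comp_add_const (fun y : ℝ => u (t, y)) (2 * π) x
    have h2 : (fun y : ℝ => u (t, y + 2 * π)) = fun y => u (t, y) := funext fun y => pu t y
    rw [h2] at h1
    exact h1.symm
  have hdu : ∀ t x, deriv (fun y : ℝ => u (t, y - a)) x =
      deriv (fun y : ℝ => u (t, y)) (x - a) := by
    intro t x
    exact deriv_comp_sub_const (fun y : ℝ => u (t, y)) a x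
  have hdω : ∀ t x, deriv (fun y : ℝ => ω (t, y - a)) x =
      deriv (fun y : ℝ => ω (t, y)) (x - a) := by
    intro t x
    exact deriv_comp_sub_const (fun y : ℝ => ω (t, y)) a x
  refine ⟨fun p => ω (p.1, p.2 - a), fun p => u (p.1, p.2 - a), hω.comp hmap,
    hu.comp hmap, ?_, ?_, ?_, ?_, ?_⟩
  · intro t x
    show ω (t, x + 2 * π - a) = ω (t, x - a)
    rw [show x + 2 * π - a = x - a + 2 * π by ring, pω]
  · intro t x
    show u (t, x + 2 * π - a) = u (t, x - a)
    rw [show x + 2 * π - a = x - a + 2 * π by ring, pu]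
  · intro x
    show ω (0, x - a) = w0 x
    rw [h0]
    show w0 (x - a + a) = w0 x
    rw [sub_add_cancel]
  · intro t ht k
    simp only [hdu]
    have i1 := Tr_int (fun x : ℝ => ((deriv (fun y : ℝ => u (t, y)) x : ℝ) : ℂ)) (fun x => by
        have := hdper t x
        simp only at this ⊢
        rw [this]) a k
    have i2 := Tr_int (fun x : ℝ => ((ω (t, x) : ℝ) : ℂ)) (fun x => by
        simp only
        rw [pω]) a k
    rw [i1, i2, hF t ht k]
    ring
  · intro t ht x
    have := hE t ht (x - a)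
    simp only [hdu, hdω]
    exact this

end Pool.Agent.H90.DC
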