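import Pool.Agent.H45.DY.Basic
import Pool.Agent.H51.DG.St2

/-!
# Project DC (MP_64e98b_an, De Gregorio, note 1848): odd data with four sign changes; definitions

Class (C): `w0` smooth, `2π`-periodic, odd, `w0 ≥ 0` on `[0,p]`, `w0 ≤ 0` on `[p,π]`, `0 < p < π`.

THE PROOF.  `Ph x = cot²(x/2)/4 - 1/8`.  For the arc `(0, X t p)`, with `W = w(t,·)`, `l = X t p`:
* `E(t) = EI w u X 0 p t` (renormalised `∫ w_x²/w`), `E' = ED = EF W l = 2 ∫_0^l W' HT(W')`;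
* `J(t) = JI w u X 0 0 p t - (3/8) (MI 0 p t - MI 0 p 0)`, `J' = JF W l = ∫_0^l W (2 HT W Ph + UU W dPh)`;
* static inequality `9/8 * EF W l ≤ JF W l` (`StatC.lean`);
* Hardy inequality `JI ≤ EI + C (1 + sup|lam|)` (`HardyD.lean`).
So `E(t) ≤ C (1 + sup|lam|)`; the same for the arc `(p,π)` by the shift `x ↦ x + π`; then
`|u_x| ≤ C (1 + sup|lam|)` (`Vel.lean`), `lam' = u_x`, Gronwall.

Static kernels on `(0,π)²` (`b = max W 0`, `n = max (-W) 0`, `Y = cot(x/2)`, `Z = cot(y/2)`):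
`JF W l = ∫∫ b(x) b(y) kJb + ∫∫ b(x) n(y) kJn`, `EF W l = ∫∫ b(x) b(y) kEb + ∫∫ b(x) n(y) kEn`,
`8π (kJb - 9/8 kEb) ≥ -k3 - r3k - l1k + r1k`, `kJn - 9/8 kEn ≥ 0` where `b(x) n(y) ≠ 0` (`x < l < y`).
-/

set_option autoImplicit false
open Real Set MeasureTheory Filter Topology

namespace Pool.Agent.H90.DC
open Pool.Agent.H45.FL Pool.Agent.H51.DG Pool.Agent.H45.DY

/-- class (C) of initial data -/
structure GoodC (w0 : ℝ → ℝ) (p : ℝ) : Prop where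
  smooth : ContDiff ℝ ((⊤ : ℕ∞) : WithTop ℕ∞) w0
  per : Function.Periodic w0 (2 * π)
  odd : ∀ x, w0 (-x) = -w0 x
  p0 : 0 < p
  p1 : p < π
  pos : ∀ x ∈ Icc (0:ℝ) p, 0 ≤ w0 x
  neg : ∀ x ∈ Icc p π, w0 x ≤ 0

/-- static sign structure -/
structure OddC (W : ℝ → ℝ) (l : ℝ) : Prop where
  per : Function.Periodic W (2 * π)
  odd : ∀ x, W (-x) = -W x
  l0 : 0 < l
  l1 : l < π
  pos : ∀ x ∈ Icc (0:ℝ) l, 0 ≤ W x
  neg : ∀ x ∈ Icc l π, W x ≤ 0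

/-- the same, Lipschitz and vanishing near `0` -/
structure VanC (W : ℝ → ℝ) (l : ℝ) : Prop extends OddC W l where
  lip : ∃ K, Lip K W
  van : ∃ δ : ℝ, 0 < δ ∧ ∀ x, |x| ≤ δ → W x = 0

/-- the dynamics of class (C): smooth solution for all times with compactly supported velocity, odd,
with `u_x = HT w` on `[0,T]` -/
structure DynC (w u : ℝ × ℝ → ℝ) (X : ℝ → ℝ → ℝ) (p T : ℝ) : Prop where
  cs : CSol w u
  fl : Flow u X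
  p0 : 0 < p
  p1 : p < π
  pos : ∀ x ∈ Icc (0:ℝ) p, 0 ≤ w (0, x)
  neg : ∀ x ∈ Icc p π, w (0, x) ≤ 0
  hT : 0 ≤ T
  hu : ∀ t ∈ Icc 0 T, ∀ x, px u (t, x) = HT (fun y => w (t, y)) x
  ow : ∀ t x, w (t, -x) = -w (t, x)
  ou : ∀ t x, u (t, -x) = -u (t, x)

/-- the weight -/
noncomputable def Ph (x : ℝ) : ℝ := ct x ^ 2 / 4 - 1 / 8

/-- its derivative on `(0,π)` -/
noncomputable def dPh (x : ℝ) : ℝ := -(ct x * (1 + ct x ^ 2) / 4)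

noncomputable def JF (W : ℝ → ℝ) (l : ℝ) : ℝ :=
  ∫ x in (0:ℝ)..l, W x * (2 * HT W x * Ph x + UU W x * dPh x)

noncomputable def EF (W : ℝ → ℝ) (l : ℝ) : ℝ :=
  2 * ∫ x in (0:ℝ)..l, deriv W x * HT (deriv W) x

/-- `cos/sin³` of the half angle -/
noncomputable def csk (z : ℝ) : ℝ := Real.cos (z / 2) / Real.sin (z / 2) ^ 3

/-- logarithmic kernel of the velocity of an odd function -/
noncomputable def Lg (x y : ℝ) : ℝ :=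
  Real.log (Real.sin ((x - y) / 2)) - Real.log (Real.sin ((x + y) / 2))

noncomputable def kJb (x y : ℝ) : ℝ :=
  1 / (2 * π) * ((Ph x - Ph y) * ct (x - y) - (Ph x + Ph y) * ct (x + y)
    + (dPh x + dPh y) * Lg x y)

noncomputable def kJn (x y : ℝ) : ℝ :=
  1 / π * (Ph x * (ct (x + y) - ct (x - y)) - dPh x * Lg x y)

noncomputable def kEb (x y : ℝ) : ℝ := 1 / (2 * π) * csk (x + y)

noncomputable def kEn (x y : ℝ) : ℝ := -(1 / (2 * π) * (csk (x + y) + csk (y - x)))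

/-- kernel form of `EF` -/
noncomputable def EFk (W : ℝ → ℝ) : ℝ :=
  (∫ z in Sq1, bF W z.1 * bF W z.2 * kEb z.1 z.2) + ∫ z in Sq1, bF W z.1 * bR W z.2 * kEn z.1 z.2

/-- regular kernel of degree 3 -/
noncomputable def r3k (Y Z : ℝ) : ℝ := rl0 Y Z + 1 / 2 * (Y ^ 3 * Z ^ 3) / (Y + Z) ^ 3

/-- regular kernel of degree 1 -/
noncomputable def r1k (Y Z : ℝ) : ℝ :=
  Y * Real.log (1 + Z / Y) + Z * Real.log (1 + Y / Z) - Y * Z / (Y + Z)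
    - 9 / 2 * (Y * Z * (Y ^ 2 + Z ^ 2 - Y * Z)) / (Y + Z) ^ 3

/-- `2 cosh (τ/2)` -/
noncomputable def cc (τ : ℝ) : ℝ := 2 * Real.cosh (τ / 2)

/-- `r3k (e^{-r}) (e^{-s}) = e^{-3(r+s)/2} q3 (r-s)` -/
noncomputable def q3 (τ : ℝ) : ℝ := pp τ + 1 / 2 / cc τ ^ 3

noncomputable def q3d (τ : ℝ) : ℝ := ppd τ - 3 / 2 * Real.sinh (τ / 2) / cc τ ^ 4

noncomputable def m3 (τ : ℝ) : ℝ := ell τ + 6 / cc τ ^ 5

/-- `r1k (e^{-r}) (e^{-s}) = e^{-(r+s)/2} q1 (r-s)` -/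
noncomputable def q1 (τ : ℝ) : ℝ :=
  Real.exp (-τ / 2) * Real.log (1 + Real.exp τ) + Real.exp (τ / 2) * Real.log (1 + Real.exp (-τ))
    - 11 / 2 / cc τ + 27 / 2 / cc τ ^ 3

noncomputable def q1d (τ : ℝ) : ℝ :=
  -(1 / 2) * (Real.exp (-τ / 2) * Real.log (1 + Real.exp τ))
    + 1 / 2 * (Real.exp (τ / 2) * Real.log (1 + Real.exp (-τ)))
    + 11 / 2 * Real.sinh (τ / 2) / cc τ ^ 2 - 81 / 2 * Real.sinh (τ / 2) / cc τ ^ 4

noncomputable def m1 (τ : ℝ) : ℝ := 1 / cc τ - 38 / cc τ ^ 3 + 162 / cc τ ^ 5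

/-- `m1` minus a positive function, with integral zero -/
noncomputable def ps1 (τ : ℝ) : ℝ := 61 / 64 / cc τ - 38 / cc τ ^ 3 + 162 / cc τ ^ 5

/-- regular kernels: `q'' = m² q - ℓ` -/
structure KerR (m : ℝ) (q q' ℓ : ℝ → ℝ) : Prop where
  d1 : ∀ τ, HasDerivAt q (q' τ) τ
  d2 : ∀ τ, HasDerivAt q' (m ^ 2 * q τ - ℓ τ) τ
  bd : ∃ K, ∀ τ, |q τ| ≤ K ∧ |q' τ| ≤ K ∧ |ℓ τ| ≤ K
  cl : Continuous ℓ
  ev : ∀ τ, ℓ (-τ) = ℓ τ

/-- the quantity `∫_p^q |w0| lma²` -/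
noncomputable def ZZ (w u : ℝ × ℝ → ℝ) (X : ℝ → ℝ → ℝ) (p q t : ℝ) : ℝ :=
  ∫ α in Ioo p q, |w (0, α)| * lma u X t α ^ 2

end Pool.Agent.H90.DC
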