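import Pool.Agent.H90.DC.Defs
import Pool.Agent.H45.DY.ChArc
import Pool.Agent.H45.DY.HTd
import Pool.Agent.H45.DY.JIder

/-!
# DC job 11: dynamics of the arc `(0, X t p)`

* `Xodd`: `s ↦ -X s (-α)` solves the same differential equation (`ou`) with the same initial value:
  `traj_unique` (Exist.lean).  `X0`: `α = 0`.  `Xpi`: `X t π = X t (-π) + 2π` (`Flow.per`) and `Xodd`.
* `Xp`: `Flow.mono`.  `zero_p`: `w (0,p) = 0` (both signs), `w (0,0) = 0` (odd).
* `oddC`: signs with labels as in `Dyn.sgn_R` (`Flow.surj`, `w_along`, monotonicity).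
* `lipC`: a smooth periodic function is Lipschitz (`HTd_lip` or as in `Sgn.lean`).
* `pxxC`: as `pxx` in HTd.lean.
* `uX`: `UU (w(t,·)) x = u (t,x)` for `t ∈ [0,T]` (`u (t,0) = 0` by oddness, fundamental theorem, `hu`).
* `ED_eq`: `ch_arc` with `f x = deriv W x * HT (deriv W) x` (`X t 0 = 0`), `wx_along`, `pxxC`,
  `integral over Ioo = interval integral`; see `EEid.lean`.
* `JD_eq`: for `α ∈ (0,p)`: `|X t α - X t 0| = X t α ∈ (0,π)`, `ph ξ = (1 + ct ξ²)/4`,
  `dph ξ = -(ct ξ (1+ct ξ²)/4)` there, `|w(0,α)| exp(2 lam) = w (t,X t α) exp(lam)` (`w_along`), so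
  `JD - (3/8) MD = ∫ w(t,X) [2 px u (ph - 3/8) + u dph] exp(lam) dα`, and `ch_arc`.
  Integrability: `JD_integrable` (JIder.lean) and bounded continuous integrands.
-/

set_option autoImplicit false
open Real Set MeasureTheory Filter Topology

namespace Pool.Agent.H90.DC
open Pool.Agent.H45.FL Pool.Agent.H51.DG Pool.Agent.H45.DY

variable {w u : ℝ × ℝ → ℝ} {X : ℝ → ℝ → ℝ} {p T : ℝ}

theorem DynC.Xodd (h : DynC w u X p T) (t α : ℝ) : X t (-α) = -X t α := by
  refine traj_unique h.cs.vel (fun s => X s (-α)) (fun s => -X s α)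
    (fun s => h.fl.ode s (-α)) (fun s => ?_) 0 ?_ t
  · show HasDerivAt (fun s => -X s α) (u (s, -X s α)) s
    rw [h.ou]
    exact (h.fl.ode s α).neg
  · show X 0 (-α) = -X 0 α
    rw [h.fl.init, h.fl.init]

theorem DynC.X0 (h : DynC w u X p T) (t : ℝ) : X t 0 = 0 := by
  have h1 := h.Xodd t 0
  rw [neg_zero] at h1
  linarith

theorem DynC.Xpi (h : DynC w u X p T) (t : ℝ) : X t π = π := by
  have h1 := h.Xodd t π
  have h2 := Flow.per h.cs.vel h.fl t (-π)
  have h3 : -π + 2 * π = π := by ring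
  rw [h3, h1] at h2
  linarith

theorem DynC.Xp (h : DynC w u X p T) (t : ℝ) : 0 < X t p ∧ X t p < π := by
  have hm := Flow.mono h.cs.vel h.fl t
  have h1 := hm h.p0
  have h2 := hm h.p1
  rw [h.X0] at h1
  rw [h.Xpi] at h2
  exact ⟨h1, h2⟩

theorem DynC.zero (h : DynC w u X p T) : w (0, 0) = 0 ∧ w (0, p) = 0 ∧ w (0, π) = 0 := by
  refine ⟨?_, ?_, ?_⟩
  · have h1 := h.ow 0 0
    rw [neg_zero] at h1
    linarith
  · exact le_antisymm (h.neg p ⟨le_rfl, h.p1.le⟩) (h.pos p ⟨h.p0.le, le_rfl⟩)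
  · have h1 := h.ow 0 π
    have h2 := h.cs.per 0 (-π)
    have h3 : -π + 2 * π = π := by ring
    rw [h3, h1] at h2
    linarith

theorem DynC.arc0 (h : DynC w u X p T) : Arc w 0 0 p :=
  ⟨h.p0, by linarith [h.p1, Real.pi_pos], Or.inl rfl, h.zero.1⟩

theorem DynC.oddC (h : DynC w u X p T) (t : ℝ) : OddC (fun x => w (t, x)) (X t p) := by
  have hm := Flow.mono h.cs.vel h.fl t
  refine ⟨fun x => h.cs.per t x, fun x => h.ow t x, (h.Xp t).1, (h.Xp t).2, fun x hx => ?_,
    fun x hx => ?_⟩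
  · show 0 ≤ w (t, x)
    obtain ⟨α, rfl⟩ := Flow.surj h.cs.vel h.fl t x
    rw [← h.X0 t] at hx
    rw [w_along h.cs h.fl]
    exact mul_nonneg (h.pos α ⟨hm.le_iff_le.1 hx.1, hm.le_iff_le.1 hx.2⟩) (Real.exp_pos _).le
  · show w (t, x) ≤ 0
    obtain ⟨α, rfl⟩ := Flow.surj h.cs.vel h.fl t x
    have hx2 : X t α ≤ X t π := by
      rw [h.Xpi t]
      exact hx.2
    rw [w_along h.cs h.fl]
    exact mul_nonpos_of_nonpos_of_nonneg (h.neg α ⟨hm.le_iff_le.1 hx.1, hm.le_iff_le.1 hx2⟩)
      (Real.exp_pos _).le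

theorem DynC.smC (h : DynC w u X p T) (t : ℝ) :
    ContDiff ℝ ((⊤ : ℕ∞) : WithTop ℕ∞) (fun x => w (t, x)) :=
  h.cs.sm.comp (contDiff_const.prodMk contDiff_id)

lemma DynL_cont {v : ℝ × ℝ → ℝ} (hv : ContDiff ℝ ((⊤ : ℕ∞) : WithTop ℕ∞) v) (t : ℝ) :
    Continuous (fun y : ℝ => v (t, y)) :=
  hv.continuous.comp (continuous_const.prodMk continuous_id)

theorem DynC.lipC (h : DynC w u X p T) (t : ℝ) : ∃ K, Lip K (fun x => w (t, x)) :=
  HTd_lip (f := fun y => w (t, y)) (f' := fun y => px w (t, y))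
    (fun y => hasDerivAt_px w h.cs.sm t y) (DynL_cont (smooth_px w h.cs.sm) t)
    (fun y => HTd_per h.cs.per t y)

theorem DynC.pxxC (h : DynC w u X p T) (t : ℝ) (ht : t ∈ Icc 0 T) (x : ℝ) :
    px (px u) (t, x) = HT (fun y => px w (t, y)) x := by
  have hs := h.cs.sm
  have hs1 := smooth_px w hs
  have hs2 := smooth_px (px w) hs1
  have hp1 := HTd_per h.cs.per
  have hp2 := HTd_per hp1
  obtain ⟨K, hK⟩ := h.lipC t
  obtain ⟨K', hK'⟩ := HTd_lip (f := fun y => px w (t, y)) (f' := fun y => px (px w) (t, y))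
    (fun y => hasDerivAt_px (px w) hs1 t y) (DynL_cont hs2 t) (fun y => hp2 t y)
  have key := HTd_der (f := fun y => w (t, y)) (f' := fun y => px w (t, y))
    (fun y => hasDerivAt_px w hs t y) hK hK' x
  have e1 : (fun y => px u (t, y)) = HT (fun y => w (t, y)) := funext fun y => h.hu t ht y
  show deriv (fun y => px u (t, y)) x = _
  rw [e1]
  exact key.deriv

/-- the velocity of `w(t,·)` -/
lemma DynL_UU (h : DynC w u X p T) (t : ℝ) (ht : t ∈ Icc 0 T) (x : ℝ) :
    UU (fun y => w (t, y)) x = u (t, x) := by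
  have hsm := h.cs.vel.sm
  have h0 : u (t, 0) = 0 := by
    have h1 := h.ou t 0
    rw [neg_zero] at h1
    linarith
  have h1 : (∫ y in (0:ℝ)..x, px u (t, y)) = u (t, x) - u (t, 0) :=
    intervalIntegral.integral_eq_sub_of_hasDerivAt (fun y _ => hasDerivAt_px u hsm t y)
      ((DynL_cont (smooth_px u hsm) t).intervalIntegrable _ _)
  unfold UU
  rw [← intervalIntegral.integral_congr (fun y _ => h.hu t ht y), h1, h0, sub_zero]

theorem DynC.ED_eq (h : DynC w u X p T) (t : ℝ) (ht : t ∈ Icc 0 T) :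
    ED w u X 0 p t = EF (fun x => w (t, x)) (X t p) := by
  have hd : deriv (fun x => w (t, x)) = fun x => px w (t, x) := rfl
  have h1 := ch_arc h.cs h.fl t ht.1 0 p
    (fun x => 2 * (px w (t, x) * HT (fun y => px w (t, y)) x))
  rw [h.X0] at h1
  unfold EF
  rw [hd, ← intervalIntegral.integral_const_mul, intervalIntegral.integral_of_le (h.Xp t).1.le,
    integral_Ioc_eq_integral_Ioo, h1]
  unfold ED
  refine integral_congr_ae (Filter.Eventually.of_forall fun α => ?_)
  show 2 * (px w (0, α) + w (0, α) * lma u X t α) *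
      (px (px u) (t, X t α) * Real.exp (lam u X t α)) =
    2 * (px w (t, X t α) * HT (fun y => px w (t, y)) (X t α)) * Real.exp (lam u X t α)
  rw [← h.pxxC t ht, wx_along h.cs h.fl t α ht.1]
  ring

lemma DynL_ct {ξ : ℝ} (h0 : 0 < ξ) (h1 : ξ < π) :
    ph ξ = Ph ξ + 3 / 8 ∧ dph ξ = dPh ξ := by
  have hs : 0 < Real.sin (ξ / 2) :=
    Real.sin_pos_of_pos_of_lt_pi (by linarith) (by linarith [Real.pi_pos])
  have h2 : Real.cos (ξ / 2) ^ 2 = 1 - Real.sin (ξ / 2) ^ 2 := by
    linarith [Real.sin_sq_add_cos_sq (ξ / 2)]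
  have hct : ct ξ ^ 2 = 1 / Real.sin (ξ / 2) ^ 2 - 1 := by
    unfold ct
    rw [div_pow, h2]
    field_simp
  constructor
  · unfold ph Ph
    rw [if_pos h1.le, hct]
    field_simp
    ring
  · unfold dph dPh
    rw [if_pos h1.le, hct]
    unfold ct
    field_simp
    ring

theorem DynC.JD_eq (h : DynC w u X p T) (t : ℝ) (ht : t ∈ Icc 0 T) :
    JD w u X 0 0 p t - 3 / 8 * MD w u X 0 p t = JF (fun x => w (t, x)) (X t p) := by
  have hm := Flow.mono h.cs.vel h.fl t
  have h1 := ch_arc h.cs h.fl t ht.1 0 p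
    (fun x => w (t, x) * (2 * px u (t, x) * Ph x + u (t, x) * dPh x))
  rw [h.X0] at h1
  have hJF : JF (fun x => w (t, x)) (X t p) =
      ∫ x in Ioo 0 (X t p), w (t, x) * (2 * px u (t, x) * Ph x + u (t, x) * dPh x) := by
    unfold JF
    rw [intervalIntegral.integral_of_le (h.Xp t).1.le, integral_Ioc_eq_integral_Ioo]
    refine integral_congr_ae (Filter.Eventually.of_forall fun x => ?_)
    show w (t, x) * (2 * HT (fun y => w (t, y)) x * Ph x + UU (fun y => w (t, y)) x * dPh x) =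
      w (t, x) * (2 * px u (t, x) * Ph x + u (t, x) * dPh x)
    rw [DynL_UU h t ht, ← h.hu t ht]
  have hcX : Continuous fun α => X t α :=
    (Flow.cont h.cs.vel h.fl).comp (continuous_const.prodMk continuous_id)
  have hcl : Continuous fun α => lam u X t α :=
    (lam_cont h.cs.vel h.fl).comp (continuous_const.prodMk continuous_id)
  have hcw : Continuous fun α : ℝ => w (0, α) :=
    h.cs.sm.continuous.comp (continuous_const.prodMk continuous_id)
  have hcu : Continuous fun α => px u (t, X t α) :=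
    (smooth_px u h.cs.vel.sm).continuous.comp (continuous_const.prodMk hcX)
  have hM : IntegrableOn
      (fun α => 2 * (|w (0, α)| * Real.exp (2 * lam u X t α) * px u (t, X t α))) (Ioo 0 p) := by
    have hc : Continuous
        (fun α => 2 * (|w (0, α)| * Real.exp (2 * lam u X t α) * px u (t, X t α))) :=
      continuous_const.mul (((continuous_abs.comp hcw).mul
        (Real.continuous_exp.comp (continuous_const.mul hcl))).mul hcu)
    exact (hc.continuousOn.integrableOn_compact (isCompact_Icc (a := (0:ℝ)) (b := p))).mono_set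
      Ioo_subset_Icc_self
  rw [hJF, h1]
  unfold JD MD
  rw [← integral_const_mul, ← integral_sub (JD_integrable h.cs h.fl h.arc0 t)
    (hM.const_mul (3 / 8))]
  refine setIntegral_congr_fun measurableSet_Ioo fun α hα => ?_
  show |w (0, α)| * gd u X 0 t α -
      3 / 8 * (2 * (|w (0, α)| * Real.exp (2 * lam u X t α) * px u (t, X t α))) =
    w (t, X t α) * (2 * px u (t, X t α) * Ph (X t α) + u (t, X t α) * dPh (X t α)) *
      Real.exp (lam u X t α)
  have hx0 : 0 < X t α := by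
    have h2 := hm hα.1
    rwa [h.X0] at h2
  have hx1 : X t α < π := (hm hα.2).trans (h.Xp t).2
  have hw : |w (0, α)| = w (0, α) := abs_of_nonneg (h.pos α ⟨hα.1.le, hα.2.le⟩)
  have hu0 : u (t, 0) = 0 := by
    have h2 := h.ou t 0
    rw [neg_zero] at h2
    linarith
  have he : Real.exp (2 * lam u X t α) = Real.exp (lam u X t α) * Real.exp (lam u X t α) := by
    rw [← Real.exp_add]
    ring_nf
  unfold gd
  rw [h.X0, sub_zero, abs_of_pos hx0, if_pos hα.1, hu0, sub_zero, hw, (DynL_ct hx0 hx1).1,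
    (DynL_ct hx0 hx1).2, w_along h.cs h.fl, he]
  ring

/-- the derivative of an odd function is even -/
lemma DynL_even {v : ℝ × ℝ → ℝ} (hv : ∀ t x, v (t, -x) = -v (t, x)) (t x : ℝ) :
    px v (t, -x) = px v (t, x) := by
  show deriv (fun y => v (t, y)) (-x) = deriv (fun y => v (t, y)) x
  have h1 : (fun y => v (t, -y)) = fun y => -v (t, y) := funext fun y => hv t y
  have h2 := deriv_comp_neg (fun y => v (t, y)) x
  rw [h1] at h2
  have h3 : deriv (fun y => -v (t, y)) x = -deriv (fun y => v (t, y)) x := deriv.fun_neg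
  rw [h3] at h2
  linarith

/-- the derivative of an even function is odd -/
lemma DynL_odd {v : ℝ × ℝ → ℝ} (hv : ∀ t x, v (t, -x) = v (t, x)) (t x : ℝ) :
    px v (t, -x) = -px v (t, x) := by
  show deriv (fun y => v (t, y)) (-x) = -deriv (fun y => v (t, y)) x
  have h1 : (fun y => v (t, -y)) = fun y => v (t, y) := funext fun y => hv t y
  have h2 := deriv_comp_neg (fun y => v (t, y)) x
  rw [h1] at h2
  linarith

/-- symmetry of the label integrals -/
theorem DynC.lma_sq (h : DynC w u X p T) (t α : ℝ) :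
    lam u X t (-α) = lam u X t α ∧ lma u X t (-α) ^ 2 = lma u X t α ^ 2 := by
  have he := DynL_even h.ou
  have ho := DynL_odd he
  have hl : ∀ s, lam u X s (-α) = lam u X s α := by
    intro s
    unfold lam
    refine intervalIntegral.integral_congr fun r _ => ?_
    show px u (r, X r (-α)) = px u (r, X r α)
    rw [h.Xodd, he]
  refine ⟨hl t, ?_⟩
  have h2 : lma u X t (-α) = -lma u X t α := by
    unfold lma
    rw [← intervalIntegral.integral_neg]
    refine intervalIntegral.integral_congr fun r _ => ?_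
    show px (px u) (r, X r (-α)) * Real.exp (lam u X r (-α)) =
      -(px (px u) (r, X r α) * Real.exp (lam u X r α))
    rw [h.Xodd, ho, hl]
    ring
  rw [h2]
  ring

end Pool.Agent.H90.DC
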