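import Pool.Agent.H90.DC.Defs
import Pool.Agent.H51.DG.SA

/-!
# DC job 12: the pointwise Hardy inequality in label variables

`w0 ∈ C²`, `w0 ≥ 0` on `[0,p]`, `w0(0) = w0(p) = 0`, `s = -w0'(p) ≥ 0`, `s0 = w0'(0) ≥ 0`, `K > 0` with
`|w0''| ≤ K` on `[0,p]`, `s ≤ K p/2`; `g(α) = -max (s - K(p-α)) 0 ≤ 0` (zero for `α ≤ p/2`).
(a) LANDAU: if `α ∈ [0,p]`, `|w0'(α)| ≤ 2K y` and `α ± y ∈ [0,p]` then, with `h = -w0'(α)/(2K)`,
  `0 ≤ w0(α+h) ≤ w0(α) + w0'(α) h + K h²/2`, so `w0'(α)² ≤ (8K/3) w0(α)`.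
(b) `α ∈ (0,p/2]`: `(w0' - w0 ct α/2)² ≤ C w0`.  If `α ≤ s0/K`: `w0 ≥ (s0/2) α`, `|w0' - s0| ≤ K α`,
  `|w0 - s0 α| ≤ K α²/2`, `0 ≤ 2/α - ct α ≤ α` on `(0,π)`, so `|w0' - w0 ct α/2| ≤ C1 α` and
  `(..)² ≤ C1² α² ≤ C1² (2/K) w0` (`α ≤ s0/K`, `w0 ≥ s0 α/2`).  If `α ≥ s0/K`: `|w0'| ≤ s0 + Kα ≤ 2Kα`, (a) with
  `y = α` (`2α ≤ p`), and `w0 ≤ s0 α + K α²/2 ≤ (3/2) K α²`, `(w0 ct α/2)² ≤ w0 · w0/α² ≤ (3/2) K w0`
  (`ct α ≤ 2/α`, `cot_le`).
(c) `α ∈ [p/2,p)`, `y = p - α`: `(w0' - g)² ≤ 8K w0`.  If `y < s/K`: `g = -(s - Ky)`,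
  `|w0' + s| ≤ Ky`, so `|w0' - g| ≤ 2Ky`, `w0 ≥ s y - K y²/2 ≥ (s/2) y`, `4K²y² ≤ 4K² (s/K) y ≤ 8K w0`.  If
  `y ≥ s/K`: `g = 0`, `|w0'| ≤ s + Ky ≤ 2Ky` and (a) (`y ≤ p/2 ≤ α`).
THE INEQUALITY.  `D = w0 l² + 2w0' l + (1/4) w0 (Q² - ct²) - w0'(Q - ct) - w0 l Q`.
If `w0 > 0`: `D = w0 (w0'/w0 + l - Q/2)² - w0 (w0'/w0 - ct/2)²`.
* `α ≤ p/2`: `D ≥ -(w0' - w0 ct/2)²/w0 ≥ -C` and `g = 0`.
* `α ≥ p/2`: `w0 y² ≥ 2 g y - g²/w0` with `y = w0'/w0 + l - Q/2` gives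
  `D ≥ -(g - w0')²/w0 + 2 g (l - Q/2) - (1/4) w0 ct² + w0' ct ≥ -8K + 2 g l - C2` (`-g Q ≥ 0`; `ct` is bounded
  on `[p/2,p)`).
If `w0 = 0`: (b) or (c) give `w0' = 0` (for `α ≤ p/2`) resp. `w0' = g`, then `D = 2 w0' l - w0'(Q - ct)`,
which is `0` resp. `2 g l - g Q + g ct ≥ 2 g l - C2`.
-/

set_option autoImplicit false
open Real Set MeasureTheory Filter Topology

namespace Pool.Agent.H90.DC
open Pool.Agent.H45.FL Pool.Agent.H51.DG Pool.Agent.H45.DY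

private theorem HPt_taylor {w0 : ℝ → ℝ} {p : ℝ} (hs : ContDiff ℝ 2 w0) :
    ∃ K0 : ℝ, 0 ≤ K0 ∧
      (∀ a ∈ Icc (0:ℝ) p, ∀ b ∈ Icc (0:ℝ) p, |deriv w0 b - deriv w0 a| ≤ K0 * |b - a|) ∧
      (∀ a ∈ Icc (0:ℝ) p, ∀ b ∈ Icc (0:ℝ) p,
        |w0 b - w0 a - deriv w0 a * (b - a)| ≤ K0 * (b - a) ^ 2) := by
  have hd : Differentiable ℝ w0 := hs.differentiable (by norm_num)
  have hs1 : ContDiff ℝ 1 (deriv w0) := by
    have h := (contDiff_succ_iff_deriv (n := 1)).1 (by simpa [one_add_one_eq_two] using hs)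
    exact h.2.2
  have hd1 : Differentiable ℝ (deriv w0) := hs1.differentiable (by norm_num)
  have hc2 : Continuous (deriv (deriv w0)) := hs1.continuous_deriv (by norm_num)
  obtain ⟨K1, hK1⟩ := (isCompact_Icc (a := (0:ℝ)) (b := p)).exists_bound_of_continuousOn
    hc2.continuousOn
  have hK0 : ∀ x ∈ Icc (0:ℝ) p, ‖deriv (deriv w0) x‖ ≤ |K1| := fun x hx =>
    (hK1 x hx).trans (le_abs_self _)
  have h1 : ∀ a ∈ Icc (0:ℝ) p, ∀ b ∈ Icc (0:ℝ) p, |deriv w0 b - deriv w0 a| ≤ |K1| * |b - a| := by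
    intro a ha b hb
    have h := (convex_Icc (0:ℝ) p).norm_image_sub_le_of_norm_deriv_le (f := deriv w0)
      (fun x _ => hd1 x) hK0 ha hb
    simpa [Real.norm_eq_abs] using h
  refine ⟨|K1|, abs_nonneg _, h1, ?_⟩
  intro a ha b hb
  have key : ∀ x ∈ uIcc a b, |deriv w0 x - deriv w0 a| ≤ |K1| * |b - a| := by
    intro x hx
    have hxI : x ∈ Icc (0:ℝ) p := by
      rcases mem_uIcc.1 hx with h | h
      · exact ⟨ha.1.trans h.1, h.2.trans hb.2⟩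
      · exact ⟨hb.1.trans h.1, h.2.trans ha.2⟩
    refine (h1 a ha x hxI).trans ?_
    apply mul_le_mul_of_nonneg_left _ (abs_nonneg _)
    exact abs_sub_left_of_mem_uIcc hx
  have h2 := (convex_uIcc a b).norm_image_sub_le_of_norm_deriv_le
    (f := fun x => w0 x - deriv w0 a * x) (C := |K1| * |b - a|) (x := a) (y := b)
    (fun x _ => (hd x).sub ((differentiableAt_id).const_mul _)) ?_ left_mem_uIcc right_mem_uIcc
  · rw [Real.norm_eq_abs, Real.norm_eq_abs] at h2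
    have e : w0 b - deriv w0 a * b - (w0 a - deriv w0 a * a) = w0 b - w0 a - deriv w0 a * (b - a) := by
      ring
    rw [e] at h2
    refine h2.trans (le_of_eq ?_)
    rw [mul_assoc, ← sq, sq_abs]
  · intro x hx
    have h3 : deriv (fun x => w0 x - deriv w0 a * x) x = deriv w0 x - deriv w0 a := by
      have h4 : HasDerivAt (fun x => w0 x - deriv w0 a * x) (deriv w0 x - deriv w0 a * 1) x :=
        (hd x).hasDerivAt.sub ((hasDerivAt_id x).const_mul (deriv w0 a))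
      rw [h4.deriv, mul_one]
    rw [h3, Real.norm_eq_abs]
    exact key x hx

private theorem HPt_ct {a : ℝ} (h0 : 0 < a) (h1 : a < π) :
    2 / a - a ≤ Real.cos (a / 2) / Real.sin (a / 2) := by
  have hs : 0 < Real.sin (a / 2) := Real.sin_pos_of_pos_of_lt_pi (by linarith) (by linarith [Real.pi_pos])
  have hc : 0 ≤ Real.cos (a / 2) := Real.cos_nonneg_of_neg_pi_div_two_le_of_le (by linarith [Real.pi_pos])
    (by linarith)
  rw [le_div_iff₀ hs]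
  have h2 : 1 - (a / 2) ^ 2 / 2 ≤ Real.cos (a / 2) := Real.one_sub_sq_div_two_le_cos
  have h3 : Real.sin (a / 2) ≤ a / 2 := Real.sin_le (by linarith)
  rcases le_total (2 / a - a) 0 with h | h
  · nlinarith
  · have h4 : (2 / a - a) * Real.sin (a / 2) ≤ (2 / a - a) * (a / 2) :=
      mul_le_mul_of_nonneg_left h3 h
    have h5 : (2 / a - a) * (a / 2) = 1 - a ^ 2 / 2 := by
      field_simp
    nlinarith [sq_nonneg a]

/-- Landau -/
private theorem HPt_landau {w0 : ℝ → ℝ} {p K : ℝ} (hK : 0 < K)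
    (hpos : ∀ x ∈ Icc (0:ℝ) p, 0 ≤ w0 x)
    (hT : ∀ a ∈ Icc (0:ℝ) p, ∀ b ∈ Icc (0:ℝ) p,
        |w0 b - w0 a - deriv w0 a * (b - a)| ≤ K / 2 * (b - a) ^ 2)
    {α y : ℝ} (hα : α ∈ Icc (0:ℝ) p) (h1 : 0 ≤ α - y) (h2 : α + y ≤ p)
    (h3 : |deriv w0 α| ≤ 2 * K * y) : deriv w0 α ^ 2 ≤ 8 * K / 3 * w0 α := by
  have h4 := abs_le.1 h3
  set d := deriv w0 α with hd
  have h5 : -y ≤ -d / (2 * K) ∧ -d / (2 * K) ≤ y := by
    rw [le_div_iff₀ (by linarith), div_le_iff₀ (by linarith)]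
    constructor <;> nlinarith
  have hb : α + -d / (2 * K) ∈ Icc (0:ℝ) p := ⟨by linarith, by linarith⟩
  have h6 := hpos _ hb
  have h7 := (abs_le.1 (hT α hα _ hb)).2
  rw [← hd] at h7
  have e : K / 2 * (α + -d / (2 * K) - α) ^ 2 + d * (α + -d / (2 * K) - α) = -(3 * d ^ 2 / (8 * K)) := by
    field_simp
    ring
  have h8 : 3 * d ^ 2 / (8 * K) ≤ w0 α := by linarith
  rw [div_le_iff₀ (by linarith)] at h8
  nlinarith

/-- part (b) -/
private theorem HPt_b {w0 : ℝ → ℝ} {p K : ℝ} (hp1 : p < π) (hK : 0 < K) (h0 : w0 0 = 0)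
    (hs0 : 0 ≤ deriv w0 0)
    (hpos : ∀ x ∈ Icc (0:ℝ) p, 0 ≤ w0 x)
    (hL : ∀ a ∈ Icc (0:ℝ) p, ∀ b ∈ Icc (0:ℝ) p, |deriv w0 b - deriv w0 a| ≤ K * |b - a|)
    (hT : ∀ a ∈ Icc (0:ℝ) p, ∀ b ∈ Icc (0:ℝ) p,
        |w0 b - w0 a - deriv w0 a * (b - a)| ≤ K / 2 * (b - a) ^ 2)
    {α c : ℝ} (hα : 0 < α) (hα2 : α ≤ p / 2) (hc0 : 0 ≤ c) (hc1 : c ≤ 2 / α) (hc2 : 2 / α - α ≤ c) :
    (deriv w0 α - w0 α * c / 2) ^ 2 ≤
      (2 * (K + K / 2 + deriv w0 0 * p) ^ 2 / K + 9 * K) * w0 α := by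
  have hαI : α ∈ Icc (0:ℝ) p := ⟨hα.le, by linarith⟩
  have h0I : (0:ℝ) ∈ Icc (0:ℝ) p := ⟨le_rfl, by linarith⟩
  have hw := hpos α hαI
  have hL1 := hL 0 h0I α hαI
  have hT1 := hT 0 h0I α hαI
  rw [h0] at hT1
  simp only [sub_zero] at hL1 hT1
  rw [abs_of_pos hα] at hL1
  set d := deriv w0 α with hd
  set s0 := deriv w0 0 with hs0d
  set w := w0 α with hwd
  have hca : c * α ≤ 2 := by rwa [le_div_iff₀ hα] at hc1
  have hcb : 2 - α ^ 2 ≤ c * α := by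
    have h : (2 / α - α) * α ≤ c * α := mul_le_mul_of_nonneg_right hc2 hα.le
    have e : (2 / α - α) * α = 2 - α ^ 2 := by field_simp
    linarith
  have hca0 : 0 ≤ c * α := mul_nonneg hc0 hα.le
  have hC1 : 0 ≤ 2 * (K + K / 2 + s0 * p) ^ 2 / K := by positivity
  rcases le_total (K * α) s0 with hcase | hcase
  · -- α ≤ s0 / K
    have hb1 : |d - w * c / 2| ≤ (K + K / 2 + s0 * p) * α := by
      have e : d - w * c / 2 = (d - s0) - (w - s0 * α) * c / 2 + s0 * (1 - c * α / 2) := by ring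
      have hA : |(w - s0 * α) * c / 2| ≤ K / 2 * α := by
        rw [abs_div, abs_mul, abs_of_nonneg hc0, abs_of_pos (by norm_num : (0:ℝ) < 2)]
        have : |w - s0 * α| * c ≤ K / 2 * α ^ 2 * c := mul_le_mul_of_nonneg_right hT1 hc0
        have h2 : K / 2 * α ^ 2 * c ≤ K * α := by
          have : K / 2 * α * (c * α) ≤ K / 2 * α * 2 := mul_le_mul_of_nonneg_left hca (by positivity)
          nlinarith
        linarith
      have hB : |s0 * (1 - c * α / 2)| ≤ s0 * p * α := by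
        rw [abs_mul, abs_of_nonneg hs0, mul_assoc]
        apply mul_le_mul_of_nonneg_left _ hs0
        rw [abs_le]
        constructor
        · nlinarith
        · nlinarith
      rw [e]
      calc |(d - s0) - (w - s0 * α) * c / 2 + s0 * (1 - c * α / 2)|
          ≤ |(d - s0) - (w - s0 * α) * c / 2| + |s0 * (1 - c * α / 2)| := abs_add_le _ _
        _ ≤ |d - s0| + |(w - s0 * α) * c / 2| + |s0 * (1 - c * α / 2)| := by
            have := abs_sub (d - s0) ((w - s0 * α) * c / 2)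
            linarith
        _ ≤ K * α + K / 2 * α + s0 * p * α := by linarith
        _ = _ := by ring
    have hw2 : s0 / 2 * α ≤ w := by
      have := (abs_le.1 hT1).1
      nlinarith
    have hb2 : (d - w * c / 2) ^ 2 ≤ (K + K / 2 + s0 * p) ^ 2 * α ^ 2 := by
      rw [← sq_abs, ← mul_pow]
      exact pow_le_pow_left₀ (abs_nonneg _) hb1 2
    have hb3 : α ^ 2 ≤ 2 / K * w := by
      rw [div_mul_eq_mul_div, le_div_iff₀ hK]
      nlinarith
    calc (d - w * c / 2) ^ 2 ≤ (K + K / 2 + s0 * p) ^ 2 * α ^ 2 := hb2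
      _ ≤ (K + K / 2 + s0 * p) ^ 2 * (2 / K * w) := mul_le_mul_of_nonneg_left hb3 (sq_nonneg _)
      _ = 2 * (K + K / 2 + s0 * p) ^ 2 / K * w := by ring
      _ ≤ _ := by
        apply mul_le_mul_of_nonneg_right _ hw
        linarith
  · have hd1 : |d| ≤ 2 * K * α := by
      have h1 := abs_le.1 hL1
      rw [abs_le]
      constructor
      · nlinarith
      · nlinarith
    have hd2 := HPt_landau hK hpos hT hαI (y := α) (by linarith) (by linarith) hd1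
    have hw3 : w ≤ 3 / 2 * K * α ^ 2 := by
      have := (abs_le.1 hT1).2
      nlinarith
    have hw4 : (w * c / 2) ^ 2 ≤ 3 / 2 * K * w := by
      have e : (w * c / 2) ^ 2 = w * (w * c ^ 2 / 4) := by ring
      rw [e]
      have h5 : w * c ^ 2 / 4 ≤ 3 / 2 * K := by
        have h6 : w * c ^ 2 ≤ 3 / 2 * K * (c * α) ^ 2 := by
          rw [mul_pow]
          have := mul_le_mul_of_nonneg_right hw3 (sq_nonneg c)
          linarith
        have h7 : (c * α) ^ 2 ≤ 4 := by nlinarith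
        nlinarith
      have := mul_le_mul_of_nonneg_left h5 hw
      linarith
    have h9 : (d - w * c / 2) ^ 2 ≤ 2 * d ^ 2 + 2 * (w * c / 2) ^ 2 := by
      nlinarith [sq_nonneg (d + w * c / 2)]
    have h10 : (d - w * c / 2) ^ 2 ≤ 9 * K * w := by
      have : 0 ≤ K * w := by positivity
      nlinarith
    refine h10.trans (mul_le_mul_of_nonneg_right ?_ hw)
    linarith

/-- part (c) -/
private theorem HPt_c {w0 : ℝ → ℝ} {p K s : ℝ} (hp : 0 < p) (hK : 0 < K) (hpz : w0 p = 0)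
    (hs : deriv w0 p = -s) (hs0 : 0 ≤ s)
    (hpos : ∀ x ∈ Icc (0:ℝ) p, 0 ≤ w0 x)
    (hL : ∀ a ∈ Icc (0:ℝ) p, ∀ b ∈ Icc (0:ℝ) p, |deriv w0 b - deriv w0 a| ≤ K * |b - a|)
    (hT : ∀ a ∈ Icc (0:ℝ) p, ∀ b ∈ Icc (0:ℝ) p,
        |w0 b - w0 a - deriv w0 a * (b - a)| ≤ K / 2 * (b - a) ^ 2)
    {α : ℝ} (hα : p / 2 ≤ α) (hα2 : α < p) :
    (deriv w0 α + max (s - K * (p - α)) 0) ^ 2 ≤ 8 * K * w0 α := by
  have hαI : α ∈ Icc (0:ℝ) p := ⟨by linarith, by linarith⟩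
  have hpI : p ∈ Icc (0:ℝ) p := ⟨by linarith, le_rfl⟩
  have hw := hpos α hαI
  have hL1 := hL p hpI α hαI
  have hT1 := hT p hpI α hαI
  rw [hpz, hs] at hT1
  rw [hs, abs_of_neg (by linarith : α - p < 0)] at hL1
  obtain ⟨hL2, hL3⟩ := abs_le.1 hL1
  obtain ⟨hT2, hT3⟩ := abs_le.1 hT1
  obtain ⟨y, hy⟩ : ∃ y, y = p - α := ⟨_, rfl⟩
  have hα' : α = p - y := by linarith
  have hy0 : 0 < y := by linarith
  rw [← hy]
  have hq : α - p = -y := by linarith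
  rw [hq] at hL2 hL3 hT2 hT3
  rcases le_total (K * y) s with hcase | hcase
  · rw [max_eq_left (by linarith)]
    have h1 : |deriv w0 α + (s - K * y)| ≤ 2 * K * y := by
      rw [abs_le]
      constructor <;> nlinarith
    have h2 : s / 2 * y ≤ w0 α := by nlinarith
    have h3 : (deriv w0 α + (s - K * y)) ^ 2 ≤ (2 * K * y) ^ 2 := by
      rw [← sq_abs]
      exact pow_le_pow_left₀ (abs_nonneg _) h1 2
    have h4 : (2 * K * y) ^ 2 ≤ 4 * K * (s * y) := by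
      have : K * y * y ≤ s * y := mul_le_mul_of_nonneg_right hcase hy0.le
      nlinarith
    nlinarith
  · rw [max_eq_right (by linarith)]
    have h1 : |deriv w0 α| ≤ 2 * K * y := by
      rw [abs_le]
      constructor <;> nlinarith
    have h2 := HPt_landau hK hpos hT hαI (y := y) (by linarith) (by linarith) h1
    have : 0 ≤ K * w0 α := by positivity
    rw [add_zero]
    nlinarith

private theorem HPt_alg1 {w d l Q c C : ℝ} (hw : 0 ≤ w) (hC : 0 ≤ C) (h : (d - w * c / 2) ^ 2 ≤ C * w) :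
    -C ≤ w * l ^ 2 + 2 * d * l + 1 / 4 * w * (Q ^ 2 - c ^ 2) - d * (Q - c) - w * l * Q := by
  rcases hw.eq_or_lt with h0 | h0
  · rw [← h0] at h ⊢
    have hd : d = 0 := by
      have : d ^ 2 ≤ 0 := by simpa using h
      nlinarith [sq_nonneg d]
    rw [hd]
    simpa using hC
  · have e : w * (w * l ^ 2 + 2 * d * l + 1 / 4 * w * (Q ^ 2 - c ^ 2) - d * (Q - c) - w * l * Q)
        = (d + w * (l - Q / 2)) ^ 2 - (d - w * c / 2) ^ 2 := by ring
    by_contra hcon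
    rw [not_le] at hcon
    have := mul_lt_mul_of_pos_left hcon h0
    rw [e] at this
    nlinarith [sq_nonneg (d + w * (l - Q / 2))]

private theorem HPt_alg2 {w d l Q c C C2 g : ℝ} (hw : 0 ≤ w) (hQ : 0 ≤ Q) (hg : 0 ≤ g) (hC : 0 ≤ C)
    (h : (d + g) ^ 2 ≤ C * w) (hC2 : w * c ^ 2 / 4 + |d| * |c| ≤ C2) :
    -(2 * g * l) - (C + C2) ≤
      w * l ^ 2 + 2 * d * l + 1 / 4 * w * (Q ^ 2 - c ^ 2) - d * (Q - c) - w * l * Q := by
  have hdc : -(|d| * |c|) ≤ d * c := by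
    rw [← abs_mul]
    exact neg_abs_le _
  rcases hw.eq_or_lt with h0 | h0
  · rw [← h0] at h hC2 ⊢
    have hd : d = -g := by
      have : (d + g) ^ 2 ≤ 0 := by simpa using h
      nlinarith [sq_nonneg (d + g)]
    have h3 : 0 ≤ g * Q := mul_nonneg hg hQ
    rw [hd] at hC2 hdc ⊢
    nlinarith
  · have h1 : w * (w * l ^ 2 + 2 * d * l + 1 / 4 * w * (Q ^ 2 - c ^ 2) - d * (Q - c) - w * l * Q
        + 2 * g * l + w * c ^ 2 / 4 - d * c)
        = (d + g + w * (l - Q / 2)) ^ 2 - (d + g) ^ 2 + w * g * Q := by ring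
    have h3 : 0 ≤ w * g * Q := by positivity
    by_contra hcon
    rw [not_le] at hcon
    have h4 : w * l ^ 2 + 2 * d * l + 1 / 4 * w * (Q ^ 2 - c ^ 2) - d * (Q - c) - w * l * Q
        + 2 * g * l + w * c ^ 2 / 4 - d * c < -C := by linarith
    have := mul_lt_mul_of_pos_left h4 h0
    rw [h1] at this
    nlinarith [sq_nonneg (d + g + w * (l - Q / 2))]

theorem hardy_pt {w0 : ℝ → ℝ} {p : ℝ} (hp : 0 < p) (hp1 : p < π) (hs : ContDiff ℝ 2 w0)
    (h0 : w0 0 = 0) (hpz : w0 p = 0) (hpos : ∀ x ∈ Icc (0:ℝ) p, 0 ≤ w0 x) :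
    ∃ K s C : ℝ, 0 < K ∧ 0 ≤ s ∧ s ≤ K * (p / 2) ∧ 0 ≤ C ∧ ∀ α ∈ Ioo (0:ℝ) p, ∀ l Q : ℝ, 0 ≤ Q →
      -(2 * max (s - K * (p - α)) 0 * l) - C ≤
        w0 α * l ^ 2 + 2 * deriv w0 α * l + 1 / 4 * w0 α * (Q ^ 2 - ct α ^ 2)
          - deriv w0 α * (Q - ct α) - w0 α * l * Q := by
  obtain ⟨K0, hK0, hL0, hT0⟩ := HPt_taylor (p := p) hs
  have hdiff : Differentiable ℝ w0 := hs.differentiable (by norm_num)
  -- signs of the boundary derivatives
  have hs0 : 0 ≤ deriv w0 0 := by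
    by_contra hcon
    rw [not_le] at hcon
    have hd := hL0 0 ⟨le_rfl, hp.le⟩
    have hT := hT0 0 ⟨le_rfl, hp.le⟩
    -- pick a small point
    obtain ⟨x, hx0, hxp, hx⟩ : ∃ x : ℝ, 0 < x ∧ x ≤ p ∧ K0 * x < -deriv w0 0 := by
      refine ⟨min p (-deriv w0 0 / (K0 + 1) / 2), lt_min hp (by
        apply div_pos (div_pos (by linarith) (by linarith)) (by norm_num)), min_le_left _ _, ?_⟩
      have h1 : min p (-deriv w0 0 / (K0 + 1) / 2) ≤ -deriv w0 0 / (K0 + 1) / 2 := min_le_right _ _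
      have h2 : K0 * min p (-deriv w0 0 / (K0 + 1) / 2) ≤ K0 * (-deriv w0 0 / (K0 + 1) / 2) :=
        mul_le_mul_of_nonneg_left h1 hK0
      have h3 : K0 * (-deriv w0 0 / (K0 + 1) / 2) < -deriv w0 0 := by
        rw [div_div, mul_div_assoc', div_lt_iff₀ (by linarith)]
        nlinarith
      linarith
    have h1 := (abs_le.1 (hT x ⟨hx0.le, hxp⟩)).2
    have h2 := hpos x ⟨hx0.le, hxp⟩
    rw [h0] at h1
    simp only [sub_zero] at h1
    nlinarith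
  have hsp : 0 ≤ -deriv w0 p := by
    by_contra hcon
    rw [not_le] at hcon
    have hT := hT0 p ⟨hp.le, le_rfl⟩
    obtain ⟨x, hx0, hxp, hx⟩ : ∃ x : ℝ, 0 < x ∧ x ≤ p ∧ K0 * x < deriv w0 p := by
      refine ⟨min p (deriv w0 p / (K0 + 1) / 2), lt_min hp (by
        apply div_pos (div_pos (by linarith) (by linarith)) (by norm_num)), min_le_left _ _, ?_⟩
      have h1 : min p (deriv w0 p / (K0 + 1) / 2) ≤ deriv w0 p / (K0 + 1) / 2 := min_le_right _ _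
      have h2 : K0 * min p (deriv w0 p / (K0 + 1) / 2) ≤ K0 * (deriv w0 p / (K0 + 1) / 2) :=
        mul_le_mul_of_nonneg_left h1 hK0
      have h3 : K0 * (deriv w0 p / (K0 + 1) / 2) < deriv w0 p := by
        rw [div_div, mul_div_assoc', div_lt_iff₀ (by linarith)]
        nlinarith
      linarith
    have h1 := (abs_le.1 (hT (p - x) ⟨by linarith, by linarith⟩)).2
    have h2 := hpos (p - x) ⟨by linarith, by linarith⟩
    rw [hpz] at h1
    have e : p - x - p = -x := by ring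
    rw [e] at h1
    nlinarith
  obtain ⟨s, hsdef⟩ : ∃ s, s = -deriv w0 p := ⟨_, rfl⟩
  rw [← hsdef] at hsp
  obtain ⟨K, hKdef⟩ : ∃ K, K = 2 * K0 + 2 * s / p + 1 := ⟨_, rfl⟩
  have hsp2 : 0 ≤ 2 * s / p := by positivity
  have hK : 0 < K := by rw [hKdef]; linarith
  have hL : ∀ a ∈ Icc (0:ℝ) p, ∀ b ∈ Icc (0:ℝ) p, |deriv w0 b - deriv w0 a| ≤ K * |b - a| := by
    intro a ha b hb
    exact (hL0 a ha b hb).trans (mul_le_mul_of_nonneg_right (by rw [hKdef]; linarith) (abs_nonneg _))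
  have hT : ∀ a ∈ Icc (0:ℝ) p, ∀ b ∈ Icc (0:ℝ) p,
      |w0 b - w0 a - deriv w0 a * (b - a)| ≤ K / 2 * (b - a) ^ 2 := by
    intro a ha b hb
    exact (hT0 a ha b hb).trans (mul_le_mul_of_nonneg_right (by rw [hKdef]; linarith) (sq_nonneg _))
  have hsK : s ≤ K * (p / 2) := by
    have h1 : 2 * s / p ≤ K := by rw [hKdef]; linarith
    rw [div_le_iff₀ hp] at h1
    linarith
  obtain ⟨Cb, hCb⟩ : ∃ Cb, Cb = 2 * (K + K / 2 + deriv w0 0 * p) ^ 2 / K + 9 * K := ⟨_, rfl⟩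
  have hCb0 : 0 ≤ Cb := by rw [hCb]; positivity
  obtain ⟨C2, hC2⟩ : ∃ C2, C2 = (s * p + K * p ^ 2) * (4 / p) ^ 2 / 4 + (s + K * p) * (4 / p) := ⟨_, rfl⟩
  have hC20 : 0 ≤ C2 := by rw [hC2]; positivity
  refine ⟨K, s, Cb + (8 * K + C2), hK, hsp, hsK, by positivity, ?_⟩
  intro α hα l Q hQ
  have hα0 := hα.1
  have hα1 := hα.2
  have hαI : α ∈ Icc (0:ℝ) p := ⟨hα0.le, hα1.le⟩
  have hαπ : α < π := by linarith
  have hw := hpos α hαI
  obtain ⟨hc0, hc1⟩ := cot_le hα0 hαπ.le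
  have hc2 := HPt_ct hα0 hαπ
  have hct : ct α = Real.cos (α / 2) / Real.sin (α / 2) := rfl
  rw [← hct] at hc0 hc1 hc2
  rcases le_total α (p / 2) with hcase | hcase
  · have hb := HPt_b hp1 hK h0 hs0 hpos hL hT hα0 hcase hc0 hc1 hc2
    rw [← hCb] at hb
    have h1 := HPt_alg1 (l := l) (Q := Q) hw hCb0 hb
    have h2 : max (s - K * (p - α)) 0 = 0 := by
      apply max_eq_right
      have : K * (p / 2) ≤ K * (p - α) := mul_le_mul_of_nonneg_left (by linarith) hK.le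
      linarith
    rw [h2]
    linarith
  · have hc := HPt_c hp hK hpz (by rw [hsdef]; ring) hsp hpos hL hT hcase hα1
    have hpI : p ∈ Icc (0:ℝ) p := ⟨hp.le, le_rfl⟩
    have hct4 : ct α ≤ 4 / p := by
      refine hc1.trans ?_
      rw [div_le_div_iff₀ hα0 hp]
      linarith
    have hd : |deriv w0 α| ≤ s + K * p := by
      have h1 := hL p hpI α hαI
      have h2 : |deriv w0 p| = s := by rw [← abs_neg, ← hsdef, abs_of_nonneg hsp]
      have h3 : |α - p| ≤ p := by rw [abs_le]; constructor <;> linarith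
      have h4 : K * |α - p| ≤ K * p := mul_le_mul_of_nonneg_left h3 hK.le
      have h5 : |deriv w0 α| ≤ |deriv w0 α - deriv w0 p| + |deriv w0 p| := by
        have := abs_add_le (deriv w0 α - deriv w0 p) (deriv w0 p)
        simpa using this
      linarith
    have hwb : w0 α ≤ s * p + K * p ^ 2 := by
      have h1 := (abs_le.1 (hT p hpI α hαI)).2
      have h2 : deriv w0 p = -s := by rw [hsdef]; ring
      rw [hpz, h2] at h1
      have h3 : (α - p) ^ 2 ≤ p ^ 2 := by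
        rw [← sq_abs]
        apply pow_le_pow_left₀ (abs_nonneg _)
        rw [abs_le]; constructor <;> linarith
      have h4 : K / 2 * (α - p) ^ 2 ≤ K / 2 * p ^ 2 := mul_le_mul_of_nonneg_left h3 (by linarith)
      have h5 : s * (p - α) ≤ s * p := mul_le_mul_of_nonneg_left (by linarith) hsp
      have h6 : 0 ≤ K * p ^ 2 := by positivity
      linarith
    have hC : w0 α * ct α ^ 2 / 4 + |deriv w0 α| * |ct α| ≤ C2 := by
      rw [hC2, abs_of_nonneg hc0]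
      have h1 : ct α ^ 2 ≤ (4 / p) ^ 2 := pow_le_pow_left₀ hc0 hct4 2
      have h2 : w0 α * ct α ^ 2 ≤ (s * p + K * p ^ 2) * (4 / p) ^ 2 :=
        mul_le_mul hwb h1 (sq_nonneg _) (by positivity)
      have h3 : |deriv w0 α| * ct α ≤ (s + K * p) * (4 / p) :=
        mul_le_mul hd hct4 hc0 (by positivity)
      linarith
    have h1 := HPt_alg2 (l := l) (Q := Q) hw hQ (le_max_right (s - K * (p - α)) 0) (by positivity) hc hC
    linarith

end Pool.Agent.H90.DC
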