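import Pool.Agent.H90.DC.Defs
import Pool.Agent.H51.DG.ND

/-!
# DC job 1: regular kernels in difference form

Generalisation of `Pool/Agent/H51/DG/ND.lean` (read it first; `3/2, pp, ppd, ell` become
`m, q, q', ℓ`): `q`, `q'`, `ℓ` are bounded (`h.bd`), `q` is continuous (`h.d1`).
* `KerR.integrable_prod`: as `integrable_prod_pp`.
* `KerR.formula`: shear and Fubini (as `ND_fubini`): the left side is
  `∫ (corr B' A' τ + m² corr B A τ) q τ dτ` (the mixed terms cancel, `corr_parts`); integrate by parts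
  twice (`hasDerivAt_corr`, `hasDerivAt_corr'`, `corr_decay`, `q`, `q'` bounded):
  `∫ corr B A τ (m² q τ - q'' τ) dτ = ∫ ℓ τ corr B A τ dτ`, and `corr_swap`, `h.ev`.
-/

set_option autoImplicit false
open Real Set MeasureTheory Filter Topology

namespace Pool.Agent.H90.DC
open Pool.Agent.H45.FL Pool.Agent.H51.DG Pool.Agent.H45.DY

theorem KR_int_g {A A' : ℝ → ℝ} (hA : Adm A A') (m : ℝ) :
    Integrable (fun r => A' r + m * A r) := by
  obtain ⟨K, κ, hκ, hb⟩ := hA.dec
  have h1 : Integrable A := ND_integrable_of_bd (ND_cont hA) hκ (fun r => (hb r).1)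
  have h2 : Integrable A' := ND_integrable_of_bd hA.c hκ (fun r => (hb r).2)
  exact h2.add (h1.const_mul m)

theorem KerR.cont {m : ℝ} {q q' ℓ : ℝ → ℝ} (h : KerR m q q' ℓ) : Continuous q :=
  continuous_iff_continuousAt.mpr fun r => (h.d1 r).continuousAt

theorem KerR.cont' {m : ℝ} {q q' ℓ : ℝ → ℝ} (h : KerR m q q' ℓ) : Continuous q' :=
  continuous_iff_continuousAt.mpr fun r => (h.d2 r).continuousAt

theorem KerR.integrable_prod {m : ℝ} {q q' ℓ : ℝ → ℝ} (h : KerR m q q' ℓ) {A A' B B' : ℝ → ℝ}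
    (hA : Adm A A') (hB : Adm B B') :
    Integrable (fun z : ℝ × ℝ => (A' z.1 + m * A z.1) * (B' z.2 + m * B z.2) * q (z.1 - z.2)) := by
  obtain ⟨K, hK⟩ := h.bd
  have h1 : Integrable (fun z : ℝ × ℝ =>
      (A' z.1 + m * A z.1) * (B' z.2 + m * B z.2)) := (KR_int_g hA m).mul_prod (KR_int_g hB m)
  refine h1.mul_bdd (c := K) ?_ ?_
  · exact (h.cont.comp (continuous_fst.sub continuous_snd)).aestronglyMeasurable
  · exact Eventually.of_forall fun z => by
      rw [Real.norm_eq_abs]; exact (hK _).1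

theorem KR_corr_g {A A' B B' : ℝ → ℝ} (hA : Adm A A') (hB : Adm B B') (m τ : ℝ) :
    ∫ s, (A' (τ + s) + m * A (τ + s)) * (B' s + m * B s) =
      corr B' A' τ + m ^ 2 * corr B A τ := by
  obtain ⟨i1, i2, i3, i4⟩ := hB.integrable_mul hA τ
  have hp := corr_parts hB hA τ
  have e : ∀ s, (A' (τ + s) + m * A (τ + s)) * (B' s + m * B s) =
      B' s * A' (s + τ) + (m * (B' s * A (s + τ)) + (m * (B s * A' (s + τ)) +
        m ^ 2 * (B s * A (s + τ)))) := by
    intro s
    rw [add_comm τ s]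
    ring
  have j1 : Integrable (fun s => m ^ 2 * (B s * A (s + τ))) := i1.const_mul _
  have j2 : Integrable (fun s => m * (B s * A' (s + τ))) := i2.const_mul _
  have j3 : Integrable (fun s => m * (B' s * A (s + τ))) := i3.const_mul _
  have k2 : Integrable (fun s => m * (B s * A' (s + τ)) + m ^ 2 * (B s * A (s + τ))) :=
    j2.add j1
  have k3 : Integrable (fun s => m * (B' s * A (s + τ)) + (m * (B s * A' (s + τ)) +
      m ^ 2 * (B s * A (s + τ)))) := j3.add k2
  simp_rw [e]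
  rw [integral_add i4 k3, integral_add j3 k2, integral_add j2 j1, integral_const_mul,
    integral_const_mul, integral_const_mul]
  unfold corr at *
  rw [hp]
  ring

theorem KerR.fubini {m : ℝ} {q q' ℓ : ℝ → ℝ} (h : KerR m q q' ℓ) {A A' B B' : ℝ → ℝ}
    (hA : Adm A A') (hB : Adm B B') :
    ∫ z : ℝ × ℝ, (A' z.1 + m * A z.1) * (B' z.2 + m * B z.2) * q (z.1 - z.2) =
      ∫ τ, (corr B' A' τ + m ^ 2 * corr B A τ) * q τ := by
  have hI := h.integrable_prod hA hB
  have hmp : MeasurePreserving (fun z : ℝ × ℝ => (z.1 + z.2, z.2))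
      ((volume : Measure ℝ).prod volume) ((volume : Measure ℝ).prod volume) :=
    measurePreserving_add_prod _ _
  have hI2 : Integrable (fun z : ℝ × ℝ =>
      (A' (z.1 + z.2) + m * A (z.1 + z.2)) * (B' z.2 + m * B z.2) *
        q (z.1 + z.2 - z.2)) ((volume : Measure ℝ).prod volume) :=
    hmp.integrable_comp_of_integrable hI
  have e1 : ∫ z : ℝ × ℝ, (A' z.1 + m * A z.1) * (B' z.2 + m * B z.2) * q (z.1 - z.2) =
      ∫ z : ℝ × ℝ, (A' (z.1 + z.2) + m * A (z.1 + z.2)) * (B' z.2 + m * B z.2) *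
        q (z.1 + z.2 - z.2) ∂((volume : Measure ℝ).prod volume) := by
    have hm : AEStronglyMeasurable (fun z : ℝ × ℝ =>
      (A' z.1 + m * A z.1) * (B' z.2 + m * B z.2) * q (z.1 - z.2))
      (Measure.map (fun z : ℝ × ℝ => (z.1 + z.2, z.2)) ((volume : Measure ℝ).prod volume)) := by
      rw [hmp.map_eq]
      exact hI.aestronglyMeasurable
    have := integral_map hmp.measurable.aemeasurable hm
    rw [hmp.map_eq] at this
    exact this
  rw [e1, integral_prod _ hI2]
  refine integral_congr_ae (Eventually.of_forall fun τ => ?_)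
  simp only [add_sub_cancel_right]
  rw [integral_mul_const, KR_corr_g hA hB m τ]

theorem KerR.formula {m : ℝ} {q q' ℓ : ℝ → ℝ} (h : KerR m q q' ℓ) {A A' B B' : ℝ → ℝ}
    (hA : Adm A A') (hB : Adm B B') :
    ∫ z : ℝ × ℝ, (A' z.1 + m * A z.1) * (B' z.2 + m * B z.2) * q (z.1 - z.2) =
      ∫ τ, ℓ τ * corr A B τ := by
  rw [h.fubini hA hB]
  obtain ⟨K, κ, hκ, hC⟩ := corr_decay hB hA
  obtain ⟨Kp, hKp⟩ := h.bd
  have d0 : ∀ τ, HasDerivAt (corr B A) (corr B A' τ) τ := hasDerivAt_corr hB hA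
  have d1 : ∀ τ, HasDerivAt (corr B A') (-corr B' A' τ) τ := hasDerivAt_corr' hB hA
  have c0 : Continuous (corr B A) := continuous_iff_continuousAt.mpr fun r => (d0 r).continuousAt
  have c1 : Continuous (corr B A') := continuous_iff_continuousAt.mpr fun r => (d1 r).continuousAt
  have c2 : Continuous (corr B' A') := continuous_corr'' hB hA
  have i0 : Integrable (corr B A) := ND_integrable_of_bd c0 hκ fun r => (hC r).1
  have i1 : Integrable (corr B A') := ND_integrable_of_bd c1 hκ fun r => (hC r).2.1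
  have i2 : Integrable (corr B' A') := ND_integrable_of_bd c2 hκ fun r => (hC r).2.2
  have bp : ∀ᵐ τ : ℝ, ‖q τ‖ ≤ Kp := Eventually.of_forall fun τ => by
    rw [Real.norm_eq_abs]; exact (hKp τ).1
  have bpd : ∀ᵐ τ : ℝ, ‖q' τ‖ ≤ Kp := Eventually.of_forall fun τ => by
    rw [Real.norm_eq_abs]; exact (hKp τ).2.1
  have bl : ∀ᵐ τ : ℝ, ‖ℓ τ‖ ≤ Kp := Eventually.of_forall fun τ => by
    rw [Real.norm_eq_abs]; exact (hKp τ).2.2
  have j0 : Integrable (fun τ => corr B A τ * q' τ) :=
    i0.mul_bdd h.cont'.aestronglyMeasurable bpd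
  have j1 : Integrable (fun τ => corr B A' τ * q τ) :=
    i1.mul_bdd h.cont.aestronglyMeasurable bp
  have j2 : Integrable (fun τ => (corr B' A' τ + m ^ 2 * corr B A τ) * q τ) :=
    (i2.add (i0.const_mul _)).mul_bdd h.cont.aestronglyMeasurable bp
  have j3 : Integrable (fun τ => ℓ τ * corr B A τ) := by
    have h3 := i0.mul_bdd h.cl.aestronglyMeasurable bl
    refine h3.congr (Eventually.of_forall fun τ => ?_)
    exact mul_comm _ _
  have hF : ∀ τ, HasDerivAt (fun τ => corr B A τ * q' τ - corr B A' τ * q τ)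
      ((corr B' A' τ + m ^ 2 * corr B A τ) * q τ - ℓ τ * corr B A τ) τ := by
    intro τ
    have h := ((d0 τ).mul (h.d2 τ)).sub ((d1 τ).mul (h.d1 τ))
    refine h.congr_deriv ?_
    ring
  have h0 := integral_eq_zero_of_hasDerivAt_of_integrable hF (j2.sub j3) (j0.sub j1)
  have h1 : ∫ τ, (corr B' A' τ + m ^ 2 * corr B A τ) * q τ = ∫ τ, ℓ τ * corr B A τ := by
    have := integral_sub j2 j3
    rw [h0] at this
    linarith
  rw [h1, ← integral_neg_eq_self (fun τ => ℓ τ * corr A B τ)]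
  refine integral_congr_ae (Eventually.of_forall fun τ => ?_)
  simp only [h.ev, corr_swap]

end Pool.Agent.H90.DC
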