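import Pool.Agent.H90.DC.Uni
import Pool.Agent.H45.FL.Cut
import Pool.Agent.H45.DY.HTd
import Pool.Agent.H51.DG.SC

/-!
# DC job 10: oddness is preserved, cut-off (uses the stub `sol_unique`)

* `sol_reflect`: `W(t,x) = -w(t,-x)`, `U(t,x) = -u(t,-x)` is again a solution:
  `HT W (x) = HT w (-x)` (definition of `HT`: `W(x-s) - W(x+s) = -w(-x+s) + w(-x-s)`),
  `U_x (t,x) = u_x (t,-x)`, `W_x (t,x) = w_x (t,-x)`, `∫ U = -∫ u = 0` (reflection, periodicity).
* `odd_of_odd`: `sol_unique`.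
* `cut_sol_odd`: copy the proof of `Pool.Agent.H45.FL.cut_sol` (`W (t,x) = w (χ t, x)`,
  `U (t,x) = ρ t * u (χ t, x)`, `χ t ∈ (a,b)`), oddness is clear.
-/

set_option autoImplicit false
open Real Set MeasureTheory Filter Topology

namespace Pool.Agent.H90.DC
open Pool.Agent.H45.FL Pool.Agent.H51.DG Pool.Agent.H45.DY

theorem OddS_HT (f : ℝ → ℝ) (x : ℝ) : HT (fun y => -f (-y)) x = HT f (-x) := by
  unfold HT
  congr 1
  refine intervalIntegral.integral_congr fun s _ => ?_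
  show (-f (-(x - s)) - -f (-(x + s))) * _ = (f (-x - s) - f (-x + s)) * _
  rw [show -(x - s) = -x + s by ring, show -(x + s) = -x - s by ring]
  ring

theorem OddS_deriv (f : ℝ → ℝ) (x : ℝ) : deriv (fun y => -f (-y)) x = deriv f (-x) := by
  have h1 : deriv (fun y => -f (-y)) x = -deriv (fun y => f (-y)) x := deriv.fun_neg
  rw [h1, deriv_comp_neg, neg_neg]

theorem sol_reflect {a b : ℝ} {w u : ℝ × ℝ → ℝ} (h : Sol a b w u) :
    Sol a b (fun z => -w (z.1, -z.2)) (fun z => -u (z.1, -z.2)) := by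
  have hmap : ContDiffOn ℝ ((⊤ : ℕ∞) : WithTop ℕ∞) (fun z : ℝ × ℝ => (z.1, -z.2))
      (Ioo a b ×ˢ (univ : Set ℝ)) := (contDiff_fst.prodMk contDiff_snd.neg).contDiffOn
  have hmaps : MapsTo (fun z : ℝ × ℝ => (z.1, -z.2)) (Ioo a b ×ˢ (univ : Set ℝ))
      (Ioo a b ×ˢ (univ : Set ℝ)) := fun z hz => ⟨hz.1, mem_univ _⟩
  refine
    { sw := (h.sw.comp hmap hmaps).neg
      su := (h.su.comp hmap hmaps).neg
      pw := ?_
      pu := ?_
      hu := ?_
      mu := ?_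
      pde := ?_ }
  · intro t ht x
    show -w (t, -(x + 2 * π)) = -w (t, -x)
    have := h.pw t ht (-(x + 2 * π))
    rw [show -(x + 2 * π) + 2 * π = -x by ring] at this
    rw [this]
  · intro t ht x
    show -u (t, -(x + 2 * π)) = -u (t, -x)
    have := h.pu t ht (-(x + 2 * π))
    rw [show -(x + 2 * π) + 2 * π = -x by ring] at this
    rw [this]
  · intro t ht x
    show deriv (fun y : ℝ => -u (t, -y)) x = HT (fun y : ℝ => -w (t, -y)) x
    rw [OddS_deriv (fun y => u (t, y)) x, OddS_HT (fun y => w (t, y)) x]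
    exact h.hu t ht (-x)
  · intro t ht
    show ∫ x in (0:ℝ)..(2 * π), -u (t, -x) = 0
    rw [intervalIntegral.integral_neg]
    have h1 := SC_refl (f := fun y => u (t, y)) (fun y => h.pu t ht y) 0
    simp only [zero_sub] at h1
    rw [h1, h.mu t ht, neg_zero]
  · intro t ht x
    show deriv (fun s : ℝ => -w (s, -x)) t + -u (t, -x) * deriv (fun y : ℝ => -w (t, -y)) x =
      -w (t, -x) * deriv (fun y : ℝ => -u (t, -y)) x
    rw [OddS_deriv (fun y => u (t, y)) x, OddS_deriv (fun y => w (t, y)) x]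
    have h1 : deriv (fun s : ℝ => -w (s, -x)) t = -deriv (fun s : ℝ => w (s, -x)) t := deriv.fun_neg
    rw [h1]
    have h2 := h.pde t ht (-x)
    linarith

theorem odd_of_odd {a b : ℝ} {w u : ℝ × ℝ → ℝ} (h : Sol a b w u) (ha : a < 0) (hb : 0 < b)
    (h0 : ∀ x, w (0, -x) = -w (0, x)) :
    ∀ t ∈ Ioo a b, ∀ x, w (t, -x) = -w (t, x) ∧ u (t, -x) = -u (t, x) := by
  intro t ht x
  have key := sol_unique (sol_reflect h) h ha hb (fun x => by
    show -w (0, -x) = w (0, x)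
    rw [h0 x, neg_neg]) t ht x
  have k1 : -w (t, -x) = w (t, x) := key.1
  have k2 : -u (t, -x) = u (t, x) := key.2
  exact ⟨by linarith, by linarith⟩

theorem cut_sol_odd {a b : ℝ} {w u : ℝ × ℝ → ℝ} (h : Sol a b w u) (ha : a < 0)
    {T' : ℝ} (h0 : 0 ≤ T') (hb : T' < b)
    (ho : ∀ t ∈ Ioo a b, ∀ x, w (t, -x) = -w (t, x) ∧ u (t, -x) = -u (t, x)) :
    ∃ W U : ℝ × ℝ → ℝ, CSol W U ∧ (∀ t ∈ Icc 0 T', ∀ x : ℝ, W (t, x) = w (t, x)) ∧
      (∀ t ∈ Icc 0 T', ∀ x : ℝ, U (t, x) = u (t, x)) ∧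
      (∀ t x, W (t, -x) = -W (t, x)) ∧ (∀ t x, U (t, -x) = -U (t, x)) := by
  have hε : 0 < min (-a) (b - T') / 2 := by
    have : 0 < min (-a) (b - T') := lt_min (by linarith) (by linarith)
    linarith
  obtain ⟨χ, ρ, hρ, hcs, hχ, h1, hχI⟩ :=
    Pool.Agent.H45.DGL.chi_exists 0 T' (min (-a) (b - T') / 2) h0 hε
  have hIn : ∀ t, χ t ∈ Ioo a b := by
    intro t
    have h2 := hχI t
    have h3 : min (-a) (b - T') ≤ -a := min_le_left _ _
    have h4 : min (-a) (b - T') ≤ b - T' := min_le_right _ _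
    constructor <;> linarith [h2.1, h2.2]
  have hderiv : deriv χ = ρ := funext fun t => (hχ t).deriv
  have hχs : ContDiff ℝ ((⊤ : ℕ∞) : WithTop ℕ∞) χ := by
    rw [contDiff_infty_iff_deriv]
    refine ⟨fun t => (hχ t).differentiableAt, ?_⟩
    rw [hderiv]
    exact hρ
  have hmap : ContDiff ℝ ((⊤ : ℕ∞) : WithTop ℕ∞) (fun p : ℝ × ℝ => (χ p.1, p.2)) :=
    (hχs.comp contDiff_fst).prodMk contDiff_snd
  have hopen : IsOpen (Ioo a b ×ˢ (univ : Set ℝ)) := isOpen_Ioo.prod isOpen_univ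
  have hWs : ContDiff ℝ ((⊤ : ℕ∞) : WithTop ℕ∞) (fun p : ℝ × ℝ => w (χ p.1, p.2)) :=
    h.sw.comp_contDiff hmap fun p => ⟨hIn p.1, mem_univ _⟩
  have hus : ContDiff ℝ ((⊤ : ℕ∞) : WithTop ℕ∞) (fun p : ℝ × ℝ => u (χ p.1, p.2)) :=
    h.su.comp_contDiff hmap fun p => ⟨hIn p.1, mem_univ _⟩
  have hUs : ContDiff ℝ ((⊤ : ℕ∞) : WithTop ℕ∞) (fun p : ℝ × ℝ => ρ p.1 * u (χ p.1, p.2)) :=
    (hρ.comp contDiff_fst).mul hus
  refine ⟨fun p => w (χ p.1, p.2), fun p => ρ p.1 * u (χ p.1, p.2), ⟨⟨hUs, ?_, ?_⟩, hWs, ?_, ?_⟩,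
    ?_, ?_, ?_, ?_⟩
  · intro t x
    show ρ t * u (χ t, x + 2 * π) = ρ t * u (χ t, x)
    rw [h.pu _ (hIn t) x]
  · obtain ⟨C, hC⟩ := isBounded_iff_forall_norm_le.mp hcs.isCompact.isBounded
    refine ⟨C + 1, fun t x ht => ?_⟩
    show ρ t * u (χ t, x) = 0
    have hnot : t ∉ tsupport ρ := by
      intro hmem
      have := hC t hmem
      rw [Real.norm_eq_abs] at this
      linarith
    rw [image_eq_zero_of_notMem_tsupport hnot, zero_mul]
  · intro t x
    show w (χ t, x + 2 * π) = w (χ t, x)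
    exact h.pw _ (hIn t) x
  · rintro ⟨t, x⟩
    have hmem : (χ t, x) ∈ Ioo a b ×ˢ (univ : Set ℝ) := ⟨hIn t, mem_univ _⟩
    have hdiff : DifferentiableAt ℝ w (χ t, x) :=
      (h.sw.contDiffAt (hopen.mem_nhds hmem)).differentiableAt (by simp)
    have hin : DifferentiableAt ℝ (fun s : ℝ => w (s, x)) (χ t) := by
      have : DifferentiableAt ℝ (fun s : ℝ => (s, x)) (χ t) :=
        differentiableAt_id.prodMk (differentiableAt_const x)
      exact DifferentiableAt.comp (χ t) (f := fun s : ℝ => (s, x)) (g := w) hdiff this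
    have e1 : pt (fun p : ℝ × ℝ => w (χ p.1, p.2)) (t, x) =
        deriv (fun s : ℝ => w (s, x)) (χ t) * ρ t := by
      show deriv (fun s : ℝ => w (χ s, x)) t = _
      have := HasDerivAt.comp t (h := χ) (h₂ := fun s : ℝ => w (s, x)) hin.hasDerivAt (hχ t)
      exact this.deriv
    have e2 : px (fun p : ℝ × ℝ => ρ p.1 * u (χ p.1, p.2)) (t, x) =
        ρ t * deriv (fun y : ℝ => u (χ t, y)) x := by
      show deriv (fun y : ℝ => ρ t * u (χ t, y)) x = _
      rw [deriv_const_mul_field]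
    have e3 : px (fun p : ℝ × ℝ => w (χ p.1, p.2)) (t, x) = deriv (fun y : ℝ => w (χ t, y)) x := rfl
    rw [e1, e2, e3]
    show deriv (fun s : ℝ => w (s, x)) (χ t) * ρ t + ρ t * u (χ t, x) *
      deriv (fun y : ℝ => w (χ t, y)) x = w (χ t, x) * (ρ t * deriv (fun y : ℝ => u (χ t, y)) x)
    have hp := h.pde (χ t) (hIn t) x
    linear_combination ρ t * hp
  · intro t ht x
    show w (χ t, x) = w (t, x)
    rw [(h1 t ht).2]
  · intro t ht x
    show ρ t * u (χ t, x) = u (t, x)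
    rw [(h1 t ht).2, (h1 t ht).1, one_mul]
  · intro t x
    show w (χ t, -x) = -w (χ t, x)
    exact (ho (χ t) (hIn t) x).1
  · intro t x
    show ρ t * u (χ t, -x) = -(ρ t * u (χ t, x))
    rw [(ho (χ t) (hIn t) x).2]
    ring

end Pool.Agent.H90.DC
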