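import Pool.Agent.H90.DC.Fin
import Pool.Agent.H90.DC.OddS
import Pool.Agent.H45.DGL.Continue

/-!
# DC job 18: the theorem (uses the stubs of the imported files)

As `Pool/Agent/H51/DG/FD.lean`, with `odd_of_odd`, `cut_sol_odd`, `h1_leC`.
-/

set_option autoImplicit false
open Real Set MeasureTheory Filter Topology

namespace Pool.Agent.H90.DC
open Pool.Agent.H45.FL Pool.Agent.H51.DG Pool.Agent.H45.DY

theorem aprioriC (w0 : ℝ → ℝ) (p : ℝ) (hg : GoodC w0 p) (T : ℝ) (hT : 0 < T) :
    APriori w0 T := by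
  obtain ⟨N, hN⟩ := h1_leC w0 p hg T hT
  refine ⟨N, fun a b w u ha hb hbT hS hw0 t ht => ?_⟩
  have hT'0 : 0 ≤ (t + b) / 2 := by linarith [ht.1]
  have hT'b : (t + b) / 2 < b := by linarith [ht.2]
  have ho := odd_of_odd hS ha hb (fun x => by rw [hw0, hw0, hg.odd])
  obtain ⟨W, U, hC, hW, hU, oW, oU⟩ := cut_sol_odd hS ha hT'0 hT'b ho
  obtain ⟨X, hX⟩ := flow_exists hC.vel
  have h0mem : (0:ℝ) ∈ Icc 0 ((t + b) / 2) := ⟨le_rfl, hT'0⟩
  have htmem : t ∈ Icc 0 ((t + b) / 2) := ⟨ht.1, by linarith [ht.2]⟩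
  have hW0 : ∀ x, W (0, x) = w0 x := fun x => by rw [hW 0 h0mem, hw0]
  have hD : DynC W U X p ((t + b) / 2) :=
    { cs := hC
      fl := hX
      p0 := hg.p0
      p1 := hg.p1
      pos := fun x hx => by rw [hW0]; exact hg.pos x hx
      neg := fun x hx => by rw [hW0]; exact hg.neg x hx
      hT := hT'0
      hu := fun s hs x => by
        have h1 : (fun y => U (s, y)) = fun y => u (s, y) := funext fun y => hU s hs y
        have h2 : (fun y => W (s, y)) = fun y => w (s, y) := funext fun y => hW s hs y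
        show deriv (fun y => U (s, y)) x = HT (fun y => W (s, y)) x
        rw [h1, h2]
        exact hS.hu s ⟨by linarith [hs.1], by linarith [hs.2]⟩ x
      ow := oW
      ou := oU }
  have key := hN W U X _ hD (by linarith) hW0 t ⟨ht.1, by linarith [ht.2]⟩
  have h3 : (fun x => w (t, x)) = fun x => W (t, x) := funext fun x => (hW t htmem x).symm
  rw [h3]
  exact key

theorem mainC (w0 : ℝ → ℝ) (p : ℝ) (hg : GoodC w0 p) : GlobalSmooth w0 :=
  Pool.Agent.H45.DGL.global_of_apriori w0 hg.smooth hg.per (fun T hT => aprioriC w0 p hg T hT)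

end Pool.Agent.H90.DC
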