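import Pool.Agent.H90.DC.Defs
import Pool.Agent.H45.DGL.Parseval
import Pool.Agent.H45.DGL.HTseries
import Pool.Agent.H45.DGL.Data
import Pool.Agent.H51.DG.SA
import Pool.Agent.H45.DY.HTd

/-!
# DC job 9: uniqueness of smooth solutions

* `HT_L2`: `f` smooth, `2π`-periodic; `fourier_data` gives `c` with `f = Re FS c` (`c` rapidly decreasing,
  hermitian), `HT_FS`: `HT f = FS (hil c)` (real), `‖hil c k‖ ≤ ‖c k‖`, `parseval` for `c` and `hil c`
  (`hil c = dx (vel c)` is again rapidly decreasing and hermitian).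
* `poincare`: `∫ v = 0`, `(v x - v y)² ≤ 2π ∫_0^{2π} v'²` (Cauchy-Schwarz, `Uni_cs`), average over `y`:
  `v(x)² ≤ 2π ∫_0^{2π} v'²`, so `∫ v² ≤ 4π² ∫ v'²`.
* `sol_unique`: `d = w - w'`, `v = u - u'`, `v_x = HT d` (`HT` is linear), `∫ v = 0`:
  `d_t = d u_x + w' v_x - u d_x - v w'_x`.  Fix `t1 ∈ (a,b)`; on the compact interval `I` between `0` and
  `t1` all of `|u_x|, |w'|, |w'_x|` are `≤ K` (continuous).  `D(t) = ∫_0^{2π} d²`,
  `D' = 2 ∫ d d_t = 3 ∫ d² u_x + 2 ∫ d w' v_x - 2 ∫ d v w'_x` (`∫ 2 u d d_x = -∫ u_x d²`, integration by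
  parts over a period), `|D'| ≤ 3K D + K (D + ∫ v_x²) + K (D + ∫ v²) ≤ C D` by `HT_L2`, `poincare`.
  `D(0) = 0`, so `D = 0` on `I` (Gronwall in both directions of time).
  Then `d = 0` by continuity, `v_x = 0`, `v = 0`.
-/

set_option autoImplicit false
open Real Set MeasureTheory Filter Topology

namespace Pool.Agent.H90.DC
open Pool.Agent.H45.FL Pool.Agent.H51.DG Pool.Agent.H45.DY

theorem Uni_sq_sum (c : ℤ → ℂ) (h : Pool.Agent.H45.DGL.Rap c) : Summable fun k => ‖c k‖ ^ 2 :=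
  Pool.Agent.H45.DGL.Parseval_summable_sq c h

theorem HT_L2 {f : ℝ → ℝ} (hs : ContDiff ℝ ((⊤ : ℕ∞) : WithTop ℕ∞) f)
    (hp : Function.Periodic f (2 * π)) :
    ∫ x in (0:ℝ)..(2 * π), HT f x ^ 2 ≤ ∫ x in (0:ℝ)..(2 * π), f x ^ 2 := by
  obtain ⟨c, hH, hR, hc⟩ := Pool.Agent.H45.DGL.fourier_data f hs hp
  have e1 : f = fun x => (Pool.Agent.H45.DGL.FS c x).re := by
    funext x
    rw [← hc x, Complex.ofReal_re]
  have rh : Pool.Agent.H45.DGL.Rap (Pool.Agent.H45.DGL.hil c) := by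
    rw [← Pool.Agent.H45.DGL.dx_vel]
    exact Pool.Agent.H45.DGL.Rap_dx _ (Pool.Agent.H45.DGL.Rap_vel _ hR)
  have hh : Pool.Agent.H45.DGL.Herm (Pool.Agent.H45.DGL.hil c) := by
    rw [← Pool.Agent.H45.DGL.dx_vel]
    exact Pool.Agent.H45.DGL.Herm_dx _ (Pool.Agent.H45.DGL.Herm_vel _ hH)
  have e2 : ∀ x, HT f x = (Pool.Agent.H45.DGL.FS (Pool.Agent.H45.DGL.hil c) x).re := by
    intro x
    rw [← Pool.Agent.H45.DGL.HT_FS c hR hH x, Complex.ofReal_re, ← e1]
  have p1 := Pool.Agent.H45.DGL.parseval c hR hH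
  have p2 := Pool.Agent.H45.DGL.parseval (Pool.Agent.H45.DGL.hil c) rh hh
  have e3 : ∫ x in (0:ℝ)..(2 * π), HT f x ^ 2 =
      2 * π * ∑' k, ‖Pool.Agent.H45.DGL.hil c k‖ ^ 2 := by
    rw [← p2]
    simp only [e2]
  have e4 : ∫ x in (0:ℝ)..(2 * π), f x ^ 2 = 2 * π * ∑' k, ‖c k‖ ^ 2 := by
    rw [← p1]
    refine intervalIntegral.integral_congr fun x _ => ?_
    show f x ^ 2 = (Pool.Agent.H45.DGL.FS c x).re ^ 2
    rw [← hc x, Complex.ofReal_re]
  rw [e3, e4]
  have hle : ∀ k, ‖Pool.Agent.H45.DGL.hil c k‖ ^ 2 ≤ ‖c k‖ ^ 2 := by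
    intro k
    have h1 : ‖Pool.Agent.H45.DGL.hil c k‖ ≤ ‖c k‖ := by
      unfold Pool.Agent.H45.DGL.hil
      rw [norm_mul, norm_mul, norm_neg, Complex.norm_I, one_mul]
      have h2 : ‖((Int.sign k : ℤ) : ℂ)‖ ≤ 1 := by
        rw [Complex.norm_intCast]
        rcases lt_trichotomy k 0 with hk | hk | hk
        · rw [Int.sign_eq_neg_one_of_neg hk]; simp
        · rw [hk]; simp
        · rw [Int.sign_eq_one_of_pos hk]; simp
      calc ‖((Int.sign k : ℤ) : ℂ)‖ * ‖c k‖ ≤ 1 * ‖c k‖ :=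
            mul_le_mul_of_nonneg_right h2 (norm_nonneg _)
        _ = ‖c k‖ := one_mul _
    exact pow_le_pow_left₀ (norm_nonneg _) h1 2
  exact mul_le_mul_of_nonneg_left
    ((Uni_sq_sum _ rh).tsum_le_tsum hle (Uni_sq_sum _ hR)) (by positivity)

/-- Cauchy-Schwarz between two points -/
theorem Uni_cs {g g' : ℝ → ℝ} (hd : ∀ x, HasDerivAt g (g' x) x) (hc : Continuous g')
    {y x : ℝ} (hy : 0 ≤ y) (hyx : y ≤ x) (hx : x ≤ 2 * π) :
    (g x - g y) ^ 2 ≤ 2 * π * ∫ z in (0:ℝ)..(2 * π), g' z ^ 2 := by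
  have hpi := Real.pi_pos
  have h1 : ∫ z in y..x, g' z = g x - g y :=
    intervalIntegral.integral_eq_sub_of_hasDerivAt (fun z _ => hd z) (hc.intervalIntegrable _ _)
  obtain ⟨m, hm⟩ : ∃ m : ℝ, m = (g x - g y) / (2 * π) := ⟨_, rfl⟩
  have hm' : g x - g y = 2 * π * m := by
    rw [hm]
    field_simp
  have h2 : 0 ≤ ∫ z in y..x, (g' z - m) ^ 2 :=
    intervalIntegral.integral_nonneg hyx fun z _ => sq_nonneg _
  have h3 : ∫ z in y..x, (g' z - m) ^ 2 =
      (∫ z in y..x, g' z ^ 2) - 2 * m * (g x - g y) + m ^ 2 * (x - y) := by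
    have e1 : ∀ z, (g' z - m) ^ 2 = g' z ^ 2 - 2 * m * g' z + m ^ 2 := fun z => by ring
    simp only [e1]
    rw [intervalIntegral.integral_add, intervalIntegral.integral_sub,
      intervalIntegral.integral_const_mul, h1, intervalIntegral.integral_const]
    · rw [smul_eq_mul, mul_comm (x - y)]
    · exact (hc.pow 2).intervalIntegrable _ _
    · exact (hc.const_mul _).intervalIntegrable _ _
    · exact ((hc.pow 2).sub (hc.const_mul _)).intervalIntegrable _ _
    · exact continuous_const.intervalIntegrable _ _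
  have h4 : ∫ z in y..x, g' z ^ 2 ≤ ∫ z in (0:ℝ)..(2 * π), g' z ^ 2 := by
    refine intervalIntegral.integral_mono_interval hy hyx hx ?_
      ((hc.pow 2).intervalIntegrable _ _)
    exact Eventually.of_forall fun z => sq_nonneg _
  rw [h3] at h2
  have h5 : m ^ 2 * (x - y) ≤ m ^ 2 * (2 * π) :=
    mul_le_mul_of_nonneg_left (by linarith) (sq_nonneg _)
  rw [hm'] at h2 ⊢
  have h6 : m ^ 2 * (2 * π) ≤ ∫ z in (0:ℝ)..(2 * π), g' z ^ 2 := by nlinarith
  calc (2 * π * m) ^ 2 = 2 * π * (m ^ 2 * (2 * π)) := by ring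
    _ ≤ _ := mul_le_mul_of_nonneg_left h6 (by positivity)

theorem poincare {v v' : ℝ → ℝ} (hd : ∀ x, HasDerivAt v (v' x) x) (hc : Continuous v')
    (hm : ∫ x in (0:ℝ)..(2 * π), v x = 0) :
    ∫ x in (0:ℝ)..(2 * π), v x ^ 2 ≤ 4 * π ^ 2 * ∫ x in (0:ℝ)..(2 * π), v' x ^ 2 := by
  have hpi := Real.pi_pos
  have hvc : Continuous v := continuous_iff_continuousAt.2 fun x => (hd x).continuousAt
  obtain ⟨A, hA⟩ : ∃ A : ℝ, A = ∫ x in (0:ℝ)..(2 * π), v' x ^ 2 := ⟨_, rfl⟩
  have hA0 : 0 ≤ A := by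
    rw [hA]
    exact intervalIntegral.integral_nonneg (by positivity) fun _ _ => sq_nonneg _
  have h1 : ∀ x ∈ Icc (0:ℝ) (2 * π), ∀ y ∈ Icc (0:ℝ) (2 * π), |v x - v y| ≤ Real.sqrt (2 * π * A) := by
    intro x hx y hy
    apply Real.abs_le_sqrt
    rw [hA]
    rcases le_total y x with hyx | hxy
    · exact Uni_cs hd hc hy.1 hyx hx.2
    · have := Uni_cs hd hc hx.1 hxy hy.2
      calc (v x - v y) ^ 2 = (v y - v x) ^ 2 := by ring
        _ ≤ _ := this
  have h2 : ∀ x ∈ Icc (0:ℝ) (2 * π), v x ^ 2 ≤ 2 * π * A := by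
    intro x hx
    have e1 : ∫ y in (0:ℝ)..(2 * π), (v x - v y) = 2 * π * v x := by
      rw [intervalIntegral.integral_sub (continuous_const.intervalIntegrable _ _)
        (hvc.intervalIntegrable _ _), hm, intervalIntegral.integral_const, smul_eq_mul]
      ring
    have e2 : ‖∫ y in (0:ℝ)..(2 * π), (v x - v y)‖ ≤ Real.sqrt (2 * π * A) * |2 * π - 0| := by
      apply intervalIntegral.norm_integral_le_of_norm_le_const
      intro y hy
      rw [uIoc_of_le (by positivity)] at hy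
      rw [Real.norm_eq_abs]
      exact h1 x hx y ⟨hy.1.le, hy.2⟩
    rw [e1, Real.norm_eq_abs, abs_mul, sub_zero, abs_of_pos (by positivity : (0:ℝ) < 2 * π)] at e2
    have e3 : |v x| ≤ Real.sqrt (2 * π * A) := by
      have h2p : (0:ℝ) < 2 * π := by positivity
      nlinarith
    have e4 : |v x| ^ 2 ≤ Real.sqrt (2 * π * A) ^ 2 := pow_le_pow_left₀ (abs_nonneg _) e3 2
    rwa [sq_abs, Real.sq_sqrt (by positivity)] at e4
  rw [← hA]
  have h3 : ∫ x in (0:ℝ)..(2 * π), v x ^ 2 ≤ ∫ x in (0:ℝ)..(2 * π), (2 * π * A) :=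
    intervalIntegral.integral_mono_on (by positivity) ((hvc.pow 2).intervalIntegrable _ _)
      (continuous_const.intervalIntegrable _ _) h2
  rw [intervalIntegral.integral_const, smul_eq_mul, sub_zero] at h3
  calc _ ≤ _ := h3
    _ = _ := by ring

theorem Uni_HT_sub {f g : ℝ → ℝ} {K K' : ℝ} (hf : Lip K f) (hg : Lip K' g) (x : ℝ) :
    HT (fun y => f y - g y) x = HT f x - HT g x := by
  unfold HT
  rw [← mul_sub, ← intervalIntegral.integral_sub (HT_integrable hf x) (HT_integrable hg x)]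
  congr 1
  refine intervalIntegral.integral_congr fun s _ => ?_
  show (f (x - s) - g (x - s) - (f (x + s) - g (x + s))) * _ =
    (f (x - s) - f (x + s)) * _ - (g (x - s) - g (x + s)) * _
  ring

/-- static data of a solution at a fixed time -/
structure Uni_S (f f' a a' : ℝ → ℝ) : Prop where
  sf : ContDiff ℝ ((⊤ : ℕ∞) : WithTop ℕ∞) f
  pf : Function.Periodic f (2 * π)
  df : ∀ x, HasDerivAt f (f' x) x
  cf : Continuous f'
  pf' : Function.Periodic f' (2 * π)
  pa : Function.Periodic a (2 * π)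
  da : ∀ x, HasDerivAt a (a' x) x
  ca : Continuous a'
  hu : ∀ x, a' x = HT f x
  ma : ∫ x in (0:ℝ)..(2 * π), a x = 0

theorem Uni_static {f f' a a' g g' b b' : ℝ → ℝ} (h : Uni_S f f' a a') (k : Uni_S g g' b b')
    {K : ℝ} (hK0 : 0 ≤ K) (h1 : ∀ x ∈ Icc (0:ℝ) (2 * π), |a' x| ≤ K)
    (h2 : ∀ x ∈ Icc (0:ℝ) (2 * π), |g x| ≤ K) (h3 : ∀ x ∈ Icc (0:ℝ) (2 * π), |g' x| ≤ K) :
    |∫ x in (0:ℝ)..(2 * π), 2 * (f x - g x) * ((f x * a' x - a x * f' x) - (g x * b' x - b x * g' x))| ≤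
      K * (6 + 4 * π ^ 2) * ∫ x in (0:ℝ)..(2 * π), (f x - g x) ^ 2 := by
  have hpi := Real.pi_pos
  have cf : Continuous f := h.sf.continuous
  have cg : Continuous g := k.sf.continuous
  have ca : Continuous a := continuous_iff_continuousAt.2 fun x => (h.da x).continuousAt
  have cb : Continuous b := continuous_iff_continuousAt.2 fun x => (k.da x).continuousAt
  have cf' := h.cf
  have cg' := k.cf
  have ca' := h.ca
  have cb' := k.ca
  obtain ⟨Kf, hKf⟩ := HTd_lip h.df h.cf h.pf'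
  obtain ⟨Kg, hKg⟩ := HTd_lip k.df k.cf k.pf'
  -- the velocity difference
  have hq1 : ∫ x in (0:ℝ)..(2 * π), (a' x - b' x) ^ 2 ≤ ∫ x in (0:ℝ)..(2 * π), (f x - g x) ^ 2 := by
    have e1 := HT_L2 (f := fun x => f x - g x) (h.sf.sub k.sf) (fun x => by
      show f (x + 2 * π) - g (x + 2 * π) = f x - g x
      rw [h.pf x, k.pf x])
    refine le_trans (le_of_eq ?_) e1
    refine intervalIntegral.integral_congr fun x _ => ?_
    show (a' x - b' x) ^ 2 = HT (fun x => f x - g x) x ^ 2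
    rw [Uni_HT_sub hKf hKg, h.hu x, k.hu x]
  have hq2 : ∫ x in (0:ℝ)..(2 * π), (a x - b x) ^ 2 ≤
      4 * π ^ 2 * ∫ x in (0:ℝ)..(2 * π), (a' x - b' x) ^ 2 := by
    refine poincare (v := fun x => a x - b x) (v' := fun x => a' x - b' x)
      (fun x => (h.da x).sub (k.da x)) (ca'.sub cb') ?_
    rw [intervalIntegral.integral_sub (ca.intervalIntegrable _ _) (cb.intervalIntegrable _ _),
      h.ma, k.ma, sub_zero]
  -- integration by parts
  have hi : ∫ x in (0:ℝ)..(2 * π), (a' x * (f x - g x) ^ 2 +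
      a x * (2 * (f x - g x) * (f' x - g' x))) = 0 := by
    have hd : ∀ x, HasDerivAt (fun y => a y * (f y - g y) ^ 2)
        (a' x * (f x - g x) ^ 2 + a x * (2 * (f x - g x) * (f' x - g' x))) x := by
      intro x
      have e1 := ((h.df x).sub (k.df x)).pow 2
      have e2 := (h.da x).mul e1
      refine e2.congr_deriv ?_
      simp only [Pi.sub_apply, Pi.pow_apply, Nat.cast_ofNat]
      ring
    rw [intervalIntegral.integral_eq_sub_of_hasDerivAt (fun x _ => hd x)
      (Continuous.intervalIntegrable (by fun_prop) _ _)]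
    have p1 := h.pa 0
    have p2 := h.pf 0
    have p3 := k.pf 0
    rw [zero_add] at p1 p2 p3
    rw [p1, p2, p3, sub_self]
  have hJ : ∫ x in (0:ℝ)..(2 * π), 2 * (f x - g x) *
      ((f x * a' x - a x * f' x) - (g x * b' x - b x * g' x)) =
      ∫ x in (0:ℝ)..(2 * π), (3 * (f x - g x) ^ 2 * a' x + 2 * (f x - g x) * g x * (a' x - b' x)
        - 2 * (f x - g x) * (a x - b x) * g' x) := by
    have i1 : IntervalIntegrable (fun x => 2 * (f x - g x) *
        ((f x * a' x - a x * f' x) - (g x * b' x - b x * g' x))) volume 0 (2 * π) :=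
      Continuous.intervalIntegrable (by fun_prop) _ _
    have i2 : IntervalIntegrable (fun x => a' x * (f x - g x) ^ 2 +
        a x * (2 * (f x - g x) * (f' x - g' x))) volume 0 (2 * π) :=
      Continuous.intervalIntegrable (by fun_prop) _ _
    have e1 := intervalIntegral.integral_add i1 i2
    rw [hi, add_zero] at e1
    rw [← e1]
    refine intervalIntegral.integral_congr fun x _ => ?_
    show 2 * (f x - g x) * ((f x * a' x - a x * f' x) - (g x * b' x - b x * g' x)) +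
      (a' x * (f x - g x) ^ 2 + a x * (2 * (f x - g x) * (f' x - g' x))) = _
    ring
  rw [hJ]
  have hb : |∫ x in (0:ℝ)..(2 * π), (3 * (f x - g x) ^ 2 * a' x +
      2 * (f x - g x) * g x * (a' x - b' x) - 2 * (f x - g x) * (a x - b x) * g' x)| ≤
      ∫ x in (0:ℝ)..(2 * π), (5 * K * (f x - g x) ^ 2 + K * (a' x - b' x) ^ 2 +
        K * (a x - b x) ^ 2) := by
    rw [← Real.norm_eq_abs]
    refine intervalIntegral.norm_integral_le_of_norm_le (by positivity)
      (Eventually.of_forall fun x hx => ?_)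
      (Continuous.intervalIntegrable (by fun_prop) _ _)
    have hx' : x ∈ Icc (0:ℝ) (2 * π) := ⟨hx.1.le, hx.2⟩
    have b1 := h1 x hx'
    have b2 := h2 x hx'
    have b3 := h3 x hx'
    rw [Real.norm_eq_abs]
    obtain ⟨d, hd⟩ : ∃ d : ℝ, d = f x - g x := ⟨_, rfl⟩
    obtain ⟨q, hq⟩ : ∃ q : ℝ, q = a x - b x := ⟨_, rfl⟩
    obtain ⟨r, hr⟩ : ∃ r : ℝ, r = a' x - b' x := ⟨_, rfl⟩
    rw [← hd, ← hq, ← hr]
    have c1 : |3 * d ^ 2 * a' x| ≤ 3 * K * d ^ 2 := by
      rw [abs_mul, abs_of_nonneg (by positivity : (0:ℝ) ≤ 3 * d ^ 2)]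
      nlinarith [sq_nonneg d]
    have c2 : |2 * d * g x * r| ≤ K * d ^ 2 + K * r ^ 2 := by
      have e : |2 * d * g x * r| = |g x| * (2 * (|d| * |r|)) := by
        rw [abs_mul, abs_mul, abs_mul, abs_of_pos (by norm_num : (0:ℝ) < 2)]
        ring
      rw [e]
      have e1 : 2 * (|d| * |r|) ≤ d ^ 2 + r ^ 2 := by
        nlinarith [sq_nonneg (|d| - |r|), sq_abs d, sq_abs r]
      calc |g x| * (2 * (|d| * |r|)) ≤ K * (2 * (|d| * |r|)) :=
            mul_le_mul_of_nonneg_right b2 (by positivity)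
        _ ≤ K * (d ^ 2 + r ^ 2) := mul_le_mul_of_nonneg_left e1 hK0
        _ = _ := by ring
    have c3 : |2 * d * q * g' x| ≤ K * d ^ 2 + K * q ^ 2 := by
      have e : |2 * d * q * g' x| = |g' x| * (2 * (|d| * |q|)) := by
        rw [abs_mul, abs_mul, abs_mul, abs_of_pos (by norm_num : (0:ℝ) < 2)]
        ring
      rw [e]
      have e1 : 2 * (|d| * |q|) ≤ d ^ 2 + q ^ 2 := by
        nlinarith [sq_nonneg (|d| - |q|), sq_abs d, sq_abs q]
      calc |g' x| * (2 * (|d| * |q|)) ≤ K * (2 * (|d| * |q|)) :=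
            mul_le_mul_of_nonneg_right b3 (by positivity)
        _ ≤ K * (d ^ 2 + q ^ 2) := mul_le_mul_of_nonneg_left e1 hK0
        _ = _ := by ring
    rw [abs_le] at c1 c2 c3
    rw [abs_le]
    constructor <;> linarith [c1.1, c1.2, c2.1, c2.2, c3.1, c3.2]
  refine hb.trans ?_
  rw [intervalIntegral.integral_add (Continuous.intervalIntegrable (by fun_prop) _ _)
      (Continuous.intervalIntegrable (by fun_prop) _ _),
    intervalIntegral.integral_add (Continuous.intervalIntegrable (by fun_prop) _ _)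
      (Continuous.intervalIntegrable (by fun_prop) _ _),
    intervalIntegral.integral_const_mul, intervalIntegral.integral_const_mul,
    intervalIntegral.integral_const_mul]
  have e5 := mul_le_mul_of_nonneg_left hq1 hK0
  have e6 := mul_le_mul_of_nonneg_left hq2 hK0
  have e7 := mul_le_mul_of_nonneg_left hq1 (by positivity : (0:ℝ) ≤ K * (4 * π ^ 2))
  nlinarith [e5, e6, e7]

/-- Gronwall forward in time -/
theorem Uni_gron {D D' : ℝ → ℝ} {C T : ℝ} (hT : 0 ≤ T) (hd : ∀ s, HasDerivAt D (D' s) s)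
    (hD : ∀ s ∈ Icc 0 T, D' s ≤ C * D s) (h0 : D 0 = 0) (hn : ∀ s, 0 ≤ D s) : D T = 0 := by
  have hmono : AntitoneOn (fun s => D s * Real.exp (-(C * s))) (Icc 0 T) := by
    have hder : ∀ s, HasDerivAt (fun s => D s * Real.exp (-(C * s)))
        (D' s * Real.exp (-(C * s)) + D s * (Real.exp (-(C * s)) * (-(C * 1)))) s := fun s =>
      (hd s).mul (((hasDerivAt_id s).const_mul C).neg.exp)
    refine antitoneOn_of_deriv_nonpos (convex_Icc _ _)
      (fun s _ => (hder s).continuousAt.continuousWithinAt)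
      (fun s _ => (hder s).differentiableAt.differentiableWithinAt) ?_
    intro s hs
    rw [interior_Icc] at hs
    rw [(hder s).deriv]
    have h1 := hD s ⟨hs.1.le, hs.2.le⟩
    have h2 := Real.exp_pos (-(C * s))
    nlinarith
  have h1 : D T * Real.exp (-(C * T)) ≤ D 0 * Real.exp (-(C * 0)) :=
    hmono ⟨le_rfl, hT⟩ ⟨hT, le_rfl⟩ hT
  rw [h0, zero_mul] at h1
  have h2 := Real.exp_pos (-(C * T))
  have h3 := hn T
  nlinarith

/-- solution on a closed interval, extended smoothly to all times -/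
structure Uni_G (α β : ℝ) (W U : ℝ × ℝ → ℝ) : Prop where
  sw : ContDiff ℝ ((⊤ : ℕ∞) : WithTop ℕ∞) W
  su : ContDiff ℝ ((⊤ : ℕ∞) : WithTop ℕ∞) U
  pw : ∀ t x : ℝ, W (t, x + 2 * π) = W (t, x)
  pu : ∀ t x : ℝ, U (t, x + 2 * π) = U (t, x)
  hu : ∀ t ∈ Icc α β, ∀ x : ℝ, px U (t, x) = HT (fun y : ℝ => W (t, y)) x
  mu : ∀ t ∈ Icc α β, ∫ x in (0:ℝ)..(2 * π), U (t, x) = 0
  pde : ∀ t ∈ Icc α β, ∀ x : ℝ, pt W (t, x) + U (t, x) * px W (t, x) = W (t, x) * px U (t, x)

theorem Uni_ext {a b α β : ℝ} {w u : ℝ × ℝ → ℝ} (h : Sol a b w u) (ha : a < α) (hαβ : α ≤ β)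
    (hb : β < b) : ∃ W U : ℝ × ℝ → ℝ, Uni_G α β W U ∧
      ∀ t ∈ Icc α β, ∀ x : ℝ, W (t, x) = w (t, x) ∧ U (t, x) = u (t, x) := by
  have hε : 0 < min (α - a) (b - β) / 2 := by
    have : 0 < min (α - a) (b - β) := lt_min (by linarith) (by linarith)
    linarith
  obtain ⟨χ, ρ, hρ, hcs, hχ, h1, hχI⟩ :=
    Pool.Agent.H45.DGL.chi_exists α β (min (α - a) (b - β) / 2) hαβ hε
  have hIn : ∀ t, χ t ∈ Ioo a b := by
    intro t
    have h2 := hχI t
    have h3 : min (α - a) (b - β) ≤ α - a := min_le_left _ _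
    have h4 : min (α - a) (b - β) ≤ b - β := min_le_right _ _
    constructor <;> linarith [h2.1, h2.2]
  have hderiv : deriv χ = ρ := funext fun t => (hχ t).deriv
  have hχs : ContDiff ℝ ((⊤ : ℕ∞) : WithTop ℕ∞) χ := by
    rw [contDiff_infty_iff_deriv]
    refine ⟨fun t => (hχ t).differentiableAt, ?_⟩
    rw [hderiv]
    exact hρ
  have hmap : ContDiff ℝ ((⊤ : ℕ∞) : WithTop ℕ∞) (fun p : ℝ × ℝ => (χ p.1, p.2)) :=
    (hχs.comp contDiff_fst).prodMk contDiff_snd
  have hopen : IsOpen (Ioo a b ×ˢ (univ : Set ℝ)) := isOpen_Ioo.prod isOpen_univ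
  have hWs : ContDiff ℝ ((⊤ : ℕ∞) : WithTop ℕ∞) (fun p : ℝ × ℝ => w (χ p.1, p.2)) :=
    h.sw.comp_contDiff hmap fun p => ⟨hIn p.1, mem_univ _⟩
  have hUs : ContDiff ℝ ((⊤ : ℕ∞) : WithTop ℕ∞) (fun p : ℝ × ℝ => u (χ p.1, p.2)) :=
    h.su.comp_contDiff hmap fun p => ⟨hIn p.1, mem_univ _⟩
  refine ⟨fun p => w (χ p.1, p.2), fun p => u (χ p.1, p.2), ⟨hWs, hUs, ?_, ?_, ?_, ?_, ?_⟩, ?_⟩
  · intro t x
    exact h.pw _ (hIn t) x
  · intro t x
    exact h.pu _ (hIn t) x
  · intro t _ x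
    exact h.hu _ (hIn t) x
  · intro t _
    exact h.mu _ (hIn t)
  · intro t ht x
    have hmem : (χ t, x) ∈ Ioo a b ×ˢ (univ : Set ℝ) := ⟨hIn t, mem_univ _⟩
    have hdiff : DifferentiableAt ℝ w (χ t, x) :=
      (h.sw.contDiffAt (hopen.mem_nhds hmem)).differentiableAt (by simp)
    have hin : DifferentiableAt ℝ (fun s : ℝ => w (s, x)) (χ t) := by
      have : DifferentiableAt ℝ (fun s : ℝ => (s, x)) (χ t) :=
        differentiableAt_id.prodMk (differentiableAt_const x)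
      exact DifferentiableAt.comp (χ t) (f := fun s : ℝ => (s, x)) (g := w) hdiff this
    have e1 : pt (fun p : ℝ × ℝ => w (χ p.1, p.2)) (t, x) =
        deriv (fun s : ℝ => w (s, x)) (χ t) * ρ t := by
      show deriv (fun s : ℝ => w (χ s, x)) t = _
      have := HasDerivAt.comp t (h := χ) (h₂ := fun s : ℝ => w (s, x)) hin.hasDerivAt (hχ t)
      exact this.deriv
    rw [e1, (h1 t ht).1, mul_one]
    exact h.pde (χ t) (hIn t) x
  · intro t ht x
    show w (χ t, x) = w (t, x) ∧ u (χ t, x) = u (t, x)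
    rw [(h1 t ht).2]
    exact ⟨rfl, rfl⟩

theorem Uni_leib {w : ℝ × ℝ → ℝ} (hs : ContDiff ℝ ((⊤ : ℕ∞) : WithTop ℕ∞) w) (t : ℝ) :
    HasDerivAt (fun s => ∫ x in (0:ℝ)..(2 * π), w (s, x)) (∫ x in (0:ℝ)..(2 * π), pt w (t, x)) t := by
  have hpt : Continuous (pt w) := (smooth_pt w hs).continuous
  have hw : Continuous w := hs.continuous
  have hcomp : IsCompact (Icc (t - 1) (t + 1) ×ˢ Icc (0:ℝ) (2 * π)) := isCompact_Icc.prod isCompact_Icc
  obtain ⟨C, hC⟩ := hcomp.exists_bound_of_continuousOn hpt.continuousOn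
  have h2p : (0:ℝ) ≤ 2 * π := by positivity
  have key := intervalIntegral.hasDerivAt_integral_of_dominated_loc_of_deriv_le (μ := volume)
    (a := 0) (b := 2 * π) (F := fun s x => w (s, x)) (F' := fun s x => pt w (s, x))
    (x₀ := t) (s := Icc (t - 1) (t + 1)) (bound := fun _ => C) (Icc_mem_nhds (by linarith) (by linarith))
    (Filter.Eventually.of_forall fun s =>
      (hw.comp (continuous_const.prodMk continuous_id)).aestronglyMeasurable)
    ((hw.comp (continuous_const.prodMk continuous_id)).intervalIntegrable _ _)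
    (hpt.comp (continuous_const.prodMk continuous_id)).aestronglyMeasurable
    (Filter.Eventually.of_forall fun x hx s hs' => by
      rw [uIoc_of_le h2p] at hx
      exact hC (s, x) ⟨hs', hx.1.le, hx.2⟩)
    intervalIntegrable_const
    (Filter.Eventually.of_forall fun x _ s _ => by
      have := h58_hasDerivAt_t w hs s x
      rw [h58_pt_eq w hs]
      exact this)
  exact key.2

theorem Uni_S_of {α β : ℝ} {W U : ℝ × ℝ → ℝ} (h : Uni_G α β W U) {t : ℝ} (ht : t ∈ Icc α β) :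
    Uni_S (fun x => W (t, x)) (fun x => px W (t, x)) (fun x => U (t, x)) (fun x => px U (t, x)) := by
  have hc : ∀ {v : ℝ × ℝ → ℝ}, ContDiff ℝ ((⊤ : ℕ∞) : WithTop ℕ∞) v →
      ContDiff ℝ ((⊤ : ℕ∞) : WithTop ℕ∞) (fun y : ℝ => v (t, y)) := fun hv =>
    hv.comp (contDiff_const.prodMk contDiff_id)
  exact
    { sf := hc h.sw
      pf := fun x => h.pw t x
      df := fun x => hasDerivAt_px W h.sw t x
      cf := (hc (smooth_px W h.sw)).continuous
      pf' := fun x => HTd_per h.pw t x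
      pa := fun x => h.pu t x
      da := fun x => hasDerivAt_px U h.su t x
      ca := (hc (smooth_px U h.su)).continuous
      hu := h.hu t ht
      ma := h.mu t ht }

theorem Uni_main {α β : ℝ} {W U W' U' : ℝ × ℝ → ℝ} (h : Uni_G α β W U) (k : Uni_G α β W' U')
    (h0 : (0:ℝ) ∈ Icc α β) (e0 : ∀ x, W (0, x) = W' (0, x)) :
    ∀ t ∈ Icc α β, ∀ x, W (t, x) = W' (t, x) ∧ U (t, x) = U' (t, x) := by
  have hpi := Real.pi_pos
  have hcomp : IsCompact (Icc α β ×ˢ Icc (0:ℝ) (2 * π)) := isCompact_Icc.prod isCompact_Icc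
  obtain ⟨K1, hK1⟩ := hcomp.exists_bound_of_continuousOn (smooth_px U h.su).continuous.continuousOn
  obtain ⟨K2, hK2⟩ := hcomp.exists_bound_of_continuousOn k.sw.continuous.continuousOn
  obtain ⟨K3, hK3⟩ := hcomp.exists_bound_of_continuousOn (smooth_px W' k.sw).continuous.continuousOn
  obtain ⟨K, hK0, hKa, hKb, hKc⟩ : ∃ K : ℝ, 0 ≤ K ∧ K1 ≤ K ∧ K2 ≤ K ∧ K3 ≤ K :=
    ⟨|K1| + |K2| + |K3|, by positivity,
      by linarith [le_abs_self K1, abs_nonneg K2, abs_nonneg K3],
      by linarith [le_abs_self K2, abs_nonneg K1, abs_nonneg K3],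
      by linarith [le_abs_self K3, abs_nonneg K2, abs_nonneg K1]⟩
  have hds : ContDiff ℝ ((⊤ : ℕ∞) : WithTop ℕ∞) (fun p : ℝ × ℝ => (W p - W' p) ^ 2) :=
    (h.sw.sub k.sw).pow 2
  obtain ⟨D, hD⟩ : ∃ D : ℝ → ℝ, D = fun s => ∫ x in (0:ℝ)..(2 * π), (W (s, x) - W' (s, x)) ^ 2 :=
    ⟨_, rfl⟩
  obtain ⟨D', hD'⟩ : ∃ D' : ℝ → ℝ, D' = fun s => ∫ x in (0:ℝ)..(2 * π),
    pt (fun p : ℝ × ℝ => (W p - W' p) ^ 2) (s, x) := ⟨_, rfl⟩
  have hder : ∀ s, HasDerivAt D (D' s) s := by
    intro s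
    rw [hD, hD']
    exact Uni_leib hds s
  have hn : ∀ s, 0 ≤ D s := by
    intro s
    rw [hD]
    exact intervalIntegral.integral_nonneg (by positivity) fun _ _ => sq_nonneg _
  have hpt : ∀ s x, pt (fun p : ℝ × ℝ => (W p - W' p) ^ 2) (s, x) =
      2 * (W (s, x) - W' (s, x)) * (pt W (s, x) - pt W' (s, x)) := by
    intro s x
    have d1 : HasDerivAt (fun r => W (r, x)) (pt W (s, x)) s := by
      rw [h58_pt_eq W h.sw]
      exact h58_hasDerivAt_t W h.sw s x
    have d2 : HasDerivAt (fun r => W' (r, x)) (pt W' (s, x)) s := by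
      rw [h58_pt_eq W' k.sw]
      exact h58_hasDerivAt_t W' k.sw s x
    have d3 := ((d1.sub d2).pow 2).deriv
    refine Eq.trans d3 ?_
    simp only [Pi.sub_apply, Nat.cast_ofNat]
    ring
  have hbd : ∀ s ∈ Icc α β, |D' s| ≤ K * (6 + 4 * π ^ 2) * D s := by
    intro s hs
    have key := Uni_static (Uni_S_of h hs) (Uni_S_of k hs) hK0
      (fun x hx => by
        have := hK1 (s, x) ⟨hs, hx⟩
        rw [Real.norm_eq_abs] at this
        exact this.trans hKa)
      (fun x hx => by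
        have := hK2 (s, x) ⟨hs, hx⟩
        rw [Real.norm_eq_abs] at this
        exact this.trans hKb)
      (fun x hx => by
        have := hK3 (s, x) ⟨hs, hx⟩
        rw [Real.norm_eq_abs] at this
        exact this.trans hKc)
    rw [hD, hD']
    refine le_trans (le_of_eq ?_) key
    show |∫ x in (0:ℝ)..(2 * π), pt (fun p : ℝ × ℝ => (W p - W' p) ^ 2) (s, x)| = _
    congr 1
    refine intervalIntegral.integral_congr fun x _ => ?_
    show pt (fun p : ℝ × ℝ => (W p - W' p) ^ 2) (s, x) = _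
    rw [hpt]
    have q1 := h.pde s hs x
    have q2 := k.pde s hs x
    have q3 : pt W (s, x) = W (s, x) * px U (s, x) - U (s, x) * px W (s, x) := by linarith
    have q4 : pt W' (s, x) = W' (s, x) * px U' (s, x) - U' (s, x) * px W' (s, x) := by linarith
    rw [q3, q4]
  have hD0 : D 0 = 0 := by
    rw [hD]
    show ∫ x in (0:ℝ)..(2 * π), (W (0, x) - W' (0, x)) ^ 2 = 0
    simp [e0]
  have hDt : ∀ t ∈ Icc α β, D t = 0 := by
    intro t ht
    rcases le_total 0 t with h1 | h1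
    · refine Uni_gron (C := K * (6 + 4 * π ^ 2)) h1 hder (fun s hs => ?_) hD0 hn
      exact (le_abs_self _).trans (hbd s ⟨h0.1.trans hs.1, hs.2.trans ht.2⟩)
    · have key := Uni_gron (D := fun s => D (-s)) (D' := fun s => -D' (-s))
        (C := K * (6 + 4 * π ^ 2)) (T := -t) (by linarith)
        (fun s => by
          have := (hder (-s)).comp s (hasDerivAt_neg s)
          simpa only [Function.comp_def, mul_neg, mul_one] using this)
        (fun s hs => (neg_le_abs _).trans (hbd (-s) ⟨by linarith [hs.2, ht.1], by linarith [hs.1, h0.2]⟩))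
        (by show D (-0) = 0; rw [neg_zero, hD0]) (fun s => hn (-s))
      have : D (-(-t)) = 0 := key
      rwa [neg_neg] at this
  have hW : ∀ t ∈ Icc α β, ∀ x, W (t, x) = W' (t, x) := by
    intro t ht
    have hcont : Continuous fun x => (W (t, x) - W' (t, x)) ^ 2 :=
      ((h.sw.continuous.comp (continuous_const.prodMk continuous_id)).sub
        (k.sw.continuous.comp (continuous_const.prodMk continuous_id))).pow 2
    have h1 : ∀ x ∈ Ico (0:ℝ) (2 * π), W (t, x) = W' (t, x) := by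
      intro x hx
      by_contra hne
      have hpos : 0 < ∫ x in (0:ℝ)..(2 * π), (W (t, x) - W' (t, x)) ^ 2 := by
        refine intervalIntegral.integral_pos (by positivity) hcont.continuousOn
          (fun y _ => sq_nonneg _) ⟨x, ⟨hx.1, hx.2.le⟩, ?_⟩
        have : W (t, x) - W' (t, x) ≠ 0 := sub_ne_zero.2 hne
        positivity
      have h2 := hDt t ht
      rw [hD] at h2
      have h3 : ∫ x in (0:ℝ)..(2 * π), (W (t, x) - W' (t, x)) ^ 2 = 0 := h2
      linarith
    intro x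
    have hper : Function.Periodic (fun y => W (t, y) - W' (t, y)) (2 * π) := by
      intro y
      show W (t, y + 2 * π) - W' (t, y + 2 * π) = W (t, y) - W' (t, y)
      rw [h.pw, k.pw]
    obtain ⟨y, hy, hxy⟩ := hper.exists_mem_Ico₀ (by positivity) x
    have h2 : W (t, x) - W' (t, x) = W (t, y) - W' (t, y) := hxy
    have h3 := h1 y hy
    linarith
  intro t ht
  have hWt := hW t ht
  have hU : ∀ x, U (t, x) = U' (t, x) := by
    have hd : ∀ x, HasDerivAt (fun y => U (t, y) - U' (t, y)) 0 x := by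
      intro x
      have e1 := (hasDerivAt_px U h.su t x).sub (hasDerivAt_px U' k.su t x)
      have e2 : px U (t, x) - px U' (t, x) = 0 := by
        rw [h.hu t ht x, k.hu t ht x]
        have : (fun y => W (t, y)) = fun y => W' (t, y) := funext hWt
        rw [this, sub_self]
      rw [e2] at e1
      exact e1
    have hcst : ∀ x, U (t, x) - U' (t, x) = U (t, 0) - U' (t, 0) := by
      intro x
      have := is_const_of_deriv_eq_zero (f := fun y => U (t, y) - U' (t, y))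
        (fun x => (hd x).differentiableAt) (fun x => (hd x).deriv) x 0
      exact this
    have cU : Continuous fun x => U (t, x) :=
      h.su.continuous.comp (continuous_const.prodMk continuous_id)
    have cU' : Continuous fun x => U' (t, x) :=
      k.su.continuous.comp (continuous_const.prodMk continuous_id)
    have e3 : ∫ x in (0:ℝ)..(2 * π), (U (t, x) - U' (t, x)) = 0 := by
      rw [intervalIntegral.integral_sub (cU.intervalIntegrable _ _) (cU'.intervalIntegrable _ _),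
        h.mu t ht, k.mu t ht, sub_zero]
    simp only [hcst] at e3
    rw [intervalIntegral.integral_const, smul_eq_mul, sub_zero] at e3
    have e4 : U (t, 0) - U' (t, 0) = 0 := by
      rcases mul_eq_zero.1 e3 with h5 | h5
      · exfalso
        linarith
      · exact h5
    intro x
    have := hcst x
    linarith
  exact fun x => ⟨hWt x, hU x⟩

theorem sol_unique {a b : ℝ} {w u w' u' : ℝ × ℝ → ℝ} (h : Sol a b w u) (h' : Sol a b w' u')
    (ha : a < 0) (hb : 0 < b) (h0 : ∀ x, w (0, x) = w' (0, x)) :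
    ∀ t ∈ Ioo a b, ∀ x, w (t, x) = w' (t, x) ∧ u (t, x) = u' (t, x) := by
  intro t ht x
  have h1 : a < min 0 t := lt_min ha ht.1
  have h2 : max 0 t < b := max_lt hb ht.2
  have h3 : min 0 t ≤ max 0 t := min_le_max
  obtain ⟨W, U, hG, hE⟩ := Uni_ext h h1 h3 h2
  obtain ⟨W', U', hG', hE'⟩ := Uni_ext h' h1 h3 h2
  have m0 : (0:ℝ) ∈ Icc (min 0 t) (max 0 t) := ⟨min_le_left _ _, le_max_left _ _⟩
  have mt : t ∈ Icc (min 0 t) (max 0 t) := ⟨min_le_right _ _, le_max_right _ _⟩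
  have key := Uni_main hG hG' m0 (fun y => by rw [(hE 0 m0 y).1, (hE' 0 m0 y).1, h0 y]) t mt x
  rw [(hE t mt x).1, (hE' t mt x).1, (hE t mt x).2, (hE' t mt x).2] at key
  exact key

end Pool.Agent.H90.DC
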